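import Pool.Agent.H578.CM.D.E7m
import Pool.Agent.H578.CM.Dir

set_option autoImplicit false
set_option linter.unusedSectionVars false
set_option linter.unusedVariables false
set_option linter.unusedTactic false
set_option linter.unreachableTactic false
set_option maxHeartbeats 4000000
set_option maxRecDepth 100000

namespace Pool.Agent.H578.CM.E7

open Finset Pool.Agent.H546 Pool.Agent.H547 Pool.Agent.H578.CM
open Pool.Agent.Q267.CDE (R)

section fin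

variable {p : ℕ} [hp : Fact p.Prime]

theorem neb (hpb : p ≠ 7) : ¬ ((7 : ℕ) : ℤ) ∣ (p : ℤ) := by
  intro h
  exact hpb ((Nat.prime_dvd_prime_iff_eq (by norm_num) hp.out).mp (by exact_mod_cast h)).symm

theorem nep (n : ℕ) (hn : n.Prime) (h : p ≠ n) : ¬ (p : ℤ) ∣ (n : ℤ) := by
  intro h1
  exact h ((Nat.prime_dvd_prime_iff_eq hp.out hn).mp (by exact_mod_cast h1))

theorem n6b (h3 : 3 < p) (hpb : p ≠ 7) : ¬ (p : ℤ) ∣ (6 * 7) := by
  have e : (6 * 7 : ℤ) = ((2 : ℕ) : ℤ) * (((3 : ℕ) : ℤ) * ((7 : ℕ) : ℤ)) := by norm_num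
  rw [e]
  exact nd_mul' (nep 2 (by norm_num) (by omega)) (nd_mul' (nep 3 (by norm_num) (by omega))
    (nep 7 (by norm_num) hpb))

theorem mods (h3 : 3 < p) : p % 2 = 1 ∧ p % 3 ≠ 0 := by
  constructor
  · rcases hp.out.eq_two_or_odd with h | h
    · omega
    · exact h
  · intro h0
    have := (Nat.prime_dvd_prime_iff_eq Nat.prime_three hp.out).mp (Nat.dvd_of_mod_eq_zero h0)
    omega

theorem lb [Fact (Nat.Prime 7)] (h3 : 3 < p) : legendreSym p ((7 : ℕ) : ℤ) = (if p % 4 = 1 then 1 else -1) * legendreSym 7 p := by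
  exact leg_b3 (by omega) 7 (by norm_num)

theorem c1_b (hpb : p ≠ 7) [Fact (Nat.Prime 7)] {x y : ℤ} (h : (p : ℤ) = x ^ 2 + 6 * 7 * y ^ 2) :
    legendreSym 7 p = 1 := by
  rw [leg_form 7 (n := (p : ℤ)) (a := 1) (x := x) (t := 6 * y ^ 2) (by rw [h]; push_cast; ring) (neb hpb)]
  norm_num

theorem c1_A (h3 : 3 < p) (hpb : p ≠ 7) {x y : ℤ} (h : (p : ℤ) = x ^ 2 + 6 * 7 * y ^ 2) : legendreSym p 6 = 1 := by
  have hx := sqm8 x
  have hy := sqm8 y
  have hx3 := sqm3 x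
  have hy3 := sqm3 y
  have hm := mods h3
  rw [leg6 (by omega) (by omega)]
  split_ifs <;> first | (exfalso; omega) | norm_num

theorem c1_B (h3 : 3 < p) (hpb : p ≠ 7) {x y : ℤ} (h : (p : ℤ) = x ^ 2 + 6 * 7 * y ^ 2) : legendreSym p 14 = 1 := by
  have : Fact (Nat.Prime 7) := ⟨by norm_num⟩
  have hx := sqm8 x
  have hy := sqm8 y
  have hm := mods h3
  have h1 := lb (p := p) h3
  rw [c1_b hpb h] at h1
  have e : (14 : ℤ) = 2 * ((7 : ℕ) : ℤ) := by norm_num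
  rw [e, leg_mul, h1, leg2 (by omega)]
  split_ifs <;> first | (exfalso; omega) | norm_num

theorem c2_b (hpb : p ≠ 7) [Fact (Nat.Prime 7)] {x y : ℤ} (h : (p : ℤ) = 2 * x ^ 2 + 3 * 7 * y ^ 2) :
    legendreSym 7 p = 1 := by
  rw [leg_form 7 (n := (p : ℤ)) (a := 2) (x := x) (t := 3 * y ^ 2) (by rw [h]; push_cast; ring) (neb hpb)]
  norm_num

theorem c2_A (h3 : 3 < p) (hpb : p ≠ 7) {x y : ℤ} (h : (p : ℤ) = 2 * x ^ 2 + 3 * 7 * y ^ 2) : legendreSym p 6 = 1 := by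
  have hx := sqm8 x
  have hy := sqm8 y
  have hx3 := sqm3 x
  have hy3 := sqm3 y
  have hm := mods h3
  rw [leg6 (by omega) (by omega)]
  split_ifs <;> first | (exfalso; omega) | norm_num

theorem c2_B (h3 : 3 < p) (hpb : p ≠ 7) {x y : ℤ} (h : (p : ℤ) = 2 * x ^ 2 + 3 * 7 * y ^ 2) : legendreSym p 14 = -1 := by
  have : Fact (Nat.Prime 7) := ⟨by norm_num⟩
  have hx := sqm8 x
  have hy := sqm8 y
  have hm := mods h3
  have h1 := lb (p := p) h3
  rw [c2_b hpb h] at h1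
  have e : (14 : ℤ) = 2 * ((7 : ℕ) : ℤ) := by norm_num
  rw [e, leg_mul, h1, leg2 (by omega)]
  split_ifs <;> first | (exfalso; omega) | norm_num

theorem c3_b (hpb : p ≠ 7) [Fact (Nat.Prime 7)] {x y : ℤ} (h : (p : ℤ) = 3 * x ^ 2 + 2 * 7 * y ^ 2) :
    legendreSym 7 p = -1 := by
  rw [leg_form 7 (n := (p : ℤ)) (a := 3) (x := x) (t := 2 * y ^ 2) (by rw [h]; push_cast; ring) (neb hpb)]
  norm_num

theorem c3_A (h3 : 3 < p) (hpb : p ≠ 7) {x y : ℤ} (h : (p : ℤ) = 3 * x ^ 2 + 2 * 7 * y ^ 2) : legendreSym p 6 = -1 := by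
  have hx := sqm8 x
  have hy := sqm8 y
  have hx3 := sqm3 x
  have hy3 := sqm3 y
  have hm := mods h3
  rw [leg6 (by omega) (by omega)]
  split_ifs <;> first | (exfalso; omega) | norm_num

theorem c3_B (h3 : 3 < p) (hpb : p ≠ 7) {x y : ℤ} (h : (p : ℤ) = 3 * x ^ 2 + 2 * 7 * y ^ 2) : legendreSym p 14 = -1 := by
  have : Fact (Nat.Prime 7) := ⟨by norm_num⟩
  have hx := sqm8 x
  have hy := sqm8 y
  have hm := mods h3
  have h1 := lb (p := p) h3
  rw [c3_b hpb h] at h1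
  have e : (14 : ℤ) = 2 * ((7 : ℕ) : ℤ) := by norm_num
  rw [e, leg_mul, h1, leg2 (by omega)]
  split_ifs <;> first | (exfalso; omega) | norm_num

theorem c6_b (hpb : p ≠ 7) [Fact (Nat.Prime 7)] {x y : ℤ} (h : (p : ℤ) = 6 * x ^ 2 + 7 * y ^ 2) :
    legendreSym 7 p = -1 := by
  rw [leg_form 7 (n := (p : ℤ)) (a := 6) (x := x) (t := 1 * y ^ 2) (by rw [h]; push_cast; ring) (neb hpb)]
  norm_num

theorem c6_A (h3 : 3 < p) (hpb : p ≠ 7) {x y : ℤ} (h : (p : ℤ) = 6 * x ^ 2 + 7 * y ^ 2) : legendreSym p 6 = -1 := by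
  have hx := sqm8 x
  have hy := sqm8 y
  have hx3 := sqm3 x
  have hy3 := sqm3 y
  have hm := mods h3
  rw [leg6 (by omega) (by omega)]
  split_ifs <;> first | (exfalso; omega) | norm_num

theorem c6_B (h3 : 3 < p) (hpb : p ≠ 7) {x y : ℤ} (h : (p : ℤ) = 6 * x ^ 2 + 7 * y ^ 2) : legendreSym p 14 = 1 := by
  have : Fact (Nat.Prime 7) := ⟨by norm_num⟩
  have hx := sqm8 x
  have hy := sqm8 y
  have hm := mods h3
  have h1 := lb (p := p) h3
  rw [c6_b hpb h] at h1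
  have e : (14 : ℤ) = 2 * ((7 : ℕ) : ℤ) := by norm_num
  rw [e, leg_mul, h1, leg2 (by omega)]
  split_ifs <;> first | (exfalso; omega) | norm_num

theorem hneOf (h3 : 3 < p) (hpb : p ≠ 7) (hpm : ¬ (p : ℤ) ∣ 896) (hs5 : p ≠ 5) :
    ∀ q ∈ ([2, 3, 5, 7] : List ℕ), p ≠ q := by
  intro q hq
  simp only [List.mem_cons, List.not_mem_nil, or_false] at hq
  rcases hq with rfl | rfl | rfl | rfl
  · omega
  · omega
  · exact hs5
  · exact hpb

theorem small1 (h3 : 3 < p) (hpb : p ≠ 7) (hpm : ¬ (p : ℤ) ∣ 896) (hP : p < 26) {wi : R p}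
    (hwi : ((896 : ℤ) : R p) * wi = 1) {x y : ℤ} (h : (p : ℤ) = x ^ 2 + 6 * 7 * y ^ 2) :
    AA p wi = ((4 * x ^ 2 - 2 * p : ℤ) : R p) := by
  obtain ⟨a, ha⟩ : ∃ a : ℕ, x ^ 2 = (a : ℤ) ^ 2 := ⟨x.natAbs, by simp⟩
  obtain ⟨c, hc⟩ : ∃ c : ℕ, y ^ 2 = (c : ℤ) ^ 2 := ⟨y.natAbs, by simp⟩
  rw [ha] at h ⊢
  rw [hc] at h
  clear ha hc x y
  replace h : p = a ^ 2 + 6 * 7 * c ^ 2 := by exact_mod_cast h
  have hx : a ≤ 5 := by
    by_contra h1
    have : 6 ≤ a := by omega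
    nlinarith [Nat.zero_le (c ^ 2)]
  have hy : c ≤ 0 := by
    by_contra h1
    have : 1 ≤ c := by omega
    nlinarith [Nat.zero_le (a ^ 2)]
  interval_cases a <;> interval_cases c <;> norm_num at h <;> subst h <;> first
    | (exfalso; omega)
    | (have h0 := hp.out; norm_num at h0; done)
    | exact AA_direct hwi _ (by decide +kernel)

theorem small2 (h3 : 3 < p) (hpb : p ≠ 7) (hpm : ¬ (p : ℤ) ∣ 896) (hP : p < 26) {wi : R p}
    (hwi : ((896 : ℤ) : R p) * wi = 1) {x y : ℤ} (h : (p : ℤ) = 2 * x ^ 2 + 3 * 7 * y ^ 2) :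
    AA p wi = ((8 * x ^ 2 - 2 * p : ℤ) : R p) := by
  obtain ⟨a, ha⟩ : ∃ a : ℕ, x ^ 2 = (a : ℤ) ^ 2 := ⟨x.natAbs, by simp⟩
  obtain ⟨c, hc⟩ : ∃ c : ℕ, y ^ 2 = (c : ℤ) ^ 2 := ⟨y.natAbs, by simp⟩
  rw [ha] at h ⊢
  rw [hc] at h
  clear ha hc x y
  replace h : p = 2 * a ^ 2 + 3 * 7 * c ^ 2 := by exact_mod_cast h
  have hx : a ≤ 3 := by
    by_contra h1
    have : 4 ≤ a := by omega
    nlinarith [Nat.zero_le (c ^ 2)]
  have hy : c ≤ 1 := by
    by_contra h1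
    have : 2 ≤ c := by omega
    nlinarith [Nat.zero_le (a ^ 2)]
  interval_cases a <;> interval_cases c <;> norm_num at h <;> subst h <;> first
    | (exfalso; omega)
    | (have h0 := hp.out; norm_num at h0; done)
    | exact AA_direct hwi _ (by decide +kernel)

theorem small3 (h3 : 3 < p) (hpb : p ≠ 7) (hpm : ¬ (p : ℤ) ∣ 896) (hP : p < 26) {wi : R p}
    (hwi : ((896 : ℤ) : R p) * wi = 1) {x y : ℤ} (h : (p : ℤ) = 3 * x ^ 2 + 2 * 7 * y ^ 2) :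
    AA p wi = ((2 * p - 12 * x ^ 2 : ℤ) : R p) := by
  obtain ⟨a, ha⟩ : ∃ a : ℕ, x ^ 2 = (a : ℤ) ^ 2 := ⟨x.natAbs, by simp⟩
  obtain ⟨c, hc⟩ : ∃ c : ℕ, y ^ 2 = (c : ℤ) ^ 2 := ⟨y.natAbs, by simp⟩
  rw [ha] at h ⊢
  rw [hc] at h
  clear ha hc x y
  replace h : p = 3 * a ^ 2 + 2 * 7 * c ^ 2 := by exact_mod_cast h
  have hx : a ≤ 2 := by
    by_contra h1
    have : 3 ≤ a := by omega
    nlinarith [Nat.zero_le (c ^ 2)]
  have hy : c ≤ 1 := by
    by_contra h1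
    have : 2 ≤ c := by omega
    nlinarith [Nat.zero_le (a ^ 2)]
  interval_cases a <;> interval_cases c <;> norm_num at h <;> subst h <;> first
    | (exfalso; omega)
    | (have h0 := hp.out; norm_num at h0; done)
    | exact AA_direct hwi _ (by decide +kernel)

theorem small6 (h3 : 3 < p) (hpb : p ≠ 7) (hpm : ¬ (p : ℤ) ∣ 896) (hP : p < 26) {wi : R p}
    (hwi : ((896 : ℤ) : R p) * wi = 1) {x y : ℤ} (h : (p : ℤ) = 6 * x ^ 2 + 7 * y ^ 2) :
    AA p wi = ((2 * p - 24 * x ^ 2 : ℤ) : R p) := by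
  obtain ⟨a, ha⟩ : ∃ a : ℕ, x ^ 2 = (a : ℤ) ^ 2 := ⟨x.natAbs, by simp⟩
  obtain ⟨c, hc⟩ : ∃ c : ℕ, y ^ 2 = (c : ℤ) ^ 2 := ⟨y.natAbs, by simp⟩
  rw [ha] at h ⊢
  rw [hc] at h
  clear ha hc x y
  replace h : p = 6 * a ^ 2 + 7 * c ^ 2 := by exact_mod_cast h
  have hx : a ≤ 2 := by
    by_contra h1
    have : 3 ≤ a := by omega
    nlinarith [Nat.zero_le (c ^ 2)]
  have hy : c ≤ 1 := by
    by_contra h1
    have : 2 ≤ c := by omega
    nlinarith [Nat.zero_le (a ^ 2)]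
  interval_cases a <;> interval_cases c <;> norm_num at h <;> subst h <;> first
    | (exfalso; omega)
    | (have h0 := hp.out; norm_num at h0; done)
    | exact AA_direct hwi _ (by decide +kernel)

theorem zero5 [Fact (Nat.Prime 5)] {wi : R 5} (hwi : ((896 : ℤ) : R 5) * wi = 1) :
    AA 5 wi = ((0 : ℤ) : R 5) := AA_direct hwi 0 (by decide +kernel)

section big

variable {v g k : WO p}

theorem bw2 (h3 : 3 < p) (hne : ∀ q ∈ ([2, 3, 5, 7] : List ℕ), p ≠ q) (hno : ∀ q ∈ ([11, 19, 47, 101, 167] : List ℕ), p ≠ q)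
    (hv : (1500 : WO p) * v = 1) (hg : g ^ 2 = 6) (hk : k ^ 2 = 14) :
    BW 7 (W v g (-k)) (W v (-g) (-k)) := by
  have := bw h3 hne hno hv (g := g) (k := (-k)) hg (by rw [neg_sq]; exact hk)
  simpa only [neg_neg] using this

theorem iso2 (h3 : 3 < p) (hne : ∀ q ∈ ([2, 3, 5, 7] : List ℕ), p ≠ q)
    (hv : (1500 : WO p) * v = 1) (hg : g ^ 2 = 6) (hk : k ^ 2 = 14) :
    ∃ M : WO p, 2 * M ^ 2 = ((7 : ℕ) : WO p) * MUw (W v g (-k)) ^ 2 ∧
      DW (SW p) (W v g (-k)) (W v (-g) (-k)) M 7 := by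
  have := iso h3 hne hv (g := g) (k := (-k)) hg (by rw [neg_sq]; exact hk)
  simpa only [neg_neg] using this

end big

theorem big1 (h3 : 3 < p) (hpb : p ≠ 7) (hpm : ¬ (p : ℤ) ∣ 896) (hP : 26 ≤ p) {wi : R p}
    (hwi : ((896 : ℤ) : R p) * wi = 1) {x y : ℤ} (h : (p : ℤ) = x ^ 2 + 6 * 7 * y ^ 2) :
    AA p wi = ((4 * x ^ 2 - 2 * p : ℤ) : R p) := by
  have hne := hneOf h3 hpb hpm (by omega)
  have hl : legendreSym p (-(6 * 7)) = 1 := by
    have := leg_disc' (p := p) (n := 1) (l1 := 1) (l2 := 42) (x := x) (y := y) (by rw [h]; ring)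
      (fun hd => n6b h3 hpb (hd.trans (by norm_num))) (fun hd => n6b h3 hpb (hd.trans (by norm_num))) nd_one
    norm_num at this ⊢
    exact this
  have hno := ord hl
  obtain ⟨v, g, k, ρ, μ, hv, hg, hk, hρ, hμ⟩ := data h3 hne
  have F : (SW p).red (W v g k) ^ p = (SW p).red (W v g k) :=
    frob_Wq (n := 1500) (by push_cast; exact hv)
      (frob_p (p := p) (by omega) (g := g) (d := 6) (by push_cast; exact hg) (c1_A h3 hpb h))
      (frob_p (p := p) (by omega) (g := k) (d := 14) (by push_cast; exact hk) (c1_B h3 hpb h)) _ _ _ _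
  exact e67_1 h3 (q4 hv hg hk) (u4 h3 hne hv hg hk) (bw h3 hne hno hv hg hk) (bw2 h3 hne hno hv hg hk) hρ hμ hwi
    F (by push_cast; exact n6b h3 hpb) (by nlinarith) (x := x) (y := y) (by push_cast; exact h)

theorem big2 (h3 : 3 < p) (hpb : p ≠ 7) (hpm : ¬ (p : ℤ) ∣ 896) (hP : 26 ≤ p) {wi : R p}
    (hwi : ((896 : ℤ) : R p) * wi = 1) {x y : ℤ} (h : (p : ℤ) = 2 * x ^ 2 + 3 * 7 * y ^ 2) :
    AA p wi = ((8 * x ^ 2 - 2 * p : ℤ) : R p) := by
  have hne := hneOf h3 hpb hpm (by omega)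
  have hl : legendreSym p (-(6 * 7)) = 1 := by
    have := leg_disc' (p := p) (n := 1) (l1 := 2) (l2 := 21) (x := x) (y := y) (by rw [h]; ring)
      (fun hd => n6b h3 hpb (hd.trans (by norm_num))) (fun hd => n6b h3 hpb (hd.trans (by norm_num))) nd_one
    norm_num at this ⊢
    exact this
  have hno := ord hl
  obtain ⟨v, g, k, ρ, μ, hv, hg, hk, hρ, hμ⟩ := data h3 hne
  have F : (SW p).red (W v g k) ^ p = (SW p).red (W v g (-k)) :=
    frob_Wq (n := 1500) (by push_cast; exact hv)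
      (frob_p (p := p) (by omega) (g := g) (d := 6) (by push_cast; exact hg) (c2_A h3 hpb h))
      (frob_m (p := p) (by omega) (g := k) (d := 14) (by push_cast; exact hk) (c2_B h3 hpb h)) _ _ _ _
  exact e67_2 h3 (q4 hv hg hk) (u4 h3 hne hv hg hk) (bw h3 hne hno hv hg hk) (bw2 h3 hne hno hv hg hk) hρ hμ hwi
    F (by push_cast; exact n6b h3 hpb) (by nlinarith) (x := x) (y := y) (by push_cast; exact h)

theorem big3 (h3 : 3 < p) (hpb : p ≠ 7) (hpm : ¬ (p : ℤ) ∣ 896) (hP : 26 ≤ p) {wi : R p}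
    (hwi : ((896 : ℤ) : R p) * wi = 1) {x y : ℤ} (h : (p : ℤ) = 3 * x ^ 2 + 2 * 7 * y ^ 2) :
    AA p wi = ((2 * p - 12 * x ^ 2 : ℤ) : R p) := by
  have hne := hneOf h3 hpb hpm (by omega)
  have hl : legendreSym p (-(6 * 7)) = 1 := by
    have := leg_disc' (p := p) (n := 1) (l1 := 3) (l2 := 14) (x := x) (y := y) (by rw [h]; ring)
      (fun hd => n6b h3 hpb (hd.trans (by norm_num))) (fun hd => n6b h3 hpb (hd.trans (by norm_num))) nd_one
    norm_num at this ⊢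
    exact this
  have hno := ord hl
  obtain ⟨v, g, k, ρ, μ, hv, hg, hk, hρ, hμ⟩ := data h3 hne
  have F : (SW p).red (W v g k) ^ p = (SW p).red (W v (-g) (-k)) :=
    frob_Wq (n := 1500) (by push_cast; exact hv)
      (frob_m (p := p) (by omega) (g := g) (d := 6) (by push_cast; exact hg) (c3_A h3 hpb h))
      (frob_m (p := p) (by omega) (g := k) (d := 14) (by push_cast; exact hk) (c3_B h3 hpb h)) _ _ _ _
  exact e67_3 h3 (q4 hv hg hk) (u4 h3 hne hv hg hk) (bw h3 hne hno hv hg hk) (bw2 h3 hne hno hv hg hk) hρ hμ hwi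
    F (by push_cast; exact n6b h3 hpb) (by nlinarith) (x := x) (y := y) (by push_cast; exact h)

theorem big6 (h3 : 3 < p) (hpb : p ≠ 7) (hpm : ¬ (p : ℤ) ∣ 896) (hP : 26 ≤ p) {wi : R p}
    (hwi : ((896 : ℤ) : R p) * wi = 1) {x y : ℤ} (h : (p : ℤ) = 6 * x ^ 2 + 7 * y ^ 2) :
    AA p wi = ((2 * p - 24 * x ^ 2 : ℤ) : R p) := by
  have hne := hneOf h3 hpb hpm (by omega)
  have hl : legendreSym p (-(6 * 7)) = 1 := by
    have := leg_disc' (p := p) (n := 1) (l1 := 6) (l2 := 7) (x := x) (y := y) (by rw [h]; ring)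
      (fun hd => n6b h3 hpb (hd.trans (by norm_num))) (fun hd => n6b h3 hpb (hd.trans (by norm_num))) nd_one
    norm_num at this ⊢
    exact this
  have hno := ord hl
  obtain ⟨v, g, k, ρ, μ, hv, hg, hk, hρ, hμ⟩ := data h3 hne
  have F : (SW p).red (W v g k) ^ p = (SW p).red (W v (-g) k) :=
    frob_Wq (n := 1500) (by push_cast; exact hv)
      (frob_m (p := p) (by omega) (g := g) (d := 6) (by push_cast; exact hg) (c6_A h3 hpb h))
      (frob_p (p := p) (by omega) (g := k) (d := 14) (by push_cast; exact hk) (c6_B h3 hpb h)) _ _ _ _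
  exact e67_6 h3 (q4 hv hg hk) (u4 h3 hne hv hg hk) (bw h3 hne hno hv hg hk) (bw2 h3 hne hno hv hg hk) hρ hμ hwi
    F (by push_cast; exact n6b h3 hpb) (by nlinarith) (x := x) (y := y) (by push_cast; exact h)

theorem bigz (h3 : 3 < p) (hpb : p ≠ 7) (hpm : ¬ (p : ℤ) ∣ 896) (hs5 : p ≠ 5) {wi : R p}
    (hwi : ((896 : ℤ) : R p) * wi = 1) (hl : legendreSym p (-(6 * 7)) = -1) :
    AA p wi = ((0 : ℤ) : R p) := by
  have hne := hneOf h3 hpb hpm hs5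
  obtain ⟨v, g, k, ρ, μ, hv, hg, hk, hρ, hμ⟩ := data h3 hne
  exact e67_0 (b := 7) h3 (q4 hv hg hk) (u4 h3 hne hv hg hk) (iso h3 hne hv hg hk) (iso2 h3 hne hv hg hk) hρ hμ hwi
    (by push_cast; exact hl)

/-- **The Franel sum at `896`.** -/
theorem main (h3 : 3 < p) (hpb : p ≠ 7) (hpm : ¬ (p : ℤ) ∣ 896) {wi : R p}
    (hwi : ((896 : ℤ) : R p) * wi = 1) :
    (∀ x y : ℤ, (p : ℤ) = x ^ 2 + 6 * 7 * y ^ 2 → AA p wi = ((4 * x ^ 2 - 2 * p : ℤ) : R p)) ∧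
    (∀ x y : ℤ, (p : ℤ) = 2 * x ^ 2 + 3 * 7 * y ^ 2 → AA p wi = ((8 * x ^ 2 - 2 * p : ℤ) : R p)) ∧
    (∀ x y : ℤ, (p : ℤ) = 3 * x ^ 2 + 2 * 7 * y ^ 2 → AA p wi = ((2 * p - 12 * x ^ 2 : ℤ) : R p)) ∧
    (∀ x y : ℤ, (p : ℤ) = 6 * x ^ 2 + 7 * y ^ 2 → AA p wi = ((2 * p - 24 * x ^ 2 : ℤ) : R p)) ∧
    (legendreSym p (-(6 * 7)) = -1 → AA p wi = ((0 : ℤ) : R p)) := by
  refine ⟨fun x y h => ?_, fun x y h => ?_, fun x y h => ?_, fun x y h => ?_, fun hl => ?_⟩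
  · rcases Nat.lt_or_ge p 26 with hP | hP
    · exact small1 h3 hpb hpm hP hwi h
    · exact big1 h3 hpb hpm hP hwi h
  · rcases Nat.lt_or_ge p 26 with hP | hP
    · exact small2 h3 hpb hpm hP hwi h
    · exact big2 h3 hpb hpm hP hwi h
  · rcases Nat.lt_or_ge p 26 with hP | hP
    · exact small3 h3 hpb hpm hP hwi h
    · exact big3 h3 hpb hpm hP hwi h
  · rcases Nat.lt_or_ge p 26 with hP | hP
    · exact small6 h3 hpb hpm hP hwi h
    · exact big6 h3 hpb hpm hP hwi h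
  · by_cases hs5 : p = 5
    · subst hs5; exact zero5 hwi
    · exact bigz h3 hpb hpm hs5 hwi hl

end fin

end Pool.Agent.H578.CM.E7
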