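import Pool.Agent.H578.CM.D.E13
import Pool.Agent.H578.CM.Q4h

set_option autoImplicit false
set_option linter.unusedSectionVars false
set_option linter.unusedVariables false
set_option maxHeartbeats 4000000
set_option maxRecDepth 100000

namespace Pool.Agent.H578.CM.E13

open Finset Pool.Agent.H546 Pool.Agent.H547 Pool.Agent.H578.CM
open Pool.Agent.Q267.CDE (R)

section ring

variable {B : Type*} [CommRing B] {v g k : B}

def W (v g k : B) : B := Wq (-19160700) 13530402 (-5306040) 3758445 v g k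

theorem q4 (hv : (58956 : B) * v = 1) (hg : g ^ 2 = 2) (hk : k ^ 2 = 13) :
    Q4 (10400) (W v g k) (W v g (-k)) (W v (-g) k) (W v (-g) (-k)) := by
  refine ⟨?_, ?_, ?_, ?_, ?_, ?_⟩ <;> simp only [W, Wq] <;> push_cast
  · linear_combination (-113007270544200 * v ^ 2 * k ^ 2 + 1464574226252832 * v ^ 2) * hg + (319079352124800 * v ^ 2 * g - 451247024941200 * v ^ 2) * hk + (-58956 * v - 1) * hv
  · linear_combination (-113007270544200 * v ^ 2 * k ^ 2 + 1464574226252832 * v ^ 2) * hg + (-319079352124800 * v ^ 2 * g - 451247024941200 * v ^ 2) * hk + (-58956 * v - 1) * hv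
  · linear_combination (-113007270544200 * v ^ 2 * k ^ 2 - 813652347918240 * v ^ 2 * k - 1464574226252832 * v ^ 2) * hg + (-782057235600 * v ^ 2) * hk + (-10612080 * v * k - 38262444 * v + 1) * hv
  · linear_combination (-113007270544200 * v ^ 2 * k ^ 2 + 813652347918240 * v ^ 2 * k - 1464574226252832 * v ^ 2) * hg + (-782057235600 * v ^ 2) * hk + (10612080 * v * k - 38262444 * v + 1) * hv
  · linear_combination (12770643195850012964153640000 * v ^ 4 * g ^ 2 * k ^ 4 + 183897262020240186683812416000 * v ^ 4 * g ^ 2 * k ^ 3 + 993045214909297008092587046400 * v ^ 4 * g ^ 2 * k ^ 2 + 2383308515782312819422208911360 * v ^ 4 * g ^ 2 * k + 2144977664204081537479988020224 * v ^ 4 * g ^ 2 - 25364530084491029209080240000 * v ^ 4 * k ^ 4 - 366380473582808399613808512000 * v ^ 4 * k ^ 3 - 1984569539993009048858847206400 * v ^ 4 * k ^ 2 - 4777657937538128409914215649280 * v ^ 4 * k - 4313127656068125243258514839552 * v ^ 4 - 146683437166371600 * v ^ 2 * k ^ 2 - 1056120747597875520 *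 v ^ 2 * k - 1901017345676175936 * v ^ 2) * hg + (611613519754313907360000 * v ^ 4 * k ^ 2 + 978581631606902251776000 * v ^ 4 * k - 4031212665758433442732800 * v ^ 4 - 1015110291808800 * v ^ 2) * hk + (47877473891103690240 * v ^ 3 * k + 172624687054184385216 * v ^ 3 + 812088233447040 * v ^ 2 * k + 2928025765896336 * v ^ 2 - 58956 * v - 1) * hv
  · linear_combination (12770643195850012964153640000 * v ^ 4 * g ^ 2 * k ^ 4 - 183897262020240186683812416000 * v ^ 4 * g ^ 2 * k ^ 3 + 993045214909297008092587046400 * v ^ 4 * g ^ 2 * k ^ 2 - 2383308515782312819422208911360 * v ^ 4 * g ^ 2 * k + 2144977664204081537479988020224 * v ^ 4 * g ^ 2 - 25364530084491029209080240000 * v ^ 4 * k ^ 4 + 366380473582808399613808512000 * v ^ 4 * k ^ 3 - 1984569539993009048858847206400 * v ^ 4 * k ^ 2 + 4777657937538128409914215649280 * v ^ 4 * k - 4313127656068125243258514839552 * v ^ 4 - 146683437166371600 * v ^ 2 * k ^ 2 + 1056120747597875520 * v ^ 2 * k - 1901017345676175936 * v ^ 2) * hg +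 (611613519754313907360000 * v ^ 4 * k ^ 2 - 978581631606902251776000 * v ^ 4 * k - 4031212665758433442732800 * v ^ 4 - 1015110291808800 * v ^ 2) * hk + (-47877473891103690240 * v ^ 3 * k + 172624687054184385216 * v ^ 3 - 812088233447040 * v ^ 2 * k + 2928025765896336 * v ^ 2 - 58956 * v - 1) * hv

theorem jj (hv : (58956 : B) * v = 1) (hg : g ^ 2 = 2) (hk : k ^ 2 = 13) : (1 - 2 * W v g k) * (Wq 39304 6936 0 5780 v g k) = 1 := by
  simp only [W, Wq]
  push_cast
  linear_combination (-43447624200 * v ^ 2 * k ^ 2 - 208548596160 * v ^ 2 * k - 187693736544 * v ^ 2) * hg + (61337822400 * v ^ 2 * g - 86895248400 * v ^ 2) * hk + (-5780 * v * g * k - 6936 * v * g + 19652 * v + 1) * hv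

theorem a4 (hv : (58956 : B) * v = 1) (hg : g ^ 2 = 2) (hk : k ^ 2 = 13) : 4 * (27 * W v g k ^ 2 * (Wq 39304 6936 0 5780 v g k) ^ 3) = Wq 117912 83160 0 (-60) v g k := by
  simp only [W, Wq]
  push_cast
  linear_combination (294593845348327865378400000 * v ^ 5 * g ^ 3 * k ^ 5 + 3181613529761940946086720000 * v ^ 5 * g ^ 3 * k ^ 4 + 12726454119047763784346880000 * v ^ 5 * g ^ 3 * k ^ 3 + 23416675579047885363198259200 * v ^ 5 * g ^ 3 * k ^ 2 + 20158703324571657834405457920 * v ^ 5 * g ^ 3 * k + 6597393815314360745805422592 * v ^ 5 * g ^ 3 - 831794386865866914009600000 * v ^ 5 * g ^ 2 * k ^ 5 - 2982907092899539405517760000 * v ^ 5 * g ^ 2 * k ^ 4 + 21693197609461809117370368000 * v ^ 5 * g ^ 2 * k ^ 3 + 124110376875482270505544396800 * v ^ 5 * g ^ 2 * k ^ 2 + 192156481205186125619779338240 * v ^ 5 * g ^ 2 * k + 93470265753789298322380529664 * v ^ 5 * g ^ 2 + 1176336669660797081822400000 * v ^ 5 * g * k ^ 5 - 4251121704638984532090240000 * v ^ 5 * g * k ^ 4 - 71309334104605301059347840000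 * v ^ 5 * g * k ^ 3 - 101691397889245342218106828800 * v ^ 5 * g * k ^ 2 + 257805451970105712978063790080 * v ^ 5 * g * k + 344321854020471941057579950080 * v ^ 5 * g - 1663588773731733828019200000 * v ^ 5 * k ^ 5 + 6012024985069404750702720000 * v ^ 5 * k ^ 4 + 43253308117025079528499200000 * v ^ 5 * k ^ 3 - 248621863488630970167400089600 * v ^ 5 * k ^ 2 - 947824158537742909401179136000 * v ^ 5 * k - 187690610413878760793138356224 * v ^ 5) * hg + (2352673339321594163644800000 * v ^ 5 * g * k ^ 3 - 8502243409277969064180480000 * v ^ 5 * g * k ^ 2 - 30584608436124189771493248000 * v ^ 5 * g * k + 110529425275715359674946713600 * v ^ 5 * g - 3327177547463467656038400000 * v ^ 5 * k ^ 3 + 12024049970138809501405440000 * v ^ 5 * k ^ 2 + 43253308117025079528499200000 * v ^ 5 * k - 156312649611804523518270720000 * v ^ 5) * hk + (-12295191035208960 * v ^ 4 * g * k + 17041134774799618560 * v ^ 4 * g + 24162509422392648192 * v ^ 4 - 208548596160 * v ^ 3 * g * k + 289048354277760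 * v ^ 3 * g + 409839701173632 * v ^ 3 - 3537360 * v ^ 2 * g * k + 4902780960 * v ^ 2 * g + 6951619872 * v ^ 2 - 60 * v * g * k + 83160 * v * g + 117912 * v) * hv

theorem mu (hv : (58956 : B) * v = 1) (hg : g ^ 2 = 2) (hk : k ^ 2 = 13) : (1 + 4 * W v g k) * (Wq 39304 6936 0 5780 v g k) = Wq 0 20808 0 17340 v g k := by
  simp only [W, Wq]
  push_cast
  linear_combination (86895248400 * v ^ 2 * k ^ 2 + 417097192320 * v ^ 2 * k + 375387473088 * v ^ 2) * hg + (-122675644800 * v ^ 2 * g + 173790496800 * v ^ 2) * hk + (11560 * v * g * k + 13872 * v * g - 39304 * v) * hv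

theorem mm (hv : (58956 : B) * v = 1) (hg : g ^ 2 = 2) (hk : k ^ 2 = 13) : 2 * (Wq 225420 0 20808 0 v g k) ^ 2 = 13 * (Wq 0 20808 0 17340 v g k) ^ 2 := by
  simp only [Wq]
  push_cast
  linear_combination (-3908782800 * v ^ 2 * k ^ 2 - 9381078720 * v ^ 2 * k - 5628647232 * v ^ 2) * hg + (-6951619872 * v ^ 2) * hk

theorem ne_a (hv : (58956 : B) * v = 1) (hg : g ^ 2 = 2) (hk : k ^ 2 = 13) : ca (Wq 117912 83160 0 (-60) v g k) * (Wq (-15667105004) (-8839862640) 39618432 28731224 v g k) = 1448095 := by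
  simp only [Wq, ca]
  push_cast
  linear_combination (-10343240640 * v ^ 2 * k ^ 2 + 17518082077440 * v ^ 2 * k - 4410737862854400 * v ^ 2) * hg + (-14262635520 * v ^ 2 * g - 20686481280 * v ^ 2) * hk + (775743048 * v * g * k - 238676291280 * v * g + 1069697664 * v * k - 337637946288 * v + 1448095) * hv

theorem ne_b (hv : (58956 : B) * v = 1) (hg : g ^ 2 = 2) (hk : k ^ 2 = 13) : cb (Wq 117912 83160 0 (-60) v g k) * (Wq (-12518861869599876) (-9515459763627570) (-95831605799100) (-68081759371005) v g k) = 857688841163 := by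
  simp only [Wq, cb]
  push_cast
  linear_combination (-245094333735618000 * v ^ 3 * g * k ^ 3 + 645145837966073844000 * v ^ 3 * g * k ^ 2 - 375868558655594988984000 * v ^ 3 * g * k - 65804976518722226854992000 * v ^ 3 * g - 344993780876760000 * v ^ 3 * k ^ 3 + 1874573627174292153600 * v ^ 3 * k ^ 2 - 1738324833992018446579200 * v ^ 3 * k - 273184120692831383135654400 * v ^ 3 - 73528300120685400 * v ^ 2 * k ^ 2 + 91633527422552188800 * v ^ 2 * k + 14243501410978836981600 * v ^ 2) * hg + (-490188667471236000 * v ^ 3 * g * k + 2646255232290165192000 * v ^ 3 * g - 689987561753520000 * v ^ 3 * k + 3749147254348584307200 * v ^ 3 - 103498134263028000 * v ^ 2 * g - 147056600241370800 * v ^ 2) * hk + (-57679135570803467880 * v ^ 2 * g * k - 8640006454781556718320 * v ^ 2 * g - 81569788118253064800 * v ^ 2 * k - 12218811323129509737024 * v ^ 2 + 3676415006034270 * v * g * k + 513834827235888780 * v * g + 5174906713151400 * v * k + 726584444277999132 * v + 857688841163) * hv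

theorem ne_m (hv : (58956 : B) * v = 1) (hg : g ^ 2 = 2) (hk : k ^ 2 = 13) : (Wq 225420 0 20808 0 v g k) * (Wq 225420 0 (-20808) 0 v g k) = 13 := by
  simp only [Wq]
  push_cast
  linear_combination (-432972864 * v ^ 2) * hk + (766428 * v + 13) * hv

theorem dal (hv : (58956 : B) * v = 1) (hg : g ^ 2 = 2) (hk : k ^ 2 = 13) : T8.ev g k 0 dd.al = 289 ^ 2 * ca (Wq 117912 83160 0 (-60) v g k) := by
  rw [show dd.al = ⟨-1252815, 706860, 0, -510, 0, 0, 0, 0⟩ from rfl]
  simp only [T8.ev, Wq, ca]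
  push_cast
  linear_combination (510 * g * k - 706860 * g - 1002252) * hv

theorem dbe (hv : (58956 : B) * v = 1) (hg : g ^ 2 = 2) (hk : k ^ 2 = 13) : T8.ev g k 0 dd.be = 289 ^ 3 * cb (Wq 117912 83160 0 (-60) v g k) := by
  rw [show dd.be = ⟨627076968, -476659260, -138600, 343910, 0, 0, 0, 0⟩ from rfl]
  simp only [T8.ev, Wq, cb]
  push_cast
  linear_combination (-86895248400 * v ^ 2 * k ^ 2 + 240873628564800 * v ^ 2 * k - 166925424595406400 * v ^ 2) * hg + (-173790496800 * v ^ 2) * hk + (5793016560 * v * g * k - 8029120952160 * v * g + 8171301600 * v * k - 11354968402056 * v - 343910 * g * k + 476659260 * g + 138600 * k + 676351758) * hv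

theorem dal' (hv : (58956 : B) * v = 1) (hg : g ^ 2 = 2) (hk : k ^ 2 = 13) : T8.ev g k 0 dd.al' = 289 ^ 2 * (ca (Wq 117912 83160 0 (-60) v (-g) (-k)) * (Wq 225420 0 20808 0 v g k) ^ 4) := by
  rw [show dd.al' = ⟨-449001735, -253915740, -109816200, -62142990, 0, 0, 0, 0⟩ from rfl]
  simp only [T8.ev, Wq, ca]
  push_cast
  linear_combination (5636630198055756970229760 * v ^ 5 * g * k ^ 3 + 8056623429754361962781736960 * v ^ 5 * g * k ^ 2 + 342578412985601084005815828480 * v ^ 5 * g * k + 5634612180062812304498177556480 * v ^ 5 * g - 11077105665219173597895524352 * v ^ 5 * k ^ 2 - 480007912159497522575472721920 * v ^ 5 * k - 7944130946239683998624073547776 * v ^ 5 + 422747264854181772767232 * v ^ 4 * k ^ 2 + 18319048143681210153246720 * v ^ 4 * k + 303180246777924028036233216 * v ^ 4) * hk + (750765290705326056334487040 * v ^ 4 * g * k + 3067620730121900918115671040 * v ^ 4 * g - 1061373986892542212952924160 * v ^ 4 * k - 4339603461043258755781045248 * v ^ 4 + 12734332225818000819840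 * v ^ 3 * g * k + 52032375502440818883840 * v ^ 3 * g + 22503519296011903219200 * v ^ 3 * k + 92009368449421152125760 * v ^ 3 + 215997222094748640 * v ^ 2 * g * k + 882562851998792640 * v ^ 2 * g + 381700239093763200 * v ^ 2 * k + 1560644691794238960 * v ^ 2 + 3663702118440 * v * g * k + 14969856367440 * v * g + 6474323887200 * v * k + 26471346288660 * v + 62142990 * g * k + 253915740 * g + 109816200 * k + 449001735) * hv

theorem dbe' (hv : (58956 : B) * v = 1) (hg : g ^ 2 = 2) (hk : k ^ 2 = 13) : T8.ev g k 0 dd.be' = 289 ^ 3 * (cb (Wq 117912 83160 0 (-60) v (-g) (-k)) * (Wq 225420 0 20808 0 v g k) ^ 6) := by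
  rw [show dd.be' = ⟨5582410537704, 4250765134980, 1500391849320, 1142613101630, 0, 0, 0, 0⟩ from rfl]
  simp only [T8.ev, Wq, cb]
  push_cast
  linear_combination (-7053067889265545265285308163922329600 * v ^ 8 * k ^ 8 - 20009553601846351917614419261047649075200 * v ^ 8 * k ^ 7 - 14832153313558815891975218677884569754009600 * v ^ 8 * k ^ 6 - 915276924969869835651041004158025948463104000 * v ^ 8 * k ^ 5 - 24350343517948725288590862890683191973478400000 * v ^ 8 * k ^ 4 - 348570737316266758556166696697625151295488000000 * v ^ 8 * k ^ 3 - 2816781485759358106764095482210789441029120000000 * v ^ 8 * k ^ 2 - 12161757908764970751769071338272611291402240000000 * v ^ 8 * k - 21901666533415348319411418799523838628761600000000 * v ^ 8) * hg + (27721378031969299110677375207480324259840 * v ^ 8 * g * k ^ 5 + 40223719524387453009592871426053950501027840 * v ^ 8 * g * k ^ 4 + 2546580500724975711412118500924434810950123520 * v ^ 8 * g * k ^ 3 + 68866244039957125746156212736465621701539921920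 * v ^ 8 * g * k ^ 2 + 1015832448464931402680218550666523786895042805760 * v ^ 8 * g * k + 8858201010041998717298255391774445521076050984960 * v ^ 8 * g - 14106135778531090530570616327844659200 * v ^ 8 * k ^ 6 - 40019107203692703835228838522095298150400 * v ^ 8 * k ^ 5 - 56903516061095785994278923652651568106307584 * v ^ 8 * k ^ 4 - 3601610791857234841351793260343399965953884160 * v ^ 8 * k ^ 3 - 97392468194295889844478378044361876815614574592 * v ^ 8 * k ^ 2 - 1436602926976515928540821529470429271351248814080 * v ^ 8 * k - 12527369218449499444245092821485340780434567069696 * v ^ 8 - 2115920366779663579585592449176698880 * v ^ 7 * g * k ^ 5 - 3070200452197291853978694643755390074880 * v ^ 7 * g * k ^ 4 - 194375674286966393604629439822239579504640 * v ^ 7 * g * k ^ 3 - 5256430188272729931774593888901813176893440 * v ^ 7 * g * k ^ 2 - 77536569952035268879520039995918261771960320 * v ^ 7 * g * k - 676129733109250868916516542217670887523614720 * v ^ 7 * g + 4158206704795394866601606281122048638976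 * v ^ 7 * k ^ 4 + 270283435811700666329104408272933161533440 * v ^ 7 * k ^ 3 + 7374233073729233179679065272379859757170688 * v ^ 7 * k ^ 2 + 109249565804851674888247442951357631792414720 * v ^ 7 * k + 954969064215289006921826669396890369969618944 * v ^ 7 - 105796018338983178979279622458834944 * v ^ 6 * k ^ 4 - 6876741192033906633653175459824271360 * v ^ 6 * k ^ 3 - 187620422189325085988170803795538870272 * v ^ 6 * k ^ 2 - 2779604259231927409124960384473784647680 * v ^ 6 * k - 24296994306312054928806906915247566913536 * v ^ 6) * hk + (808215595568940914907802302161064316734996480 * v ^ 7 * g * k + 3006734887155216715081164133002268019885998080 * v ^ 7 * g - 1142989210540844710966988635204300138115235840 * v ^ 7 * k - 4252166142965215731620185654534601320201617408 * v ^ 7 - 47980775230532824516203746142270932705280 * v ^ 6 * g * k - 178498746608373337790624778911526190202880 * v ^ 6 * g + 67847874573722764266903391459265812561920 * v ^ 6 * k + 252461586491530728985808876419887640633344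 * v ^ 6 - 813840410315028572430350535013754880 * v ^ 5 * g * k - 3027660401119026694325001338481684480 * v ^ 5 * g - 1068672778687708634109348240911032320 * v ^ 5 * k - 3976141421860866222713379268303970304 * v ^ 5 - 13804199917142081763185265876480 * v ^ 4 * g * k - 51354576313166203513213266478080 * v ^ 4 * g - 18126616098237815219983517214720 * v ^ 4 * k - 67442523608468454825859611715584 * v ^ 4 - 234144106064558005346110080 * v ^ 3 * g * k - 871066156339748346448423680 * v ^ 3 * g - 307460073584330945450565120 * v ^ 3 * k - 1143946733300570846493310464 * v ^ 3 - 3971505971649331795680 * v ^ 2 * g * k - 14774851691765865161280 * v ^ 2 * g - 5215076897759870843520 * v ^ 2 * k - 19403398013782665826944 * v ^ 2 - 67363898019698280 * v * g * k - 250608109297880880 * v * g - 88457101868509920 * v * k - 329116595660877024 * v - 1142613101630 * g * k - 4250765134980 * g - 1500391849320 * k - 5582410537704) * hv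

end ring

section wo

variable {p : ℕ} [hp : Fact p.Prime] {v g k : WO p}

theorem Zeq (hv : (58956 : WO p) * v = 1) (hg : g ^ 2 = 2) (hk : k ^ 2 = 13) : 4 * Zw (W v g k) = Wq 117912 83160 0 (-60) v g k := by
  rw [Zw, Jw_eq (jj hv hg hk)]; exact a4 hv hg hk

theorem Meq (hv : (58956 : WO p) * v = 1) (hg : g ^ 2 = 2) (hk : k ^ 2 = 13) : MUw (W v g k) = Wq 0 20808 0 17340 v g k := by
  rw [MUw, Jw_eq (jj hv hg hk)]; exact mu hv hg hk

theorem iso (h3 : 3 < p) (hne : ∀ q ∈ ([2, 3, 5, 13, 17] : List ℕ), p ≠ q) (hv : (58956 : WO p) * v = 1) (hg : g ^ 2 = 2) (hk : k ^ 2 = 13) :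
    ∃ M : WO p, 2 * M ^ 2 = ((13 : ℕ) : WO p) * MUw (W v g k) ^ 2 ∧
      DW (SW p) (W v g k) (W v (-g) (-k)) M 13 := by
  refine ⟨Wq 225420 0 20808 0 v g k, ?_, ?_⟩
  · rw [Meq hv hg hk]; push_cast; exact mm hv hg hk
  · unfold DW
    rw [Zeq hv hg hk, Zeq hv (by rw [neg_sq]; exact hg) (by rw [neg_sq]; exact hk)]
    have := charZ (p := p)
    refine LD.dat (SW p) dd dd_O dd_N dd_F dd_D dd_L (g := g) (q := k) (i := 0)
      (by rw [hg, show dd.A = 2 from rfl]; push_cast; rfl) (by rw [hk, show dd.B = 13 from rfl]; push_cast; rfl)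
      (by rw [show dd.C = 0 from rfl]; push_cast; ring) (D := (289 : WO p))
      (dal hv hg hk) (dbe hv hg hk) (dal' hv hg hk) (dbe' hv hg hk) (k2_of h3) ?_ ?_ ?_ ?_ ?_
    · have := red_int_ne (p := p) (n := 289) (by
    have e : (289 : ℤ) = (((17 : ℕ) : ℤ) ^ 2) := by norm_num
    rw [e]
    exact nd_pow (p := p) (q := 17) (by norm_num) (hne 17 (by simp)) 2)
      exact_mod_cast this
    · exact red_ne_mul (n := 13) (by push_cast; exact ne_m hv hg hk) (by
    have e : (13 : ℤ) = (((13 : ℕ) : ℤ) ^ 1) := by norm_num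
    rw [e]
    exact nd_pow (p := p) (q := 13) (by norm_num) (hne 13 (by simp)) 1)
    · rw [show dd.c2 = 169 from rfl]
      exact red_int_ne (by
    have e : (169 : ℤ) = (((13 : ℕ) : ℤ) ^ 2) := by norm_num
    rw [e]
    exact nd_pow (p := p) (q := 13) (by norm_num) (hne 13 (by simp)) 2)
    · rw [show dd.r1 = 409921880360617700083944 from rfl]
      exact red_int_ne (by
    have e : (409921880360617700083944 : ℤ) = (((2 : ℕ) : ℤ) ^ 3) * ((((3 : ℕ) : ℤ) ^ 4) * ((((13 : ℕ) : ℤ) ^ 1) * ((((17 : ℕ) : ℤ) ^ 16)))) := by norm_num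
    rw [e]
    exact nd_mul' (nd_pow (p := p) (q := 2) (by norm_num) (hne 2 (by simp)) 3) (nd_mul' (nd_pow (p := p) (q := 3) (by norm_num) (hne 3 (by simp)) 4) (nd_mul' (nd_pow (p := p) (q := 13) (by norm_num) (hne 13 (by simp)) 1) (nd_pow (p := p) (q := 17) (by norm_num) (hne 17 (by simp)) 16))))
    · rw [show dd.r2 = 13147040781926073956625057340416 from rfl]
      exact red_int_ne (by
    have e : (13147040781926073956625057340416 : ℤ) = (((2 : ℕ) : ℤ) ^ 10) * ((((3 : ℕ) : ℤ) ^ 5) * ((((13 : ℕ) : ℤ) ^ 1) * ((((17 : ℕ) : ℤ) ^ 20)))) := by norm_num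
    rw [e]
    exact nd_mul' (nd_pow (p := p) (q := 2) (by norm_num) (hne 2 (by simp)) 10) (nd_mul' (nd_pow (p := p) (q := 3) (by norm_num) (hne 3 (by simp)) 5) (nd_mul' (nd_pow (p := p) (q := 13) (by norm_num) (hne 13 (by simp)) 1) (nd_pow (p := p) (q := 17) (by norm_num) (hne 17 (by simp)) 20))))

theorem bw (h3 : 3 < p) (hne : ∀ q ∈ ([2, 3, 5, 13, 17] : List ℕ), p ≠ q) (hno : ∀ q ∈ ([7, 11, 23, 31, 113, 191, 233, 263, 311] : List ℕ), p ≠ q) (hv : (58956 : WO p) * v = 1) (hg : g ^ 2 = 2) (hk : k ^ 2 = 13) :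
    BW 13 (W v g k) (W v (-g) (-k)) := by
  refine ⟨?_, ?_, iso h3 hne hv hg hk⟩
  · rw [Zeq hv hg hk]
    exact red_ne_mul (n := 1448095) (by push_cast; exact ne_a hv hg hk) (by
    have e : (1448095 : ℤ) = (((5 : ℕ) : ℤ) ^ 1) * ((((11 : ℕ) : ℤ) ^ 1) * ((((113 : ℕ) : ℤ) ^ 1) * ((((233 : ℕ) : ℤ) ^ 1)))) := by norm_num
    rw [e]
    exact nd_mul' (nd_pow (p := p) (q := 5) (by norm_num) (hne 5 (by simp)) 1) (nd_mul' (nd_pow (p := p) (q := 11) (by norm_num) (hno 11 (by simp)) 1) (nd_mul' (nd_pow (p := p) (q := 113) (by norm_num) (hno 113 (by simp)) 1) (nd_pow (p := p) (q := 233) (by norm_num) (hno 233 (by simp)) 1))))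
  · rw [Zeq hv hg hk]
    exact red_ne_mul (n := 857688841163) (by push_cast; exact ne_b hv hg hk) (by
    have e : (857688841163 : ℤ) = (((7 : ℕ) : ℤ) ^ 1) * ((((11 : ℕ) : ℤ) ^ 1) * ((((23 : ℕ) : ℤ) ^ 1) * ((((31 : ℕ) : ℤ) ^ 1) * ((((191 : ℕ) : ℤ) ^ 1) * ((((263 : ℕ) : ℤ) ^ 1) * ((((311 : ℕ) : ℤ) ^ 1))))))) := by norm_num
    rw [e]
    exact nd_mul' (nd_pow (p := p) (q := 7) (by norm_num) (hno 7 (by simp)) 1) (nd_mul' (nd_pow (p := p) (q := 11) (by norm_num) (hno 11 (by simp)) 1) (nd_mul' (nd_pow (p := p) (q := 23) (by norm_num) (hno 23 (by simp)) 1) (nd_mul' (nd_pow (p := p) (q := 31) (by norm_num) (hno 31 (by simp)) 1) (nd_mul' (nd_pow (p := p) (q := 191) (by norm_num) (hno 191 (by simp)) 1) (nd_mul' (nd_pow (p := p) (q := 263) (by norm_num) (hno 263 (by simp)) 1) (nd_pow (p := p) (q := 311) (by norm_num) (hno 311 (by simp)) 1)))))))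

theorem data (h3 : 3 < p) (hne : ∀ q ∈ ([2, 3, 5, 13, 17] : List ℕ), p ≠ q) : ∃ v g k ρ μ : WO p, (58956 : WO p) * v = 1 ∧ g ^ 2 = 2 ∧ k ^ 2 = 13 ∧
    ρ ^ 2 = -3 ∧ ((10400 : ℤ) : WO p) * μ = 1 := by
  obtain ⟨v, hv⟩ := (unit_int (p := p) (n := 58956) (by
    have e : (58956 : ℤ) = (((2 : ℕ) : ℤ) ^ 2) * ((((3 : ℕ) : ℤ) ^ 1) * ((((17 : ℕ) : ℤ) ^ 3))) := by norm_num
    rw [e]
    exact nd_mul' (nd_pow (p := p) (q := 2) (by norm_num) (hne 2 (by simp)) 2) (nd_mul' (nd_pow (p := p) (q := 3) (by norm_num) (hne 3 (by simp)) 1) (nd_pow (p := p) (q := 17) (by norm_num) (hne 17 (by simp)) 3)))).exists_right_inv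
  obtain ⟨μ, hμ⟩ := (unit_int (p := p) (n := 10400) (by
    have e : (10400 : ℤ) = (((2 : ℕ) : ℤ) ^ 5) * ((((5 : ℕ) : ℤ) ^ 2) * ((((13 : ℕ) : ℤ) ^ 1))) := by norm_num
    rw [e]
    exact nd_mul' (nd_pow (p := p) (q := 2) (by norm_num) (hne 2 (by simp)) 5) (nd_mul' (nd_pow (p := p) (q := 5) (by norm_num) (hne 5 (by simp)) 2) (nd_pow (p := p) (q := 13) (by norm_num) (hne 13 (by simp)) 1)))).exists_right_inv
  obtain ⟨g, hg⟩ := wo_isqrt p (by omega) (d := 2) (by
    have e : (2 : ℤ) = (((2 : ℕ) : ℤ) ^ 1) := by norm_num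
    rw [e]
    exact nd_pow (p := p) (q := 2) (by norm_num) (hne 2 (by simp)) 1)
  obtain ⟨k, hk⟩ := wo_isqrt p (by omega) (d := 13) (by
    have e : (13 : ℤ) = (((13 : ℕ) : ℤ) ^ 1) := by norm_num
    rw [e]
    exact nd_pow (p := p) (q := 13) (by norm_num) (hne 13 (by simp)) 1)
  obtain ⟨ρ, hρ⟩ := wo_isqrt p (by omega) (d := -3) (by
    rw [dvd_neg]
    have e : (3 : ℤ) = (((3 : ℕ) : ℤ) ^ 1) := by norm_num
    rw [e]
    exact nd_pow (p := p) (q := 3) (by norm_num) (hne 3 (by simp)) 1)
  refine ⟨v, g, k, ρ, μ, ?_, ?_, ?_, ?_, hμ⟩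
  · exact_mod_cast hv
  · exact_mod_cast hg
  · exact_mod_cast hk
  · rw [hρ]; push_cast; rfl

theorem u4 (h3 : 3 < p) (hne : ∀ q ∈ ([2, 3, 5, 13, 17] : List ℕ), p ≠ q) (hv : (58956 : WO p) * v = 1) (hg : g ^ 2 = 2) (hk : k ^ 2 = 13) :
    U4 (W v g k) (W v g (-k)) (W v (-g) k) (W v (-g) (-k)) := by
  refine u_4 (q4 hv hg hk) (u3_of h3) ?_
  have := unit_int (p := p) (n := 10404) (by
    have e : (10404 : ℤ) = (((2 : ℕ) : ℤ) ^ 2) * ((((3 : ℕ) : ℤ) ^ 2) * ((((17 : ℕ) : ℤ) ^ 2))) := by norm_num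
    rw [e]
    exact nd_mul' (nd_pow (p := p) (q := 2) (by norm_num) (hne 2 (by simp)) 2) (nd_mul' (nd_pow (p := p) (q := 3) (by norm_num) (hne 3 (by simp)) 2) (nd_pow (p := p) (q := 17) (by norm_num) (hne 17 (by simp)) 2)))
  push_cast at this ⊢
  have e : (10400 : WO p) + 4 = 10404 := by norm_num
  rw [e]; exact this

theorem ord (h : legendreSym p (-(6 * 13)) = 1) : ∀ q ∈ ([7, 11, 23, 31, 113, 191, 233, 263, 311] : List ℕ), p ≠ q := by
  intro q hq
  simp only [List.mem_cons, List.not_mem_nil, or_false] at hq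
  rcases hq with rfl | rfl | rfl | rfl | rfl | rfl | rfl | rfl | rfl <;> (rintro rfl; revert h; norm_num)

end wo

end Pool.Agent.H578.CM.E13
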