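import Pool.Agent.H578.CM.Lp3

set_option autoImplicit false
set_option maxHeartbeats 4000000
set_option maxRecDepth 100000

namespace Pool.Agent.H578.CM.E5

open Pool.Agent.H578.CM

def dd : LD where
  A := 2
  B := 5
  C := 0
  al := ⟨-1215, 630, -36, 0, 0, 0, 0, 0⟩
  be := ⟨18508, -13230, 756, -140, 0, 0, 0, 0⟩
  al' := ⟨-60375, -33750, -18900, -16500, 0, 0, 0, 0⟩
  be' := ⟨8606500, 6536250, 4000500, 2621500, 0, 0, 0, 0⟩
  N := [
    ⟨5790837000, 4797135000, 3002004000, 1825509000, 0, 0, 0, 0⟩,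
    ⟨738849125, 430322250, 270832200, 226525250, 0, 0, 0, 0⟩,
    ⟨21369250, 19863750, 11492250, 6703750, 0, 0, 0, 0⟩,
    ⟨462750, 198750, 127500, 111750, 0, 0, 0, 0⟩,
    ⟨250, 2250, 450, 250, 0, 0, 0, 0⟩,
    ⟨25, 0, 0, 0, 0, 0, 0, 0⟩]
  H := [
    ⟨4870, 435, 843, 775, 0, 0, 0, 0⟩,
    ⟨25, 225, 45, 25, 0, 0, 0, 0⟩,
    ⟨5, 0, 0, 0, 0, 0, 0, 0⟩]
  Q := [
    ⟨-950000, 1608000, 262200, 166000, 0, 0, 0, 0⟩,
    ⟨144550, -26625, 16275, 12475, 0, 0, 0, 0⟩,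
    ⟨25, 225, 45, 25, 0, 0, 0, 0⟩,
    ⟨-75, 0, 0, 0, 0, 0, 0, 0⟩]
  U1 := [
    ⟨2590271445375, -1831598530875, 1158404498775, -819115664625, 0, 0, 0, 0⟩,
    ⟨-94779587525, 67019287875, -42386715975, 29971934825, 0, 0, 0, 0⟩]
  V1 := [
    ⟨-27630466225380, 19537690002210, -12356719219368, 8737519968090, 0, 0, 0, 0⟩,
    ⟨511752209625, -361863460125, 228862529325, -161830245375, 0, 0, 0, 0⟩,
    ⟨18955917505, -13403857575, 8477343195, -5994386965, 0, 0, 0, 0⟩]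
  U2 := [
    ⟨-8810, 6220, -3926, 2780, 0, 0, 0, 0⟩]
  V2 := [
    ⟨-119520, 84600, -53370, 37710, 0, 0, 0, 0⟩,
    ⟨4405, -3110, 1963, -1390, 0, 0, 0, 0⟩]
  r1 := 1180980
  r2 := 4860
  c2 := 25
  l := 5

theorem dd_O : dd.okO = true := by decide +kernel

theorem dd_N : dd.okN = true := by decide +kernel

theorem dd_F : dd.okF = true := by decide +kernel

theorem dd_D : dd.okD = true := by decide +kernel

theorem dd_L : dd.okL = true := by decide +kernel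

end Pool.Agent.H578.CM.E5
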