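import Pool.Agent.H578.CM.D.E5
import Pool.Agent.H578.CM.Q4h

set_option autoImplicit false
set_option linter.unusedSectionVars false
set_option linter.unusedVariables false
set_option maxHeartbeats 4000000
set_option maxRecDepth 100000

namespace Pool.Agent.H578.CM.E5

open Finset Pool.Agent.H546 Pool.Agent.H547 Pool.Agent.H578.CM
open Pool.Agent.Q267.CDE (R)

section ring

variable {B : Type*} [CommRing B] {v g k : B}

def W (v g k : B) : B := Wq (-1080) 729 486 (-324) v g k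

theorem q4 (hv : (108 : B) * v = 1) (hg : g ^ 2 = 2) (hk : k ^ 2 = 5) :
    Q4 (320) (W v g k) (W v g (-k)) (W v (-g) (-k)) (W v (-g) k) := by
  refine ⟨?_, ?_, ?_, ?_, ?_, ?_⟩ <;> simp only [W, Wq] <;> push_cast
  · linear_combination (-839808 * v ^ 2 * k ^ 2 + 4251528 * v ^ 2) * hg + (2519424 * v ^ 2 * g - 3569184 * v ^ 2) * hk + (-108 * v - 1) * hv
  · linear_combination (-839808 * v ^ 2 * k ^ 2 + 4251528 * v ^ 2) * hg + (-2519424 * v ^ 2 * g - 3569184 * v ^ 2) * hk + (-108 * v - 1) * hv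
  · linear_combination (839808 * v ^ 2 * k ^ 2 - 4251528 * v ^ 2) * hg + (-209952 * v ^ 2) * hk + (-648 * v * g * k - 2052 * v + 1) * hv
  · linear_combination (839808 * v ^ 2 * k ^ 2 - 4251528 * v ^ 2) * hg + (-209952 * v ^ 2) * hk + (648 * v * g * k - 2052 * v + 1) * hv
  · linear_combination (705277476864 * v ^ 4 * g ^ 2 * k ^ 4 - 7140934453248 * v ^ 4 * g ^ 2 * k ^ 2 + 18075490334784 * v ^ 4 * g ^ 2 - 117546246144 * v ^ 4 * g * k ^ 3 + 595077871104 * v ^ 4 * g * k - 1763193692160 * v ^ 4 * k ^ 4 + 17462964192768 * v ^ 4 * k ^ 2 - 43192735477632 * v ^ 4 + 31912704 * v ^ 2 * k ^ 2 - 161558064 * v ^ 2) * hg + (29386561536 * v ^ 4 * g * k + 44079842304 * v ^ 4 * k ^ 2 - 117546246144 * v ^ 4 - 7978176 * v ^ 2) * hk + (287214336 * v ^ 3 * g * k + 908252352 * v ^ 3 + 2659392 * v ^ 2 * g * k + 8409744 * v ^ 2 - 108 * v - 1) * hv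
  · linear_combination (705277476864 * v ^ 4 * g ^ 2 * k ^ 4 - 7140934453248 * v ^ 4 * g ^ 2 * k ^ 2 + 18075490334784 * v ^ 4 * g ^ 2 + 117546246144 * v ^ 4 * g * k ^ 3 - 595077871104 * v ^ 4 * g * k - 1763193692160 * v ^ 4 * k ^ 4 + 17462964192768 * v ^ 4 * k ^ 2 - 43192735477632 * v ^ 4 + 31912704 * v ^ 2 * k ^ 2 - 161558064 * v ^ 2) * hg + (-29386561536 * v ^ 4 * g * k + 44079842304 * v ^ 4 * k ^ 2 - 117546246144 * v ^ 4 - 7978176 * v ^ 2) * hk + (-287214336 * v ^ 3 * g * k + 908252352 * v ^ 3 - 2659392 * v ^ 2 * g * k + 8409744 * v ^ 2 - 108 * v - 1) * hv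

theorem jj (hv : (108 : B) * v = 1) (hg : g ^ 2 = 2) (hk : k ^ 2 = 5) : (1 - 2 * W v g k) * (Wq 72 12 24 0 v g k) = 1 := by
  simp only [W, Wq]
  push_cast
  linear_combination (7776 * v ^ 2 * k - 17496 * v ^ 2) * hg + (15552 * v ^ 2 * g - 23328 * v ^ 2) * hk + (-12 * v * g - 24 * v * k + 36 * v + 1) * hv

theorem a4 (hv : (108 : B) * v = 1) (hg : g ^ 2 = 2) (hk : k ^ 2 = 5) : 4 * (27 * W v g k ^ 2 * (Wq 72 12 24 0 v g k) ^ 3) = Wq 216 140 (-8) 0 v g k := by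
  simp only [W, Wq]
  push_cast
  linear_combination (19591041024 * v ^ 5 * g ^ 3 * k ^ 2 - 88159684608 * v ^ 5 * g ^ 3 * k + 99179645184 * v ^ 5 * g ^ 3 + 117546246144 * v ^ 5 * g ^ 2 * k ^ 3 - 235092492288 * v ^ 5 * g ^ 2 * k ^ 2 - 728949984768 * v ^ 5 * g ^ 2 * k + 1491367997952 * v ^ 5 * g ^ 2 + 235092492288 * v ^ 5 * g * k ^ 4 - 2439084607488 * v ^ 5 * g * k ^ 2 + 215501451264 * v ^ 5 * g * k + 5837858127360 * v ^ 5 * g + 156728328192 * v ^ 5 * k ^ 5 - 1900330979328 * v ^ 5 * k ^ 3 + 528958107648 * v ^ 5 * k ^ 2 + 5931187670016 * v ^ 5 * k - 3413738898432 * v ^ 5) * hg + (-470184984576 * v ^ 5 * g * k ^ 3 - 1129750032384 * v ^ 5 * g * k ^ 2 + 2350924922880 * v ^ 5 * g * k + 5661810855936 * v ^ 5 * g + 666095394816 * v ^ 5 * k ^ 3 + 1606465363968 * v ^ 5 * k ^ 2 - 3313062715392 * v ^ 5 * k - 8032326819840 * v ^ 5) * hk + (176359680 * v ^ 4 * g - 10077696 * v ^ 4 * k + 272097792 * v ^ 4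 + 1632960 * v ^ 3 * g - 93312 * v ^ 3 * k + 2519424 * v ^ 3 + 15120 * v ^ 2 * g - 864 * v ^ 2 * k + 23328 * v ^ 2 + 140 * v * g - 8 * v * k + 216 * v) * hv

theorem mu (hv : (108 : B) * v = 1) (hg : g ^ 2 = 2) (hk : k ^ 2 = 5) : (1 + 4 * W v g k) * (Wq 72 12 24 0 v g k) = Wq 0 36 72 0 v g k := by
  simp only [W, Wq]
  push_cast
  linear_combination (-15552 * v ^ 2 * k + 34992 * v ^ 2) * hg + (-31104 * v ^ 2 * g + 46656 * v ^ 2) * hk + (24 * v * g + 48 * v * k - 72 * v) * hv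

theorem mm (hv : (108 : B) * v = 1) (hg : g ^ 2 = 2) (hk : k ^ 2 = 5) : 2 * (Wq 0 180 36 0 v g k) ^ 2 = 5 * (Wq 0 36 72 0 v g k) ^ 2 := by
  simp only [Wq]
  push_cast
  linear_combination (58320 * v ^ 2) * hg + (-23328 * v ^ 2) * hk

theorem ne_a (hv : (108 : B) * v = 1) (hg : g ^ 2 = 2) (hk : k ^ 2 = 5) : ca (Wq 216 140 (-8) 0 v g k) * (Wq (-300420) (-158760) 29808 20160 v g k) = 18245 := by
  simp only [Wq, ca]
  push_cast
  linear_combination (16934400 * v ^ 2 * k - 133358400 * v ^ 2) * hg + (-967680 * v ^ 2 * g - 1430784 * v ^ 2) * hk + (544320 * v * g * k - 4286520 * v * g + 804816 * v * k - 6140880 * v + 18245) * hv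

theorem ne_b (hv : (108 : B) * v = 1) (hg : g ^ 2 = 2) (hk : k ^ 2 = 5) : cb (Wq 216 140 (-8) 0 v g k) * (Wq 59562 27945 136566 96930 v g k) = 9443 := by
  simp only [Wq, cb]
  push_cast
  linear_combination (1899828000 * v ^ 3 * g * k + 547722000 * v ^ 3 * g - 217123200 * v ^ 3 * k ^ 2 + 8476423200 * v ^ 3 * k + 2857528800 * v ^ 3 - 244263600 * v ^ 2 * k - 70421400 * v ^ 2) * hg + (6203520 * v ^ 3 * g * k - 639109440 * v ^ 3 * g + 8740224 * v ^ 3 * k - 902406528 * v ^ 3 + 13957920 * v ^ 2 * g + 19665504 * v ^ 2) * hk + (151690320 * v ^ 2 * g * k + 25981560 * v ^ 2 * g + 214465968 * v ^ 2 * k + 36869904 * v ^ 2 - 5234220 * v * g * k - 1509030 * v * g - 7374564 * v * k - 2196504 * v + 9443) * hv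

theorem ne_m (hv : (108 : B) * v = 1) (hg : g ^ 2 = 2) (hk : k ^ 2 = 5) : (Wq 0 180 36 0 v g k) * (Wq 0 180 (-36) 0 v g k) = 5 := by
  simp only [Wq]
  push_cast
  linear_combination (32400 * v ^ 2) * hg + (-1296 * v ^ 2) * hk + (540 * v + 5) * hv

theorem dal (hv : (108 : B) * v = 1) (hg : g ^ 2 = 2) (hk : k ^ 2 = 5) : T8.ev g k 0 dd.al = 9 ^ 2 * ca (Wq 216 140 (-8) 0 v g k) := by
  rw [show dd.al = ⟨-1215, 630, -36, 0, 0, 0, 0, 0⟩ from rfl]
  simp only [T8.ev, Wq, ca]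
  push_cast
  linear_combination (-630 * g + 36 * k - 972) * hv

theorem dbe (hv : (108 : B) * v = 1) (hg : g ^ 2 = 2) (hk : k ^ 2 = 5) : T8.ev g k 0 dd.be = 9 ^ 3 * cb (Wq 216 140 (-8) 0 v g k) := by
  rw [show dd.be = ⟨18508, -13230, 756, -140, 0, 0, 0, 0⟩ from rfl]
  simp only [T8.ev, Wq, cb]
  push_cast
  linear_combination (-14288400 * v ^ 2) * hg + (-46656 * v ^ 2) * hk + (15120 * v * g * k - 408240 * v * g + 23328 * v * k - 581688 * v + 140 * g * k + 13230 * g - 756 * k + 20858) * hv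

theorem dal' (hv : (108 : B) * v = 1) (hg : g ^ 2 = 2) (hk : k ^ 2 = 5) : T8.ev g k 0 dd.al' = 9 ^ 2 * (ca (Wq 216 140 (-8) 0 v (-g) k) * (Wq 0 180 36 0 v g k) ^ 4) := by
  rw [show dd.al' = ⟨-60375, -33750, -18900, -16500, 0, 0, 0, 0⟩ from rfl]
  simp only [T8.ev, Wq, ca]
  push_cast
  linear_combination (71425670400000 * v ^ 5 * g ^ 3 + 61222003200000 * v ^ 5 * g ^ 2 * k - 110199605760000 * v ^ 5 * g ^ 2 + 20407334400000 * v ^ 5 * g * k ^ 2 - 88159684608000 * v ^ 5 * g * k + 142851340800000 * v ^ 5 * g + 3265173504000 * v ^ 5 * k ^ 3 - 26447905382400 * v ^ 5 * k ^ 2 + 122444006400000 * v ^ 5 * k - 220399211520000 * v ^ 5 + 2295825120000 * v ^ 4 * g ^ 2 + 1836660096000 * v ^ 4 * g * k + 550998028800 * v ^ 4 * k ^ 2 + 4591650240000 * v ^ 4) * hg + (244888012800 * v ^ 5 * g * k ^ 2 - 3526387384320 * v ^ 5 * g * k + 42039108864000 * v ^ 5 * g + 6530347008 * v ^ 5 * k ^ 3 - 176319369216 * v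 ^ 5 * k ^ 2 + 6562998743040 * v ^ 5 * k - 53777407610880 * v ^ 5 + 73466403840 * v ^ 4 * g * k + 3673320192 * v ^ 4 * k ^ 2 + 1120362658560 * v ^ 4) * hk + (-1795845427200 * v ^ 4 * g * k + 4591650240000 * v ^ 4 * g + 2571324134400 * v ^ 4 * k - 6571161676800 * v ^ 4 + 20785248000 * v ^ 3 * g * k + 42515280000 * v ^ 3 * g + 23808556800 * v ^ 3 * k + 76055112000 * v ^ 3 + 192456000 * v ^ 2 * g * k + 393660000 * v ^ 2 * g + 220449600 * v ^ 2 * k + 704214000 * v ^ 2 + 1782000 * v * g * k + 3645000 * v * g + 2041200 * v * k + 6520500 * v + 16500 * g * k + 33750 * g + 18900 * k + 60375) * hv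

theorem dbe' (hv : (108 : B) * v = 1) (hg : g ^ 2 = 2) (hk : k ^ 2 = 5) : T8.ev g k 0 dd.be' = 9 ^ 3 * (cb (Wq 216 140 (-8) 0 v (-g) k) * (Wq 0 180 36 0 v g k) ^ 6) := by
  rw [show dd.be' = ⟨8606500, 6536250, 4000500, 2621500, 0, 0, 0, 0⟩ from rfl]
  simp only [T8.ev, Wq, cb]
  push_cast
  linear_combination (-485980261401600000000 * v ^ 8 * g ^ 6 - 638716914984960000000 * v ^ 8 * g ^ 5 * k + 1499596235182080000000 * v ^ 8 * g ^ 5 - 359823752727552000000 * v ^ 8 * g ^ 4 * k ^ 2 + 1885206695657472000000 * v ^ 8 * g ^ 4 * k - 2128791904229376000000 * v ^ 8 * g ^ 4 - 112985451793612800000 * v ^ 8 * g ^ 3 * k ^ 3 + 1002587197236019200000 * v ^ 8 * g ^ 3 * k ^ 2 - 2665631487681331200000 * v ^ 8 * g ^ 3 * k + 2999192470364160000000 * v ^ 8 * g ^ 3 - 21502147075891200000 * v ^ 8 * g ^ 2 * k ^ 4 + 291350125692518400000 * v ^ 8 * g ^ 2 * k ^ 3 - 1413746334310809600000 * v ^ 8 * g ^ 2 * k ^ 2 + 3770413391314944000000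 * v ^ 8 * g ^ 2 * k - 4257583808458752000000 * v ^ 8 * g ^ 2 - 2519956424835072000 * v ^ 8 * g * k ^ 5 + 49700903794606080000 * v ^ 8 * g * k ^ 4 - 411063924615413760000 * v ^ 8 * g * k ^ 3 + 2005174394472038400000 * v ^ 8 * g * k ^ 2 - 5331262975362662400000 * v ^ 8 * g * k + 5998384940728320000000 * v ^ 8 * g - 175825674982195200 * v ^ 8 * k ^ 6 + 4935813894085017600 * v ^ 8 * k ^ 5 - 70768247306010624000 * v ^ 8 * k ^ 4 + 582700251385036800000 * v ^ 8 * k ^ 3 - 2827492668621619200000 * v ^ 8 * k ^ 2 + 7540826782629888000000 * v ^ 8 * k - 8515167616917504000000 * v ^ 8 - 62483176465920000000 * v ^ 7 * g ^ 5 - 78550278985728000000 * v ^ 7 * g ^ 4 * k + 96402615118848000000 * v ^ 7 * g ^ 4 - 41774466551500800000 * v ^ 7 * g ^ 3 * k ^ 2 + 115683138142617600000 * v ^ 7 * g ^ 3 * k - 124966352931840000000 * v ^ 7 * g ^ 3 - 12139588570521600000 * v ^ 7 * g ^ 2 * k ^ 3 + 57841569071308800000 *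 v ^ 7 * g ^ 2 * k ^ 2 - 157100557971456000000 * v ^ 7 * g ^ 2 * k + 192805230237696000000 * v ^ 7 * g ^ 2 - 2070870991441920000 * v ^ 7 * g * k ^ 4 + 15424418419015680000 * v ^ 7 * g * k ^ 3 - 83548933103001600000 * v ^ 7 * g * k ^ 2 + 231366276285235200000 * v ^ 7 * g * k - 249932705863680000000 * v ^ 7 * g - 205658912253542400 * v ^ 7 * k ^ 5 + 2313662762852352000 * v ^ 7 * k ^ 4 - 24279177141043200000 * v ^ 7 * k ^ 3 + 115683138142617600000 * v ^ 7 * k ^ 2 - 314201115942912000000 * v ^ 7 * k + 385610460475392000000 * v ^ 7 - 1338925209984000000 * v ^ 6 * g ^ 4 - 1606710251980800000 * v ^ 6 * g ^ 3 * k - 803355125990400000 * v ^ 6 * g ^ 2 * k ^ 2 - 2677850419968000000 * v ^ 6 * g ^ 2 - 214228033597440000 * v ^ 6 * g * k ^ 3 - 3213420503961600000 * v ^ 6 * g * k - 32134205039616000 * v ^ 6 * k ^ 4 - 1606710251980800000 * v ^ 6 * k ^ 2 - 5355700839936000000 * v ^ 6) * hg + (-6601397183447040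 * v ^ 8 * g * k ^ 5 + 260501288854487040 * v ^ 8 * g * k ^ 4 - 7294036087925637120 * v ^ 8 * g * k ^ 3 + 100704314033484595200 * v ^ 8 * g * k ^ 2 - 858598029670455705600 * v ^ 8 * g * k + 4513870359111499776000 * v ^ 8 * g - 101559956668416 * v ^ 8 * k ^ 6 + 5484237660094464 * v ^ 8 * k ^ 5 - 426196358159007744 * v ^ 8 * k ^ 4 + 9899048976470507520 * v ^ 8 * k ^ 3 - 143667476402816286720 * v ^ 8 * k ^ 2 + 1214895747652426137600 * v ^ 8 * k - 6373322719257319833600 * v ^ 8 - 10854220368936960 * v ^ 7 * g * k ^ 4 + 185093021028188160 * v ^ 7 * g * k ^ 3 - 4196013084728524800 * v ^ 7 * g * k ^ 2 + 31774301943172300800 * v ^ 7 * g * k - 188077931629645824000 * v ^ 7 * g - 228509902503936 * v ^ 7 * k ^ 5 + 6169767367606272 * v ^ 7 * k ^ 4 - 412460374019604480 * v ^ 7 * k ^ 3 + 4658174362542735360 * v ^ 7 * k ^ 2 - 50620656152184422400 * v ^ 7 * k + 254657148097948876800 * v ^ 7 - 2570736403169280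 * v ^ 6 * g * k ^ 3 - 441309749210726400 * v ^ 6 * g * k - 85691213438976 * v ^ 6 * k ^ 4 - 64696866146426880 * v ^ 6 * k ^ 2 - 3536904834693734400 * v ^ 6) * hk + (-138477000917385216000 * v ^ 7 * g * k + 320056682194575360000 * v ^ 7 * g + 195890113921499136000 * v ^ 7 * k - 452749526204829696000 * v ^ 7 + 4473398716379136000 * v ^ 6 * g * k - 10372207293342720000 * v ^ 6 * g - 6348290728937472000 * v ^ 6 * k + 14738491992923136000 * v ^ 6 - 38518435533312000 * v ^ 5 * g * k - 96038956419840000 * v ^ 5 * g - 58780469712384000 * v ^ 5 * k - 126457720929792000 * v ^ 5 - 356652180864000 * v ^ 4 * g * k - 889249596480000 * v ^ 4 * g - 544263608448000 * v ^ 4 * k - 1170904823424000 * v ^ 4 - 3302335008000 * v ^ 3 * g * k - 8233792560000 * v ^ 3 * g - 5039477856000 * v ^ 3 * k - 10841711328000 * v ^ 3 - 30577176000 * v ^ 2 * g * k - 76238820000 * v ^ 2 * g - 46661832000 * v ^ 2 * k - 100386216000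 * v ^ 2 - 283122000 * v * g * k - 705915000 * v * g - 432054000 * v * k - 929502000 * v - 2621500 * g * k - 6536250 * g - 4000500 * k - 8606500) * hv

end ring

section wo

variable {p : ℕ} [hp : Fact p.Prime] {v g k : WO p}

theorem Zeq (hv : (108 : WO p) * v = 1) (hg : g ^ 2 = 2) (hk : k ^ 2 = 5) : 4 * Zw (W v g k) = Wq 216 140 (-8) 0 v g k := by
  rw [Zw, Jw_eq (jj hv hg hk)]; exact a4 hv hg hk

theorem Meq (hv : (108 : WO p) * v = 1) (hg : g ^ 2 = 2) (hk : k ^ 2 = 5) : MUw (W v g k) = Wq 0 36 72 0 v g k := by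
  rw [MUw, Jw_eq (jj hv hg hk)]; exact mu hv hg hk

theorem iso (h3 : 3 < p) (hne : ∀ q ∈ ([2, 3, 5] : List ℕ), p ≠ q) (hv : (108 : WO p) * v = 1) (hg : g ^ 2 = 2) (hk : k ^ 2 = 5) :
    ∃ M : WO p, 2 * M ^ 2 = ((5 : ℕ) : WO p) * MUw (W v g k) ^ 2 ∧
      DW (SW p) (W v g k) (W v (-g) k) M 5 := by
  refine ⟨Wq 0 180 36 0 v g k, ?_, ?_⟩
  · rw [Meq hv hg hk]; push_cast; exact mm hv hg hk
  · unfold DW
    rw [Zeq hv hg hk, Zeq hv (by rw [neg_sq]; exact hg) hk]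
    have := charZ (p := p)
    refine LD.dat (SW p) dd dd_O dd_N dd_F dd_D dd_L (g := g) (q := k) (i := 0)
      (by rw [hg, show dd.A = 2 from rfl]; push_cast; rfl) (by rw [hk, show dd.B = 5 from rfl]; push_cast; rfl)
      (by rw [show dd.C = 0 from rfl]; push_cast; ring) (D := (9 : WO p))
      (dal hv hg hk) (dbe hv hg hk) (dal' hv hg hk) (dbe' hv hg hk) (k2_of h3) ?_ ?_ ?_ ?_ ?_
    · have := red_int_ne (p := p) (n := 9) (by
    have e : (9 : ℤ) = (((3 : ℕ) : ℤ) ^ 2) := by norm_num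
    rw [e]
    exact nd_pow (p := p) (q := 3) (by norm_num) (hne 3 (by simp)) 2)
      exact_mod_cast this
    · exact red_ne_mul (n := 5) (by push_cast; exact ne_m hv hg hk) (by
    have e : (5 : ℤ) = (((5 : ℕ) : ℤ) ^ 1) := by norm_num
    rw [e]
    exact nd_pow (p := p) (q := 5) (by norm_num) (hne 5 (by simp)) 1)
    · rw [show dd.c2 = 25 from rfl]
      exact red_int_ne (by
    have e : (25 : ℤ) = (((5 : ℕ) : ℤ) ^ 2) := by norm_num
    rw [e]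
    exact nd_pow (p := p) (q := 5) (by norm_num) (hne 5 (by simp)) 2)
    · rw [show dd.r1 = 1180980 from rfl]
      exact red_int_ne (by
    have e : (1180980 : ℤ) = (((2 : ℕ) : ℤ) ^ 2) * ((((3 : ℕ) : ℤ) ^ 10) * ((((5 : ℕ) : ℤ) ^ 1))) := by norm_num
    rw [e]
    exact nd_mul' (nd_pow (p := p) (q := 2) (by norm_num) (hne 2 (by simp)) 2) (nd_mul' (nd_pow (p := p) (q := 3) (by norm_num) (hne 3 (by simp)) 10) (nd_pow (p := p) (q := 5) (by norm_num) (hne 5 (by simp)) 1)))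
    · rw [show dd.r2 = 4860 from rfl]
      exact red_int_ne (by
    have e : (4860 : ℤ) = (((2 : ℕ) : ℤ) ^ 2) * ((((3 : ℕ) : ℤ) ^ 5) * ((((5 : ℕ) : ℤ) ^ 1))) := by norm_num
    rw [e]
    exact nd_mul' (nd_pow (p := p) (q := 2) (by norm_num) (hne 2 (by simp)) 2) (nd_mul' (nd_pow (p := p) (q := 3) (by norm_num) (hne 3 (by simp)) 5) (nd_pow (p := p) (q := 5) (by norm_num) (hne 5 (by simp)) 1)))

theorem bw (h3 : 3 < p) (hne : ∀ q ∈ ([2, 3, 5] : List ℕ), p ≠ q) (hno : ∀ q ∈ ([7, 19, 41, 71, 89] : List ℕ), p ≠ q) (hv : (108 : WO p) * v = 1) (hg : g ^ 2 = 2) (hk : k ^ 2 = 5) :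
    BW 5 (W v g k) (W v (-g) k) := by
  refine ⟨?_, ?_, iso h3 hne hv hg hk⟩
  · rw [Zeq hv hg hk]
    exact red_ne_mul (n := 18245) (by push_cast; exact ne_a hv hg hk) (by
    have e : (18245 : ℤ) = (((5 : ℕ) : ℤ) ^ 1) * ((((41 : ℕ) : ℤ) ^ 1) * ((((89 : ℕ) : ℤ) ^ 1))) := by norm_num
    rw [e]
    exact nd_mul' (nd_pow (p := p) (q := 5) (by norm_num) (hne 5 (by simp)) 1) (nd_mul' (nd_pow (p := p) (q := 41) (by norm_num) (hno 41 (by simp)) 1) (nd_pow (p := p) (q := 89) (by norm_num) (hno 89 (by simp)) 1)))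
  · rw [Zeq hv hg hk]
    exact red_ne_mul (n := 9443) (by push_cast; exact ne_b hv hg hk) (by
    have e : (9443 : ℤ) = (((7 : ℕ) : ℤ) ^ 1) * ((((19 : ℕ) : ℤ) ^ 1) * ((((71 : ℕ) : ℤ) ^ 1))) := by norm_num
    rw [e]
    exact nd_mul' (nd_pow (p := p) (q := 7) (by norm_num) (hno 7 (by simp)) 1) (nd_mul' (nd_pow (p := p) (q := 19) (by norm_num) (hno 19 (by simp)) 1) (nd_pow (p := p) (q := 71) (by norm_num) (hno 71 (by simp)) 1)))

theorem data (h3 : 3 < p) (hne : ∀ q ∈ ([2, 3, 5] : List ℕ), p ≠ q) : ∃ v g k ρ μ : WO p, (108 : WO p) * v = 1 ∧ g ^ 2 = 2 ∧ k ^ 2 = 5 ∧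
    ρ ^ 2 = -3 ∧ ((320 : ℤ) : WO p) * μ = 1 := by
  obtain ⟨v, hv⟩ := (unit_int (p := p) (n := 108) (by
    have e : (108 : ℤ) = (((2 : ℕ) : ℤ) ^ 2) * ((((3 : ℕ) : ℤ) ^ 3)) := by norm_num
    rw [e]
    exact nd_mul' (nd_pow (p := p) (q := 2) (by norm_num) (hne 2 (by simp)) 2) (nd_pow (p := p) (q := 3) (by norm_num) (hne 3 (by simp)) 3))).exists_right_inv
  obtain ⟨μ, hμ⟩ := (unit_int (p := p) (n := 320) (by
    have e : (320 : ℤ) = (((2 : ℕ) : ℤ) ^ 6) * ((((5 : ℕ) : ℤ) ^ 1)) := by norm_num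
    rw [e]
    exact nd_mul' (nd_pow (p := p) (q := 2) (by norm_num) (hne 2 (by simp)) 6) (nd_pow (p := p) (q := 5) (by norm_num) (hne 5 (by simp)) 1))).exists_right_inv
  obtain ⟨g, hg⟩ := wo_isqrt p (by omega) (d := 2) (by
    have e : (2 : ℤ) = (((2 : ℕ) : ℤ) ^ 1) := by norm_num
    rw [e]
    exact nd_pow (p := p) (q := 2) (by norm_num) (hne 2 (by simp)) 1)
  obtain ⟨k, hk⟩ := wo_isqrt p (by omega) (d := 5) (by
    have e : (5 : ℤ) = (((5 : ℕ) : ℤ) ^ 1) := by norm_num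
    rw [e]
    exact nd_pow (p := p) (q := 5) (by norm_num) (hne 5 (by simp)) 1)
  obtain ⟨ρ, hρ⟩ := wo_isqrt p (by omega) (d := -3) (by
    rw [dvd_neg]
    have e : (3 : ℤ) = (((3 : ℕ) : ℤ) ^ 1) := by norm_num
    rw [e]
    exact nd_pow (p := p) (q := 3) (by norm_num) (hne 3 (by simp)) 1)
  refine ⟨v, g, k, ρ, μ, ?_, ?_, ?_, ?_, hμ⟩
  · exact_mod_cast hv
  · exact_mod_cast hg
  · exact_mod_cast hk
  · rw [hρ]; push_cast; rfl

theorem u4 (h3 : 3 < p) (hne : ∀ q ∈ ([2, 3, 5] : List ℕ), p ≠ q) (hv : (108 : WO p) * v = 1) (hg : g ^ 2 = 2) (hk : k ^ 2 = 5) :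
    U4 (W v g k) (W v g (-k)) (W v (-g) (-k)) (W v (-g) k) := by
  refine u_4 (q4 hv hg hk) (u3_of h3) ?_
  have := unit_int (p := p) (n := 324) (by
    have e : (324 : ℤ) = (((2 : ℕ) : ℤ) ^ 2) * ((((3 : ℕ) : ℤ) ^ 4)) := by norm_num
    rw [e]
    exact nd_mul' (nd_pow (p := p) (q := 2) (by norm_num) (hne 2 (by simp)) 2) (nd_pow (p := p) (q := 3) (by norm_num) (hne 3 (by simp)) 4))
  push_cast at this ⊢
  have e : (320 : WO p) + 4 = 324 := by norm_num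
  rw [e]; exact this

theorem ord (h : legendreSym p (-(6 * 5)) = 1) : ∀ q ∈ ([7, 19, 41, 71, 89] : List ℕ), p ≠ q := by
  intro q hq
  simp only [List.mem_cons, List.not_mem_nil, or_false] at hq
  rcases hq with rfl | rfl | rfl | rfl | rfl <;> (rintro rfl; revert h; norm_num)

end wo

end Pool.Agent.H578.CM.E5
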