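import Pool.Agent.H578.CM.Lp3

set_option autoImplicit false
set_option maxHeartbeats 4000000
set_option maxRecDepth 100000

namespace Pool.Agent.H578.CM.E7

open Pool.Agent.H578.CM

def dd : LD where
  A := 6
  B := 14
  C := 0
  al := ⟨-9375, 2970, -60, 0, 0, 0, 0, 0⟩
  be := ⟨402612, -173250, 3500, -396, 0, 0, 0, 0⟩
  al' := ⟨-953295, -310170, -179340, -91140, 0, 0, 0, 0⟩
  be' := ⟨544172244, 239067570, 151599140, 57430548, 0, 0, 0, 0⟩
  N := [
    ⟨18978989455053936, 9651840585021180, 6271996795578360, 2083175472442512, 0, 0, 0, 0⟩,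
    ⟨1680140440911485, 555128435933848, 365898484754796, 181215184166870, 0, 0, 0, 0⟩,
    ⟨37406610769122, 18997252916488, 12180999210576, 4113654126274, 0, 0, 0, 0⟩,
    ⟨634635160383, 202046959856, 133461225912, 66325138936, 0, 0, 0, 0⟩,
    ⟨3202696644, 1820722204, 1075275208, 353522848, 0, 0, 0, 0⟩,
    ⟨15862035, 3624824, 2481948, 1299970, 0, 0, 0, 0⟩,
    ⟨2058, 10976, 2352, 686, 0, 0, 0, 0⟩,
    ⟨49, 0, 0, 0, 0, 0, 0, 0⟩]
  H := [
    ⟨347445, 1807358, 710066, 178565, 0, 0, 0, 0⟩,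
    ⟨164661, 6790, 15330, 9212, 0, 0, 0, 0⟩,
    ⟨147, 784, 168, 49, 0, 0, 0, 0⟩,
    ⟨7, 0, 0, 0, 0, 0, 0, 0⟩]
  Q := [
    ⟨11995446960, -2755589676, 294350448, 394189320, 0, 0, 0, 0⟩,
    ⟨-177449727, 171576734, 34409018, 7857941, 0, 0, 0, 0⟩,
    ⟨3363801, -485198, 173754, 88592, 0, 0, 0, 0⟩,
    ⟨-1617, -8624, -1848, -539, 0, 0, 0, 0⟩,
    ⟨-245, 0, 0, 0, 0, 0, 0, 0⟩]
  U1 := [
    ⟨3988641840552657106875, -1628356212678534889375, 1066009371832861325625, -435196503669148379375, 0, 0, 0, 0⟩,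
    ⟨-104515263767328109500, 42668177760379376450, -27932879192892605400, 11403550178235233375, 0, 0, 0, 0⟩,
    ⟨684447204422505111, -279424401118362227, 182926209875755479, -74679312462783112, 0, 0, 0, 0⟩]
  V1 := [
    ⟨1099970450645819917500, -449061056036938913750, 293979468703837140000, -120016615529811441250, 0, 0, 0, 0⟩,
    ⟨-7333253100171618375, 2993788041683500075, -1959894330791124525, 800123510035396750, 0, 0, 0, 0⟩,
    ⟨-97778172060357873, 39917771588337461, -26132315696536497, 10668473208969016, 0, 0, 0, 0⟩]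
  U2 := [
    ⟨28336379377950, -11568278539300, 7573215438600, -3091752229525, 0, 0, 0, 0⟩,
    ⟨-368979858744, 150635395008, -98614009116, 40259001048, 0, 0, 0, 0⟩]
  V2 := [
    ⟨716709816733750, -292595556207500, 191548738290000, -78199445270625, 0, 0, 0, 0⟩,
    ⟨-18780614677650, 7667153893700, -5019330089900, 2049132913175, 0, 0, 0, 0⟩,
    ⟨122993286248, -50211798336, 32871336372, -13419667016, 0, 0, 0, 0⟩]
  r1 := 7382812500
  r2 := 787500000
  c2 := 49
  l := 7

theorem dd_O : dd.okO = true := by decide +kernel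

theorem dd_N : dd.okN = true := by decide +kernel

theorem dd_F : dd.okF = true := by decide +kernel

theorem dd_D : dd.okD = true := by decide +kernel

theorem dd_L : dd.okL = true := by decide +kernel

end Pool.Agent.H578.CM.E7
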