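import Pool.Agent.H578.CM.D.E7
import Pool.Agent.H578.CM.Q4h

set_option autoImplicit false
set_option linter.unusedSectionVars false
set_option linter.unusedVariables false
set_option maxHeartbeats 4000000
set_option maxRecDepth 100000

namespace Pool.Agent.H578.CM.E7

open Finset Pool.Agent.H546 Pool.Agent.H547 Pool.Agent.H578.CM
open Pool.Agent.Q267.CDE (R)

section ring

variable {B : Type*} [CommRing B] {v g k : B}

def W (v g k : B) : B := Wq (-42000) 16875 11250 (-4500) v g k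

theorem q4 (hv : (1500 : B) * v = 1) (hg : g ^ 2 = 6) (hk : k ^ 2 = 14) :
    Q4 (896) (W v g k) (W v g (-k)) (W v (-g) (-k)) (W v (-g) k) := by
  refine ⟨?_, ?_, ?_, ?_, ?_, ?_⟩ <;> simp only [W, Wq] <;> push_cast
  · linear_combination (-162000000 * v ^ 2 * k ^ 2 + 2278125000 * v ^ 2) * hg + (810000000 * v ^ 2 * g - 1984500000 * v ^ 2) * hk + (-1500 * v - 1) * hv
  · linear_combination (-162000000 * v ^ 2 * k ^ 2 + 2278125000 * v ^ 2) * hg + (-810000000 * v ^ 2 * g - 1984500000 * v ^ 2) * hk + (-1500 * v - 1) * hv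
  · linear_combination (162000000 * v ^ 2 * k ^ 2 - 2278125000 * v ^ 2) * hg + (-40500000 * v ^ 2) * hk + (-9000 * v * g * k - 82500 * v + 1) * hv
  · linear_combination (162000000 * v ^ 2 * k ^ 2 - 2278125000 * v ^ 2) * hg + (-40500000 * v ^ 2) * hk + (9000 * v * g * k - 82500 * v + 1) * hv
  · linear_combination (26244000000000000 * v ^ 4 * g ^ 2 * k ^ 4 - 738112500000000000 * v ^ 4 * g ^ 2 * k ^ 2 + 5189853515625000000 * v ^ 4 * g ^ 2 - 4374000000000000 * v ^ 4 * g * k ^ 3 + 61509375000000000 * v ^ 4 * g * k - 170586000000000000 * v ^ 4 * k ^ 4 + 4756998375000000000 * v ^ 4 * k ^ 2 - 33158678906250000000 * v ^ 4 + 17820000000 * v ^ 2 * k ^ 2 - 250593750000 * v ^ 2) * hg + (1093500000000000 * v ^ 4 * g * k + 1640250000000000 * v ^ 4 * k ^ 2 - 11846250000000000 * v ^ 4 - 4455000000 * v ^ 2) * hk + (2227500000000 * v ^ 3 * g * k + 20415375000000 * v ^ 3 + 1485000000 * v ^ 2 * g * k + 13610250000 * v ^ 2 - 1500 *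 v - 1) * hv
  · linear_combination (26244000000000000 * v ^ 4 * g ^ 2 * k ^ 4 - 738112500000000000 * v ^ 4 * g ^ 2 * k ^ 2 + 5189853515625000000 * v ^ 4 * g ^ 2 + 4374000000000000 * v ^ 4 * g * k ^ 3 - 61509375000000000 * v ^ 4 * g * k - 170586000000000000 * v ^ 4 * k ^ 4 + 4756998375000000000 * v ^ 4 * k ^ 2 - 33158678906250000000 * v ^ 4 + 17820000000 * v ^ 2 * k ^ 2 - 250593750000 * v ^ 2) * hg + (-1093500000000000 * v ^ 4 * g * k + 1640250000000000 * v ^ 4 * k ^ 2 - 11846250000000000 * v ^ 4 - 4455000000 * v ^ 2) * hk + (-2227500000000 * v ^ 3 * g * k + 20415375000000 * v ^ 3 - 1485000000 * v ^ 2 * g * k + 13610250000 * v ^ 2 - 1500 * v - 1) * hv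

theorem jj (hv : (1500 : B) * v = 1) (hg : g ^ 2 = 6) (hk : k ^ 2 = 14) : (1 - 2 * W v g k) * (Wq 1000 100 200 0 v g k) = 1 := by
  simp only [W, Wq]
  push_cast
  linear_combination (900000 * v ^ 2 * k - 3375000 * v ^ 2) * hg + (1800000 * v ^ 2 * g - 4500000 * v ^ 2) * hk + (-100 * v * g - 200 * v * k + 500 * v + 1) * hv

theorem a4 (hv : (1500 : B) * v = 1) (hg : g ^ 2 = 6) (hk : k ^ 2 = 14) : 4 * (27 * W v g k ^ 2 * (Wq 1000 100 200 0 v g k) ^ 3) = Wq 3000 1188 (-24) 0 v g k := by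
  simp only [W, Wq]
  push_cast
  linear_combination (2187000000000000 * v ^ 5 * g ^ 3 * k ^ 2 - 16402500000000000 * v ^ 5 * g ^ 3 * k + 30754687500000000 * v ^ 5 * g ^ 3 + 13122000000000000 * v ^ 5 * g ^ 2 * k ^ 3 - 43740000000000000 * v ^ 5 * g ^ 2 * k ^ 2 - 225716625000000000 * v ^ 5 * g ^ 2 * k + 769550625000000000 * v ^ 5 * g ^ 2 + 26244000000000000 * v ^ 5 * g * k ^ 4 - 753421500000000000 * v ^ 5 * g * k ^ 2 + 105705000000000000 * v ^ 5 * g * k + 5008746375000000000 * v ^ 5 * g + 17496000000000000 * v ^ 5 * k ^ 5 - 579555000000000000 * v ^ 5 * k ^ 3 + 273375000000000000 * v ^ 5 * k ^ 2 + 4955559750000000000 * v ^ 5 * k - 4839648750000000000 * v ^ 5) * hg + (-87480000000000000 * v ^ 5 * g * k ^ 3 - 336069000000000000 * v ^ 5 * g * k ^ 2 + 1224720000000000000 * v ^ 5 * g * k + 4706424000000000000 * v ^ 5 * g + 214326000000000000 * v ^ 5 * k ^ 3 + 823770000000000000 * v ^ 5 * k ^ 2 - 2998620000000000000 * v ^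 5 * k - 11532780000000000000 * v ^ 5) * hk + (4009500000000 * v ^ 4 * g - 81000000000 * v ^ 4 * k + 10125000000000 * v ^ 4 + 2673000000 * v ^ 3 * g - 54000000 * v ^ 3 * k + 6750000000 * v ^ 3 + 1782000 * v ^ 2 * g - 36000 * v ^ 2 * k + 4500000 * v ^ 2 + 1188 * v * g - 24 * v * k + 3000 * v) * hv

theorem mu (hv : (1500 : B) * v = 1) (hg : g ^ 2 = 6) (hk : k ^ 2 = 14) : (1 + 4 * W v g k) * (Wq 1000 100 200 0 v g k) = Wq 0 300 600 0 v g k := by
  simp only [W, Wq]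
  push_cast
  linear_combination (-1800000 * v ^ 2 * k + 6750000 * v ^ 2) * hg + (-3600000 * v ^ 2 * g + 9000000 * v ^ 2) * hk + (200 * v * g + 400 * v * k - 1000 * v) * hv

theorem mm (hv : (1500 : B) * v = 1) (hg : g ^ 2 = 6) (hk : k ^ 2 = 14) : 2 * (Wq 4200 0 0 150 v g k) ^ 2 = 7 * (Wq 0 300 600 0 v g k) ^ 2 := by
  simp only [Wq]
  push_cast
  linear_combination (45000 * v ^ 2 * k ^ 2 - 630000 * v ^ 2) * hg + (-2250000 * v ^ 2) * hk

theorem ne_a (hv : (1500 : B) * v = 1) (hg : g ^ 2 = 6) (hk : k ^ 2 = 14) : ca (Wq 3000 1188 (-24) 0 v g k) * (Wq (-282140) (-89640) 7280 2880 v g k) = 1111 := by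
  simp only [Wq, ca]
  push_cast
  linear_combination (20528640 * v ^ 2 * k - 638953920 * v ^ 2) * hg + (-414720 * v ^ 2 * g - 1048320 * v ^ 2) * hk + (77760 * v * g * k - 2420280 * v * g + 196560 * v * k - 5951280 * v + 1111) * hv

theorem ne_b (hv : (1500 : B) * v = 1) (hg : g ^ 2 = 6) (hk : k ^ 2 = 14) : cb (Wq 3000 1188 (-24) 0 v g k) * (Wq (-7463909250) (-3180043125) (-887538750) (-361617750) v g k) = 11483087 := by
  simp only [Wq, cb]
  push_cast
  linear_combination (-510367041756000 * v ^ 3 * g * k - 4488134784210000 * v ^ 3 * g + 20620890576000 * v ^ 3 * k ^ 2 - 3648895032420000 * v ^ 3 * k - 33201490931532000 * v ^ 3 + 7732833966000 * v ^ 2 * k + 68002042185000 * v ^ 2) * hg + (-208291824000 * v ^ 3 * g * k + 100852260840000 * v ^ 3 * g - 511222320000 * v ^ 3 * k + 247231711728000 * v ^ 3 - 156218868000 * v ^ 2 * g - 383416740000 * v ^ 2) * hk + (-7841670750000 * v ^ 2 * g * k - 71560006875000 * v ^ 2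 * g - 19209048750000 * v ^ 2 * k - 175281923250000 * v ^ 2 + 19527358500 * v * g * k + 171722328750 * v * g + 47927092500 * v * k + 420275730000 * v + 11483087) * hv

theorem ne_m (hv : (1500 : B) * v = 1) (hg : g ^ 2 = 6) (hk : k ^ 2 = 14) : (Wq 4200 0 0 150 v g k) * (Wq 4200 0 0 (-150) v g k) = 7 := by
  simp only [Wq]
  push_cast
  linear_combination (-22500 * v ^ 2 * k ^ 2) * hg + (-135000 * v ^ 2) * hk + (10500 * v + 7) * hv

theorem dal (hv : (1500 : B) * v = 1) (hg : g ^ 2 = 6) (hk : k ^ 2 = 14) : T8.ev g k 0 dd.al = 25 ^ 2 * ca (Wq 3000 1188 (-24) 0 v g k) := by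
  rw [show dd.al = ⟨-9375, 2970, -60, 0, 0, 0, 0, 0⟩ from rfl]
  simp only [T8.ev, Wq, ca]
  push_cast
  linear_combination (-2970 * g + 60 * k - 7500) * hv

theorem dbe (hv : (1500 : B) * v = 1) (hg : g ^ 2 = 6) (hk : k ^ 2 = 14) : T8.ev g k 0 dd.be = 25 ^ 3 * cb (Wq 3000 1188 (-24) 0 v g k) := by
  rw [show dd.be = ⟨402612, -173250, 3500, -396, 0, 0, 0, 0⟩ from rfl]
  simp only [T8.ev, Wq, cb]
  push_cast
  linear_combination (-22052250000 * v ^ 2) * hg + (-9000000 * v ^ 2) * hk + (594000 * v * g * k - 74250000 * v * g + 1500000 * v * k - 182043000 * v + 396 * g * k + 173250 * g - 3500 * k + 441138) * hv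

theorem dal' (hv : (1500 : B) * v = 1) (hg : g ^ 2 = 6) (hk : k ^ 2 = 14) : T8.ev g k 0 dd.al' = 25 ^ 2 * (ca (Wq 3000 1188 (-24) 0 v (-g) k) * (Wq 4200 0 0 150 v g k) ^ 4) := by
  rw [show dd.al' = ⟨-953295, -310170, -179340, -91140, 0, 0, 0, 0⟩ from rfl]
  simp only [T8.ev, Wq, ca]
  push_cast
  linear_combination (2255343750000000 * v ^ 5 * g ^ 3 * k ^ 4 + 45562500000000 * v ^ 5 * g ^ 2 * k ^ 5 - 5695312500000000 * v ^ 5 * g ^ 2 * k ^ 4 + 252598500000000000 * v ^ 5 * g ^ 2 * k ^ 3 + 18635062500000000 * v ^ 5 * g * k ^ 4 - 637875000000000000 * v ^ 5 * g * k ^ 3 + 10609137000000000000 * v ^ 5 * g * k ^ 2 + 273375000000000 * v ^ 5 * k ^ 5 - 34171875000000000 * v ^ 5 * k ^ 4 + 1729917000000000000 * v ^ 5 * k ^ 3 - 26790750000000000000 * v ^ 5 * k ^ 2 + 198037224000000000000 * v ^ 5 * k + 8542968750000 * v ^ 4 * g ^ 2 * k ^ 4 + 956812500000000 * v ^ 4 * g * k ^ 3 + 51257812500000 * v ^ 4 * k ^ 4 + 40186125000000000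 * v ^ 4 * k ^ 2) * hg + (111810375000000000 * v ^ 5 * g * k ^ 2 - 3827250000000000000 * v ^ 5 * g * k + 69220919250000000000 * v ^ 5 * g + 1640250000000000 * v ^ 5 * k ^ 3 - 205031250000000000 * v ^ 5 * k ^ 2 + 10402465500000000000 * v ^ 5 * k - 163614937500000000000 * v ^ 5 + 5740875000000000 * v ^ 4 * g * k + 307546875000000 * v ^ 4 * k ^ 2 + 245422406250000000 * v ^ 4) * hk + (-369117000000000000 * v ^ 4 * g * k + 1570235625000000000 * v ^ 4 * g + 907908750000000000 * v ^ 4 * k - 3860844750000000000 * v ^ 4 + 307597500000000 * v ^ 3 * g * k + 1046823750000000 * v ^ 3 * g + 605272500000000 * v ^ 3 * k + 3217370625000000 * v ^ 3 + 205065000000 * v ^ 2 * g * k + 697882500000 * v ^ 2 * g + 403515000000 * v ^ 2 * k + 2144913750000 * v ^ 2 + 136710000 * v * g * k + 465255000 * v * g + 269010000 * v * k + 1429942500 * v + 91140 * g * k + 310170 * g + 179340 * k + 953295) * hv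

theorem dbe' (hv : (1500 : B) * v = 1) (hg : g ^ 2 = 6) (hk : k ^ 2 = 14) : T8.ev g k 0 dd.be' = 25 ^ 3 * (cb (Wq 3000 1188 (-24) 0 v (-g) k) * (Wq 4200 0 0 150 v g k) ^ 6) := by
  rw [show dd.be' = ⟨544172244, 239067570, 151599140, 57430548, 0, 0, 0, 0⟩ from rfl]
  simp only [T8.ev, Wq, cb]
  push_cast
  linear_combination (-251188910156250000000000 * v ^ 8 * g ^ 6 * k ^ 6 - 10149046875000000000000 * v ^ 8 * g ^ 5 * k ^ 7 + 1268630859375000000000000 * v ^ 8 * g ^ 5 * k ^ 6 - 42199736906250000000000000 * v ^ 8 * g ^ 5 * k ^ 5 - 102515625000000000000 * v ^ 8 * g ^ 4 * k ^ 8 + 25628906250000000000000 * v ^ 8 * g ^ 4 * k ^ 7 - 4813979976562500000000000 * v ^ 8 * g ^ 4 * k ^ 6 + 213129984375000000000000000 * v ^ 8 * g ^ 4 * k ^ 5 - 2953981583437500000000000000 * v ^ 8 * g ^ 4 * k ^ 4 - 78116906250000000000000 * v ^ 8 * g ^ 3 * k ^ 7 + 11917441406250000000000000 * v ^ 8 * g ^ 3 * k ^ 6 - 641654728312500000000000000 *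 v ^ 8 * g ^ 3 * k ^ 5 + 14919098906250000000000000000 * v ^ 8 * g ^ 3 * k ^ 4 - 110281979115000000000000000000 * v ^ 8 * g ^ 3 * k ^ 3 - 615093750000000000000 * v ^ 8 * g ^ 2 * k ^ 8 + 153773437500000000000000 * v ^ 8 * g ^ 2 * k ^ 7 - 30089463609375000000000000 * v ^ 8 * g ^ 2 * k ^ 6 + 1580175843750000000000000000 * v ^ 8 * g ^ 2 * k ^ 5 - 41016973134375000000000000000 * v ^ 8 * g ^ 2 * k ^ 4 + 556979692500000000000000000000 * v ^ 8 * g ^ 2 * k ^ 3 - 2315921561415000000000000000000 * v ^ 8 * g ^ 2 * k ^ 2 - 468701437500000000000000 * v ^ 8 * g * k ^ 7 + 71504648437500000000000000 * v ^ 8 * g * k ^ 6 - 3894936829875000000000000000 * v ^ 8 * g * k ^ 5 + 100766708437500000000000000000 * v ^ 8 * g * k ^ 4 - 1458521650530000000000000000000 * v ^ 8 * g * k ^ 3 + 11696573542500000000000000000000 * v ^ 8 * g * k ^ 2 - 25938321487848000000000000000000 * v ^ 8 * g * k - 3690562500000000000000 * v ^ 8 * k ^ 8 + 922640625000000000000000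 * v ^ 8 * k ^ 7 - 180536781656250000000000000 * v ^ 8 * k ^ 6 + 9481055062500000000000000000 * v ^ 8 * k ^ 5 - 247047016466250000000000000000 * v ^ 8 * k ^ 4 + 3578172570000000000000000000000 * v ^ 8 * k ^ 3 - 29711943295398000000000000000000 * v ^ 8 * k ^ 2 + 131001623676000000000000000000000 * v ^ 8 * k - 121045500276624000000000000000000 * v ^ 8 - 3805892578125000000000 * v ^ 7 * g ^ 5 * k ^ 6 - 76886718750000000000 * v ^ 7 * g ^ 4 * k ^ 7 + 9610839843750000000000 * v ^ 7 * g ^ 4 * k ^ 6 - 639389953125000000000000 * v ^ 7 * g ^ 4 * k ^ 5 - 35752324218750000000000 * v ^ 7 * g ^ 3 * k ^ 6 + 1614621093750000000000000 * v ^ 7 * g ^ 3 * k ^ 5 - 44757296718750000000000000 * v ^ 7 * g ^ 3 * k ^ 4 - 461320312500000000000 * v ^ 7 * g ^ 2 * k ^ 7 + 57665039062500000000000 * v ^ 7 * g ^ 2 * k ^ 6 - 4740527531250000000000000 * v ^ 7 * g ^ 2 * k ^ 5 + 113023476562500000000000000 * v ^ 7 * g ^ 2 * k ^ 4 - 1670939077500000000000000000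 * v ^ 7 * g ^ 2 * k ^ 3 - 214513945312500000000000 * v ^ 7 * g * k ^ 6 + 9687726562500000000000000 * v ^ 7 * g * k ^ 5 - 302300125312500000000000000 * v ^ 7 * g * k ^ 4 + 4219543125000000000000000000 * v ^ 7 * g * k ^ 3 - 35089720627500000000000000000 * v ^ 7 * g * k ^ 2 - 2767921875000000000000 * v ^ 7 * k ^ 7 + 345990234375000000000000 * v ^ 7 * k ^ 6 - 28443165187500000000000000 * v ^ 7 * k ^ 5 + 678140859375000000000000000 * v ^ 7 * k ^ 4 - 10734517710000000000000000000 * v ^ 7 * k ^ 3 + 88610405625000000000000000000 * v ^ 7 * k ^ 2 - 393004871028000000000000000000 * v ^ 7 * k - 9610839843750000000 * v ^ 6 * g ^ 4 * k ^ 6 - 1614621093750000000000 * v ^ 6 * g ^ 3 * k ^ 5 - 57665039062500000000 * v ^ 6 * g ^ 2 * k ^ 6 - 113023476562500000000000 * v ^ 6 * g ^ 2 * k ^ 4 - 9687726562500000000000 * v ^ 6 * g * k ^ 5 - 4219543125000000000000000 * v ^ 6 * g * k ^ 3 - 345990234375000000000 * v ^ 6 * k ^ 6 - 678140859375000000000000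 * v ^ 6 * k ^ 4 - 88610405625000000000000000 * v ^ 6 * k ^ 2) * hg + (-2812208625000000000000000 * v ^ 8 * g * k ^ 5 + 429027890625000000000000000 * v ^ 8 * g * k ^ 4 - 23408991900000000000000000000 * v ^ 8 * g * k ^ 3 + 610606641093750000000000000000 * v ^ 8 * g * k ^ 2 - 9089441779572000000000000000000 * v ^ 8 * g * k + 81374431678312500000000000000000 * v ^ 8 * g - 22143375000000000000000 * v ^ 8 * k ^ 6 + 5535843750000000000000000 * v ^ 8 * k ^ 5 - 1083530697187500000000000000 * v ^ 8 * k ^ 4 + 56963832187500000000000000000 * v ^ 8 * k ^ 3 - 1497451528558125000000000000000 * v ^ 8 * k ^ 2 + 22266529070625000000000000000000 * v ^ 8 * k - 199285382457897750000000000000000 * v ^ 8 - 1287083671875000000000000 * v ^ 7 * g * k ^ 4 + 58126359375000000000000000 * v ^ 7 * g * k ^ 3 - 1831819923281250000000000000 * v ^ 7 * g * k ^ 2 + 26131027781250000000000000000 * v ^ 7 * g * k - 244123295034937500000000000000 * v ^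 7 * g - 16607531250000000000000 * v ^ 7 * k ^ 5 + 2075941406250000000000000 * v ^ 7 * k ^ 4 - 170891496562500000000000000 * v ^ 7 * k ^ 3 + 4097908335937500000000000000 * v ^ 7 * k ^ 2 - 66799587211875000000000000000 * v ^ 7 * k + 589033150453125000000000000000 * v ^ 7 - 58126359375000000000000 * v ^ 6 * g * k ^ 3 - 26131027781250000000000000 * v ^ 6 * g * k - 2075941406250000000000 * v ^ 6 * k ^ 4 - 4097908335937500000000000 * v ^ 6 * k ^ 2 - 589033150453125000000000000 * v ^ 6) * hk + (-302119287750000000000000000000 * v ^ 7 * g * k + 1167055302656250000000000000000 * v ^ 7 * g + 740060980312500000000000000000 * v ^ 7 * k - 2858775630046875000000000000000 * v ^ 7 + 704101096125000000000000000 * v ^ 6 * g * k - 2723129039531250000000000000 * v ^ 6 * g - 1726808954062500000000000000 * v ^ 6 * k + 6679372673531250000000000000 * v ^ 6 - 436113223875000000000000 * v ^ 5 * g * k - 1815419359687500000000000 * v ^ 5 *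 g - 1151205969375000000000000 * v ^ 5 * k - 4132307977875000000000000 * v ^ 5 - 290742149250000000000 * v ^ 4 * g * k - 1210279573125000000000 * v ^ 4 * g - 767470646250000000000 * v ^ 4 * k - 2754871985250000000000 * v ^ 4 - 193828099500000000 * v ^ 3 * g * k - 806853048750000000 * v ^ 3 * g - 511647097500000000 * v ^ 3 * k - 1836581323500000000 * v ^ 3 - 129218733000000 * v ^ 2 * g * k - 537902032500000 * v ^ 2 * g - 341098065000000 * v ^ 2 * k - 1224387549000000 * v ^ 2 - 86145822000 * v * g * k - 358601355000 * v * g - 227398710000 * v * k - 816258366000 * v - 57430548 * g * k - 239067570 * g - 151599140 * k - 544172244) * hv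

end ring

section wo

variable {p : ℕ} [hp : Fact p.Prime] {v g k : WO p}

theorem Zeq (hv : (1500 : WO p) * v = 1) (hg : g ^ 2 = 6) (hk : k ^ 2 = 14) : 4 * Zw (W v g k) = Wq 3000 1188 (-24) 0 v g k := by
  rw [Zw, Jw_eq (jj hv hg hk)]; exact a4 hv hg hk

theorem Meq (hv : (1500 : WO p) * v = 1) (hg : g ^ 2 = 6) (hk : k ^ 2 = 14) : MUw (W v g k) = Wq 0 300 600 0 v g k := by
  rw [MUw, Jw_eq (jj hv hg hk)]; exact mu hv hg hk

theorem iso (h3 : 3 < p) (hne : ∀ q ∈ ([2, 3, 5, 7] : List ℕ), p ≠ q) (hv : (1500 : WO p) * v = 1) (hg : g ^ 2 = 6) (hk : k ^ 2 = 14) :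
    ∃ M : WO p, 2 * M ^ 2 = ((7 : ℕ) : WO p) * MUw (W v g k) ^ 2 ∧
      DW (SW p) (W v g k) (W v (-g) k) M 7 := by
  refine ⟨Wq 4200 0 0 150 v g k, ?_, ?_⟩
  · rw [Meq hv hg hk]; push_cast; exact mm hv hg hk
  · unfold DW
    rw [Zeq hv hg hk, Zeq hv (by rw [neg_sq]; exact hg) hk]
    have := charZ (p := p)
    refine LD.dat (SW p) dd dd_O dd_N dd_F dd_D dd_L (g := g) (q := k) (i := 0)
      (by rw [hg, show dd.A = 6 from rfl]; push_cast; rfl) (by rw [hk, show dd.B = 14 from rfl]; push_cast; rfl)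
      (by rw [show dd.C = 0 from rfl]; push_cast; ring) (D := (25 : WO p))
      (dal hv hg hk) (dbe hv hg hk) (dal' hv hg hk) (dbe' hv hg hk) (k2_of h3) ?_ ?_ ?_ ?_ ?_
    · have := red_int_ne (p := p) (n := 25) (by
    have e : (25 : ℤ) = (((5 : ℕ) : ℤ) ^ 2) := by norm_num
    rw [e]
    exact nd_pow (p := p) (q := 5) (by norm_num) (hne 5 (by simp)) 2)
      exact_mod_cast this
    · exact red_ne_mul (n := 7) (by push_cast; exact ne_m hv hg hk) (by
    have e : (7 : ℤ) = (((7 : ℕ) : ℤ) ^ 1) := by norm_num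
    rw [e]
    exact nd_pow (p := p) (q := 7) (by norm_num) (hne 7 (by simp)) 1)
    · rw [show dd.c2 = 49 from rfl]
      exact red_int_ne (by
    have e : (49 : ℤ) = (((7 : ℕ) : ℤ) ^ 2) := by norm_num
    rw [e]
    exact nd_pow (p := p) (q := 7) (by norm_num) (hne 7 (by simp)) 2)
    · rw [show dd.r1 = 7382812500 from rfl]
      exact red_int_ne (by
    have e : (7382812500 : ℤ) = (((2 : ℕ) : ℤ) ^ 2) * ((((3 : ℕ) : ℤ) ^ 3) * ((((5 : ℕ) : ℤ) ^ 10) * ((((7 : ℕ) : ℤ) ^ 1)))) := by norm_num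
    rw [e]
    exact nd_mul' (nd_pow (p := p) (q := 2) (by norm_num) (hne 2 (by simp)) 2) (nd_mul' (nd_pow (p := p) (q := 3) (by norm_num) (hne 3 (by simp)) 3) (nd_mul' (nd_pow (p := p) (q := 5) (by norm_num) (hne 5 (by simp)) 10) (nd_pow (p := p) (q := 7) (by norm_num) (hne 7 (by simp)) 1))))
    · rw [show dd.r2 = 787500000 from rfl]
      exact red_int_ne (by
    have e : (787500000 : ℤ) = (((2 : ℕ) : ℤ) ^ 5) * ((((3 : ℕ) : ℤ) ^ 2) * ((((5 : ℕ) : ℤ) ^ 8) * ((((7 : ℕ) : ℤ) ^ 1)))) := by norm_num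
    rw [e]
    exact nd_mul' (nd_pow (p := p) (q := 2) (by norm_num) (hne 2 (by simp)) 5) (nd_mul' (nd_pow (p := p) (q := 3) (by norm_num) (hne 3 (by simp)) 2) (nd_mul' (nd_pow (p := p) (q := 5) (by norm_num) (hne 5 (by simp)) 8) (nd_pow (p := p) (q := 7) (by norm_num) (hne 7 (by simp)) 1))))

theorem bw (h3 : 3 < p) (hne : ∀ q ∈ ([2, 3, 5, 7] : List ℕ), p ≠ q) (hno : ∀ q ∈ ([11, 19, 47, 101, 167] : List ℕ), p ≠ q) (hv : (1500 : WO p) * v = 1) (hg : g ^ 2 = 6) (hk : k ^ 2 = 14) :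
    BW 7 (W v g k) (W v (-g) k) := by
  refine ⟨?_, ?_, iso h3 hne hv hg hk⟩
  · rw [Zeq hv hg hk]
    exact red_ne_mul (n := 1111) (by push_cast; exact ne_a hv hg hk) (by
    have e : (1111 : ℤ) = (((11 : ℕ) : ℤ) ^ 1) * ((((101 : ℕ) : ℤ) ^ 1)) := by norm_num
    rw [e]
    exact nd_mul' (nd_pow (p := p) (q := 11) (by norm_num) (hno 11 (by simp)) 1) (nd_pow (p := p) (q := 101) (by norm_num) (hno 101 (by simp)) 1))
  · rw [Zeq hv hg hk]
    exact red_ne_mul (n := 11483087) (by push_cast; exact ne_b hv hg hk) (by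
    have e : (11483087 : ℤ) = (((7 : ℕ) : ℤ) ^ 1) * ((((11 : ℕ) : ℤ) ^ 1) * ((((19 : ℕ) : ℤ) ^ 1) * ((((47 : ℕ) : ℤ) ^ 1) * ((((167 : ℕ) : ℤ) ^ 1))))) := by norm_num
    rw [e]
    exact nd_mul' (nd_pow (p := p) (q := 7) (by norm_num) (hne 7 (by simp)) 1) (nd_mul' (nd_pow (p := p) (q := 11) (by norm_num) (hno 11 (by simp)) 1) (nd_mul' (nd_pow (p := p) (q := 19) (by norm_num) (hno 19 (by simp)) 1) (nd_mul' (nd_pow (p := p) (q := 47) (by norm_num) (hno 47 (by simp)) 1) (nd_pow (p := p) (q := 167) (by norm_num) (hno 167 (by simp)) 1)))))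

theorem data (h3 : 3 < p) (hne : ∀ q ∈ ([2, 3, 5, 7] : List ℕ), p ≠ q) : ∃ v g k ρ μ : WO p, (1500 : WO p) * v = 1 ∧ g ^ 2 = 6 ∧ k ^ 2 = 14 ∧
    ρ ^ 2 = -3 ∧ ((896 : ℤ) : WO p) * μ = 1 := by
  obtain ⟨v, hv⟩ := (unit_int (p := p) (n := 1500) (by
    have e : (1500 : ℤ) = (((2 : ℕ) : ℤ) ^ 2) * ((((3 : ℕ) : ℤ) ^ 1) * ((((5 : ℕ) : ℤ) ^ 3))) := by norm_num
    rw [e]
    exact nd_mul' (nd_pow (p := p) (q := 2) (by norm_num) (hne 2 (by simp)) 2) (nd_mul' (nd_pow (p := p) (q := 3) (by norm_num) (hne 3 (by simp)) 1) (nd_pow (p := p) (q := 5) (by norm_num) (hne 5 (by simp)) 3)))).exists_right_inv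
  obtain ⟨μ, hμ⟩ := (unit_int (p := p) (n := 896) (by
    have e : (896 : ℤ) = (((2 : ℕ) : ℤ) ^ 7) * ((((7 : ℕ) : ℤ) ^ 1)) := by norm_num
    rw [e]
    exact nd_mul' (nd_pow (p := p) (q := 2) (by norm_num) (hne 2 (by simp)) 7) (nd_pow (p := p) (q := 7) (by norm_num) (hne 7 (by simp)) 1))).exists_right_inv
  obtain ⟨g, hg⟩ := wo_isqrt p (by omega) (d := 6) (by
    have e : (6 : ℤ) = (((2 : ℕ) : ℤ) ^ 1) * ((((3 : ℕ) : ℤ) ^ 1)) := by norm_num
    rw [e]
    exact nd_mul' (nd_pow (p := p) (q := 2) (by norm_num) (hne 2 (by simp)) 1) (nd_pow (p := p) (q := 3) (by norm_num) (hne 3 (by simp)) 1))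
  obtain ⟨k, hk⟩ := wo_isqrt p (by omega) (d := 14) (by
    have e : (14 : ℤ) = (((2 : ℕ) : ℤ) ^ 1) * ((((7 : ℕ) : ℤ) ^ 1)) := by norm_num
    rw [e]
    exact nd_mul' (nd_pow (p := p) (q := 2) (by norm_num) (hne 2 (by simp)) 1) (nd_pow (p := p) (q := 7) (by norm_num) (hne 7 (by simp)) 1))
  obtain ⟨ρ, hρ⟩ := wo_isqrt p (by omega) (d := -3) (by
    rw [dvd_neg]
    have e : (3 : ℤ) = (((3 : ℕ) : ℤ) ^ 1) := by norm_num
    rw [e]
    exact nd_pow (p := p) (q := 3) (by norm_num) (hne 3 (by simp)) 1)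
  refine ⟨v, g, k, ρ, μ, ?_, ?_, ?_, ?_, hμ⟩
  · exact_mod_cast hv
  · exact_mod_cast hg
  · exact_mod_cast hk
  · rw [hρ]; push_cast; rfl

theorem u4 (h3 : 3 < p) (hne : ∀ q ∈ ([2, 3, 5, 7] : List ℕ), p ≠ q) (hv : (1500 : WO p) * v = 1) (hg : g ^ 2 = 6) (hk : k ^ 2 = 14) :
    U4 (W v g k) (W v g (-k)) (W v (-g) (-k)) (W v (-g) k) := by
  refine u_4 (q4 hv hg hk) (u3_of h3) ?_
  have := unit_int (p := p) (n := 900) (by
    have e : (900 : ℤ) = (((2 : ℕ) : ℤ) ^ 2) * ((((3 : ℕ) : ℤ) ^ 2) * ((((5 : ℕ) : ℤ) ^ 2))) := by norm_num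
    rw [e]
    exact nd_mul' (nd_pow (p := p) (q := 2) (by norm_num) (hne 2 (by simp)) 2) (nd_mul' (nd_pow (p := p) (q := 3) (by norm_num) (hne 3 (by simp)) 2) (nd_pow (p := p) (q := 5) (by norm_num) (hne 5 (by simp)) 2)))
  push_cast at this ⊢
  have e : (896 : WO p) + 4 = 900 := by norm_num
  rw [e]; exact this

theorem ord (h : legendreSym p (-(6 * 7)) = 1) : ∀ q ∈ ([11, 19, 47, 101, 167] : List ℕ), p ≠ q := by
  intro q hq
  simp only [List.mem_cons, List.not_mem_nil, or_false] at hq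
  rcases hq with rfl | rfl | rfl | rfl | rfl <;> (rintro rfl; revert h; norm_num)

end wo

end Pool.Agent.H578.CM.E7
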