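import Pool.Agent.H578.CM.Lp3

set_option autoImplicit false
set_option maxHeartbeats 4000000
set_option maxRecDepth 100000

namespace Pool.Agent.H578.CM.F11

open Pool.Agent.H578.CM

def dd : LD where
  A := 3
  B := 11
  C := -1
  al := ⟨-1815, 0, 30, -270, 0, 0, 0, 0⟩
  be := ⟨35382, -450, -770, 6930, 0, 0, 0, 0⟩
  al' := ⟨69105, -35700, 14790, -9690, -150480, 76560, -50400, 32520⟩
  be' := ⟨-50901576, 28595160, -16058840, 9551640, 14241150, -7981050, 3875850, -2299770⟩
  N := [
    ⟨232088262864696, -132338758959624, 61638995473272, -35038450071576, 86219515897704, -49031014260312, 14488611413976, -8112323396856⟩,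
    ⟨30059947020068, -17591693306488, 10329394891032, -6012465238192, -26676755023296, 15270309505696, -6039264988512, 3451646726864⟩,
    ⟨171692267964, -101526524512, -15542110080, 12121965940, -2428971734280, 1411285825460, -870984849588, 504925363544⟩,
    ⟨-70378784868, 40570796560, -19178718384, 11357594752, -60263847168, 34845394304, -13519672320, 7634585728⟩,
    ⟨-1299870432, 703100216, -395363752, 223946464, 536774616, -281720992, 62088096, -41641768⟩,
    ⟨-2048004, 1949416, -883176, 786352, 8194368, -4119136, 2874144, -1866704⟩,
    ⟨-4116, -3920, 2352, -6076, 22344, -9212, 2940, -2744⟩,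
    ⟨196, 0, 0, 0, 0, 0, 0, 0⟩]
  H := [
    ⟨-575241, 199592, -94444, 12313, 252882, -127099, -6105, 374⟩,
    ⟨14994, 5656, -3612, 5404, 23436, -11032, 10164, -6776⟩,
    ⟨-147, -140, 84, -217, 798, -329, 105, -98⟩,
    ⟨14, 0, 0, 0, 0, 0, 0, 0⟩]
  Q := [
    ⟨525378672, 35194488, -41192592, 123361896, -199272864, 116233152, 31919328, -21790272⟩,
    ⟨-58345077, 8921024, -3404212, -6088859, 14519106, -7134463, -927045, 312998⟩,
    ⟨821898, 61600, -45276, 156772, 257628, -126616, 97860, -64232⟩,
    ⟨1617, 1540, -924, 2387, -8778, 3619, -1155, 1078⟩,
    ⟨-490, 0, 0, 0, 0, 0, 0, 0⟩]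
  U1 := [
    ⟨4331879996235035706, 2501012081649232228, 1306110962086482552, 754083515634715882, -5822012505034206096, -3361340486110731586, -1755402818079669066, -1013482289824734884⟩,
    ⟨-276866571935176608, -159848989810444088, -83478412358018832, -48196283854248376, 359932531931542416, 207807144162736888, 108523741638526368, 62656211459941792⟩,
    ⟨4411900808710374, 2547212119020380, 1330238144697672, 768013351086254, -5560943805703776, -3210612402866582, -1676687643864870, -968036062624204⟩]
  V1 := [
    ⟨686269922806717128, 396218124582242908, 206918167123201644, 119464259515024072, -864999257771659032, -499407554272472956, -260807089243784292, -150577043196784424⟩,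
    ⟨-10398702784413174, -6003693850526834, -3135326857729176, -1810181805692458, 13107019013837958, 7567340955180424, 3951914925852894, 2281639146476536⟩,
    ⟨-315135772050741, -181943722787170, -95017010335548, -54858096506161, 397210271835984, 229329457347613, 119763403133205, 69145433044586⟩]
  U2 := [
    ⟨-101491080768, -58595909746, -30600715299, -17667329174, -46651793628, -26934453238, -14066054838, -8121032227⟩,
    ⟨3176391288, 1833890160, 957718044, 552938832, 1539217098, 888668064, 464091870, 267943368⟩]
  V2 := [
    ⟨-1098082948490, -633978638238, -331084542327, -191151703424, -490476723924, -283177199998, -147884491238, -85381050315⟩,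
    ⟨68215312737, 39384131567, 20567691452, 11874761503, 31794695119, 18356693201, 9586467825, 5534744534⟩,
    ⟨-1058797096, -611296720, -319239348, -184312944, -513072366, -296222688, -154697290, -89314456⟩]
  r1 := 487018224
  r2 := 29516256
  c2 := 196
  l := 7

theorem dd_O : dd.okO = true := by decide +kernel

theorem dd_N : dd.okN = true := by decide +kernel

theorem dd_F : dd.okF = true := by decide +kernel

theorem dd_D : dd.okD = true := by decide +kernel

theorem dd_L : dd.okL = true := by decide +kernel

end Pool.Agent.H578.CM.F11
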