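import Pool.Agent.H578.CM.D.F11
import Pool.Agent.H578.CM.Q4a

set_option autoImplicit false
set_option linter.unusedSectionVars false
set_option linter.unusedVariables false
set_option maxHeartbeats 4000000
set_option maxRecDepth 100000

namespace Pool.Agent.H578.CM.F11

open Finset Pool.Agent.H546 Pool.Agent.H547 Pool.Agent.H578.CM
open Pool.Agent.Q267.CDE (R)

section ring

variable {B : Type*} [CommRing B] {v g k i : B}

def W (v g k : B) : B := Wq 145200 (-87120) (-43560) 26136 v g k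

theorem q4 (hv : (11616 : B) * v = 1) (hg : g ^ 2 = 3) (hk : k ^ 2 = 11) :
    Q4 (-400) (W v g k) (W v (-g) (-k)) (W v g (-k)) (W v (-g) k) := by
  refine ⟨?_, ?_, ?_, ?_, ?_, ?_⟩ <;> simp only [W, Wq] <;> push_cast
  · linear_combination (5464723968 * v ^ 2 * k ^ 2 - 60719155200 * v ^ 2) * hg + (1214383104 * v ^ 2) * hk + (-11616 * v - 1) * hv
  · linear_combination (5464723968 * v ^ 2 * k ^ 2 - 60719155200 * v ^ 2) * hg + (1214383104 * v ^ 2) * hk + (-11616 * v - 1) * hv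
  · linear_combination (-5464723968 * v ^ 2 * k ^ 2 + 60719155200 * v ^ 2) * hg + (18215746560 * v ^ 2 * g - 31573960704 * v ^ 2) * hk + (-174240 * v * g + 302016 * v + 1) * hv
  · linear_combination (-5464723968 * v ^ 2 * k ^ 2 + 60719155200 * v ^ 2) * hg + (-18215746560 * v ^ 2 * g - 31573960704 * v ^ 2) * hk + (174240 * v * g + 302016 * v + 1) * hv
  · linear_combination (29863208046433665024 * v ^ 4 * g ^ 2 * k ^ 4 - 663626845476303667200 * v ^ 4 * g ^ 2 * k ^ 2 + 3686815808201687040000 * v ^ 4 * g ^ 2 - 199088053642891100160 * v ^ 4 * g * k ^ 4 + 4424178969842024448000 * v ^ 4 * g * k ^ 2 - 24578772054677913600000 * v ^ 4 * g + 587309758246528745472 * v ^ 4 * k ^ 4 - 13051327961033972121600 * v ^ 4 * k ^ 2 + 72507377561299845120000 * v ^ 4 + 284165646336 * v ^ 2 * k ^ 2 - 3157396070400 * v ^ 2) * hg + (-1150286532158926356480 * v ^ 4 * g * k ^ 2 + 12908771083116840222720 * v ^ 4 * g + 1992355262752191676416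 * v ^ 4 * k ^ 2 - 22358653504219039924224 * v ^ 4 - 947218821120 * v ^ 2 * g + 1641845956608 * v ^ 2) * hk + (-1222543758458880 * v ^ 3 * g + 2117508484202496 * v ^ 3 - 105246535680 * v ^ 2 * g + 182292397056 * v ^ 2 - 11616 * v - 1) * hv
  · linear_combination (29863208046433665024 * v ^ 4 * g ^ 2 * k ^ 4 - 663626845476303667200 * v ^ 4 * g ^ 2 * k ^ 2 + 3686815808201687040000 * v ^ 4 * g ^ 2 + 199088053642891100160 * v ^ 4 * g * k ^ 4 - 4424178969842024448000 * v ^ 4 * g * k ^ 2 + 24578772054677913600000 * v ^ 4 * g + 587309758246528745472 * v ^ 4 * k ^ 4 - 13051327961033972121600 * v ^ 4 * k ^ 2 + 72507377561299845120000 * v ^ 4 + 284165646336 * v ^ 2 * k ^ 2 - 3157396070400 * v ^ 2) * hg + (1150286532158926356480 * v ^ 4 * g * k ^ 2 - 12908771083116840222720 * v ^ 4 * g + 1992355262752191676416 * v ^ 4 * k ^ 2 - 22358653504219039924224 * v ^ 4 + 947218821120 * v ^ 2 * g + 1641845956608 * v ^ 2) * hk +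 (1222543758458880 * v ^ 3 * g + 2117508484202496 * v ^ 3 + 105246535680 * v ^ 2 * g + 182292397056 * v ^ 2 - 11616 * v - 1) * hv

theorem jj (hv : (11616 : B) * v = 1) (hg : g ^ 2 = 3) (hk : k ^ 2 = 11) : (1 - 2 * W v g k) * (Wq 7744 0 1760 (-352) v g k) = 1 := by
  simp only [W, Wq]
  push_cast
  linear_combination (18399744 * v ^ 2 * k ^ 2 - 61332480 * v ^ 2 * k) * hg + (-122664960 * v ^ 2 * g + 208530432 * v ^ 2) * hk + (352 * v * g * k - 1760 * v * k + 3872 * v + 1) * hv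

theorem a4 (hv : (11616 : B) * v = 1) (hg : g ^ 2 = 3) (hk : k ^ 2 = 11) : 4 * (27 * W v g k ^ 2 * (Wq 7744 0 1760 (-352) v g k) ^ 3) = Wq 23232 0 480 (-4320) v g k := by
  simp only [W, Wq]
  push_cast
  linear_combination (-3217584705339654144 * v ^ 5 * g ^ 3 * k ^ 5 + 21450564702264360960 * v ^ 5 * g ^ 3 * k ^ 4 - 35750941170440601600 * v ^ 5 * g ^ 3 * k ^ 3 + 58989052931226992640 * v ^ 5 * g ^ 2 * k ^ 5 - 180899762322429444096 * v ^ 5 * g ^ 2 * k ^ 4 - 760303348891370127360 * v ^ 5 * g ^ 2 * k ^ 3 + 2359562117249079705600 * v ^ 5 * g ^ 2 * k ^ 2 - 420788577576085880832 * v ^ 5 * g * k ^ 5 - 26217356858323107840 * v ^ 5 * g * k ^ 4 + 9529135306105172262912 * v ^ 5 * g * k ^ 3 - 314608282299877294080 * v ^ 5 * g * k ^ 2 - 51910366579479753523200 * v ^ 5 * g * k + 1517627452685203537920 * v ^ 5 * k ^ 5 + 3497157065292499648512 * v ^ 5 * k ^ 4 - 34969187256846967111680 * v ^ 5 * k ^ 3 - 74016841882417798053888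 * v ^ 5 * k ^ 2 + 204180775212620363857920 * v ^ 5 * k + 380676021582851525836800 * v ^ 5) * hg + (-3273356173565541482496 * v ^ 5 * g * k ^ 3 - 10267670304150540779520 * v ^ 5 * g * k ^ 2 + 36697149413418262855680 * v ^ 5 * g * k + 115356370176621674496000 * v ^ 5 * g + 5670099269631879413760 * v ^ 5 * k ^ 3 + 17790621684842455105536 * v ^ 5 * k ^ 2 - 63550078559215870279680 * v ^ 5 * k - 199912589516085361901568 * v ^ 5) * hk + (-6771011585310720 * v ^ 4 * g * k + 752334620590080 * v ^ 4 * k + 36412995636559872 * v ^ 4 - 582903889920 * v ^ 3 * g * k + 64767098880 * v ^ 3 * k + 3134727585792 * v ^ 3 - 50181120 * v ^ 2 * g * k + 5575680 * v ^ 2 * k + 269862912 * v ^ 2 - 4320 * v * g * k + 480 * v * k + 23232 * v) * hv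

theorem mu (hv : (11616 : B) * v = 1) (hg : g ^ 2 = 3) (hk : k ^ 2 = 11) : (1 + 4 * W v g k) * (Wq 7744 0 1760 (-352) v g k) = 2 * (Wq 0 0 2640 (-528) v g k) := by
  simp only [W, Wq]
  push_cast
  linear_combination (-36799488 * v ^ 2 * k ^ 2 + 122664960 * v ^ 2 * k) * hg + (245329920 * v ^ 2 * g - 417060864 * v ^ 2) * hk + (-704 * v * g * k + 3520 * v * k - 7744 * v) * hv

theorem ne_a (hv : (11616 : B) * v = 1) (hg : g ^ 2 = 3) (hk : k ^ 2 = 11) : ca (Wq 23232 0 480 (-4320) v g k) * (Wq (-1374560) 278784 (-147136) 209088 v g k) = 415 := by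
  simp only [Wq, ca]
  push_cast
  linear_combination (-5419560960 * v ^ 2 * k ^ 2 - 7226081280 * v ^ 2 * k) * hg + (4415938560 * v ^ 2 * g - 16682434560 * v ^ 2) * hk + (5645376 * v * g * k + 7527168 * v * g - 3972672 * v * k - 32292480 * v + 415) * hv

theorem ne_b (hv : (11616 : B) * v = 1) (hg : g ^ 2 = 3) (hk : k ^ 2 = 11) : cb (Wq 23232 0 480 (-4320) v g k) * (Wq (-2299916817) (-556778475) 293971755 442088955 v g k) = 1163411 := by
  simp only [Wq, cb]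
  push_cast
  linear_combination (8250440913792000 * v ^ 3 * g * k ^ 3 - 10390822611840000 * v ^ 3 * g * k ^ 2 + 3652787166336000 * v ^ 3 * k ^ 3 - 129350971520179200 * v ^ 3 * k ^ 2 + 111759069869568000 * v ^ 3 * k + 34376837140800 * v ^ 2 * k ^ 2 - 43295094216000 * v ^ 2 * k) * hg + (23634020374272000 * v ^ 3 * g * k - 70910076051302400 * v ^ 3 * g + 11026092591360000 * v ^ 3 * k - 382026445655500800 * v ^ 3 + 19039595097600 * v ^ 2 * g + 100590595459200 * v ^ 2) * hk + (81595470242880 * v ^ 2 * g * k - 93019848292800 * v ^ 2 * g + 48548035039680 * v ^ 2 * k - 468630802461888 * v ^ 2 - 23872803570 * v * g * k + 30066037650 * v * g - 15874474770 * v * k + 137709690294 * v + 1163411) * hv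

theorem ne_m (hv : (11616 : B) * v = 1) (hg : g ^ 2 = 3) (hk : k ^ 2 = 11) (hi : i ^ 2 = -1) : (k - g * i) * (Wq 0 0 2640 (-528) v g k) * ((k + g * i) * (Wq 0 0 5280 1056 v g k)) = 14 := by
  simp only [Wq]
  push_cast
  linear_combination (557568 * v ^ 2 * g ^ 4 * k ^ 2 - 13939200 * v ^ 2 * g ^ 2 * k ^ 2) * hi + (-557568 * v ^ 2 * g ^ 2 * k ^ 2 - 557568 * v ^ 2 * k ^ 4 + 12266496 * v ^ 2 * k ^ 2) * hg + (12266496 * v ^ 2 * k ^ 2 + 171730944 * v ^ 2) * hk + (162624 * v + 14) * hv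

theorem dal (hv : (11616 : B) * v = 1) (hg : g ^ 2 = 3) (hk : k ^ 2 = 11) : T8.ev g k i dd.al = 11 ^ 2 * ca (Wq 23232 0 480 (-4320) v g k) := by
  rw [show dd.al = ⟨-1815, 0, 30, -270, 0, 0, 0, 0⟩ from rfl]
  simp only [T8.ev, Wq, ca]
  push_cast
  linear_combination (270 * g * k - 30 * k - 1452) * hv

theorem dbe (hv : (11616 : B) * v = 1) (hg : g ^ 2 = 3) (hk : k ^ 2 = 11) : T8.ev g k i dd.be = 11 ^ 3 * cb (Wq 23232 0 480 (-4320) v g k) := by
  rw [show dd.be = ⟨35382, -450, -770, 6930, 0, 0, 0, 0⟩ from rfl]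
  simp only [T8.ev, Wq, cb]
  push_cast
  linear_combination (-24839654400 * v ^ 2 * k ^ 2) * hg + (5519923200 * v ^ 2 * g - 74825625600 * v ^ 2) * hk + (22999680 * v * g * k + 5227200 * v * g - 2555520 * v * k - 132701184 * v - 6930 * g * k + 450 * g + 770 * k + 36492) * hv

theorem h2 (hv : (11616 : B) * v = 1) (hg : g ^ 2 = 3) (hk : k ^ 2 = 11) : (Wq 0 0 2640 (-528) v g k) ^ 2 = ((7392) * 1 + (-2640) * g + (0) * k + (0) * (g * k)) * v ^ 1 := by
  simp only [Wq]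
  push_cast
  linear_combination (278784 * v ^ 2 * k ^ 2) * hg + (-2787840 * v ^ 2 * g + 7805952 * v ^ 2) * hk + (-2640 * v * g + 7392 * v) * hv

theorem h4 (hv : (11616 : B) * v = 1) (hg : g ^ 2 = 3) (hk : k ^ 2 = 11) : (Wq 0 0 2640 (-528) v g k) ^ 4 = ((6504) * 1 + (-3360) * g + (0) * k + (0) * (g * k)) * v ^ 1 := by
  have e : (Wq 0 0 2640 (-528) v g k) ^ 4 = ((Wq 0 0 2640 (-528) v g k) ^ 2) ^ 2 := by ring
  rw [e, h2 hv hg hk]
  linear_combination (6969600 * v ^ 2) * hg + (-3360 * v * g + 6504 * v) * hv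

theorem h6 (hv : (11616 : B) * v = 1) (hg : g ^ 2 = 3) (hk : k ^ 2 = 11) : (Wq 0 0 2640 (-528) v g k) ^ 6 = ((74688768) * 1 + (-42007680) * g + (0) * k + (0) * (g * k)) * v ^ 2 := by
  have e : (Wq 0 0 2640 (-528) v g k) ^ 6 = ((Wq 0 0 2640 (-528) v g k) ^ 2) * ((Wq 0 0 2640 (-528) v g k) ^ 4) := by ring
  rw [e, h2 hv hg hk, h4 hv hg hk]
  linear_combination (8870400 * v ^ 2) * hg

theorem t4 (hg : g ^ 2 = 3) (hk : k ^ 2 = 11) (hi : i ^ 2 = -1) : (k - g * i) ^ 4 = (-68) * 1 + (-32) * (g * k * i) := by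
  linear_combination (g ^ 4 * i ^ 2 - g ^ 4 - 4 * g ^ 3 * k * i + 6 * g ^ 2 * k ^ 2) * hi + (g ^ 2 + 4 * g * k * i - 6 * k ^ 2 + 3) * hg + (-4 * g * k * i + k ^ 2 - 7) * hk

theorem t6 (hg : g ^ 2 = 3) (hk : k ^ 2 = 11) (hi : i ^ 2 = -1) : (k - g * i) ^ 6 = (-2656) * 1 + (-120) * (g * k * i) := by
  linear_combination (g ^ 6 * i ^ 4 - g ^ 6 * i ^ 2 + g ^ 6 - 6 * g ^ 5 * k * i ^ 3 + 6 * g ^ 5 * k * i + 15 * g ^ 4 * k ^ 2 * i ^ 2 - 15 * g ^ 4 * k ^ 2 - 20 * g ^ 3 * k ^ 3 * i + 15 * g ^ 2 * k ^ 4) * hi + (-g ^ 4 - 6 * g ^ 3 * k * i + 15 * g ^ 2 * k ^ 2 - 3 * g ^ 2 + 20 * g * k ^ 3 * i - 18 * g * k * i - 15 * k ^ 4 + 45 * k ^ 2 - 9) * hg + (-6 * g * k ^ 3 * i - 6 * g * k * i + k ^ 4 - 34 * k ^ 2 - 239) * hk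

theorem dal' (hv : (11616 : B) * v = 1) (hg : g ^ 2 = 3) (hk : k ^ 2 = 11) (hi : i ^ 2 = -1) : T8.ev g k i dd.al' = 11 ^ 2 * (ca (Wq 23232 0 480 (-4320) v (-g) k) * ((k - g * i) * (Wq 0 0 2640 (-528) v g k)) ^ 4) := by
  rw [show dd.al' = ⟨69105, -35700, 14790, -9690, -150480, 76560, -50400, 32520⟩ from rfl, mul_pow, t4 hg hk hi, h4 hv hg hk]
  simp only [T8.ev, Wq, ca]
  push_cast
  linear_combination (-337217126400 * v ^ 2 * g * k ^ 2 * i + 615287439360 * v ^ 2 * k ^ 2 * i - 1813478768640 * v ^ 2 * k * i - 716586393600 * v ^ 2 * k + 351267840 * v * k * i) * hg + (-939122933760 * v ^ 2 * g * i + 1845862318080 * v ^ 2 * i) * hk + (302201856 * v * g * k * i + 112559040 * v * g * k - 889320960 * v * g * i - 331752960 * v * g - 468357120 * v * k * i - 171800640 * v * k + 1747975680 * v * i + 642178944 * v - 32520 * g * k * i + 9690 * g * k - 76560 * g * i + 35700 * g + 50400 * k * i - 14790 * k + 150480 * i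 - 69105) * hv

theorem dbe' (hv : (11616 : B) * v = 1) (hg : g ^ 2 = 3) (hk : k ^ 2 = 11) (hi : i ^ 2 = -1) : T8.ev g k i dd.be' = 11 ^ 3 * (cb (Wq 23232 0 480 (-4320) v (-g) k) * ((k - g * i) * (Wq 0 0 2640 (-528) v g k)) ^ 6) := by
  rw [show dd.be' = ⟨-50901576, 28595160, -16058840, 9551640, 14241150, -7981050, 3875850, -2299770⟩ from rfl, mul_pow, t6 hg hk hi, h6 hv hg hk]
  simp only [T8.ev, Wq, cb]
  push_cast
  linear_combination (-125214750401495040000 * v ^ 4 * g ^ 2 * k ^ 3 * i + 194803682072592384000 * v ^ 4 * g * k ^ 3 * i - 1346754204318302208000 * v ^ 4 * g * k ^ 2 * i - 2771419808886423552000 * v ^ 4 * g * k ^ 2 - 327716960729038848000 * v ^ 4 * k ^ 3 * i + 2244861180993916108800 * v ^ 4 * k ^ 2 * i + 4311654829873378099200 * v ^ 4 * k ^ 2 - 3621272416055879270400 * v ^ 4 * k * i - 29808159722245088870400 * v ^ 4 * k + 521728126672896000 * v ^ 3 * g * k ^ 2 * i - 869651800488345600 * v ^ 3 *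 k ^ 2 * i + 2805737925663129600 * v ^ 3 * k * i + 11547582537026764800 * v ^ 3 * k - 362311199078400 * v ^ 2 * k * i) * hg + (587159554639527936000 * v ^ 4 * g * k * i - 3774206997729430732800 * v ^ 4 * g * i - 7253468730802726502400 * v ^ 4 * g - 983150882187116544000 * v ^ 4 * k * i + 6734583542981748326400 * v ^ 4 * i + 12995798142688218316800 * v ^ 4 + 1462115314203033600 * v ^ 3 * g * i - 2608955401465036800 * v ^ 3 * i) * hk + (1110304837249597440 * v ^ 3 * g * k * i + 4277398485364899840 * v ^ 3 * g * k - 3574059656940748800 * v ^ 3 * g * i - 13768852058729349120 * v ^ 3 * g - 1866260068201267200 * v ^ 3 * k * i - 7191441249117143040 * v ^ 3 * k + 6377446536914534400 * v ^ 3 * i + 24574747064457756672 * v ^ 3 - 333870346782720 * v ^ 2 * g * k * i - 1288816692387840 * v ^ 2 * g * k + 1076894696908800 * v ^ 2 * g * i + 4160767966248960 * v ^ 2 * g + 563959513497600 * v ^ 2 * k * i + 2166842662871040 *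 v ^ 2 * k - 1921579104614400 * v ^ 2 * i - 7389663675457536 * v ^ 2 + 26714128320 * v * g * k * i - 110951850240 * v * g * k + 92707876800 * v * g * i - 332161378560 * v * g - 45021873600 * v * k * i + 186539485440 * v * k - 165425198400 * v * i + 591272706816 * v + 2299770 * g * k * i - 9551640 * g * k + 7981050 * g * i - 28595160 * g - 3875850 * k * i + 16058840 * k - 14241150 * i + 50901576) * hv

end ring

section wo

variable {p : ℕ} [hp : Fact p.Prime] {v g k i : WO p}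

theorem Zeq (hv : (11616 : WO p) * v = 1) (hg : g ^ 2 = 3) (hk : k ^ 2 = 11) : 4 * Zw (W v g k) = Wq 23232 0 480 (-4320) v g k := by
  rw [Zw, Jw_eq (jj hv hg hk)]; exact a4 hv hg hk

theorem Meq (hv : (11616 : WO p) * v = 1) (hg : g ^ 2 = 3) (hk : k ^ 2 = 11) : MUw (W v g k) = 2 * (Wq 0 0 2640 (-528) v g k) := by
  rw [MUw, Jw_eq (jj hv hg hk)]; exact mu hv hg hk

theorem iso (h3 : 3 < p) (hne : ∀ q ∈ ([2, 3, 5, 7, 11] : List ℕ), p ≠ q) (hv : (11616 : WO p) * v = 1) (hg : g ^ 2 = 3) (hk : k ^ 2 = 11) (hi : i ^ 2 = -1) :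
    ∃ β M : WO p, β ^ 2 = ((11 : ℕ) : WO p) ∧ 2 * M = (β - g * i) * MUw (W v g k) ∧
      DW (SW p) (W v g k) (W v (-g) k) M 7 := by
  refine ⟨k, (k - g * i) * (Wq 0 0 2640 (-528) v g k), ?_, ?_, ?_⟩
  · rw [hk]; push_cast; rfl
  · rw [Meq hv hg hk]; ring
  · unfold DW
    rw [Zeq hv hg hk, Zeq hv (by rw [neg_sq]; exact hg) hk]
    have := charZ (p := p)
    refine LD.dat (SW p) dd dd_O dd_N dd_F dd_D dd_L (g := g) (q := k) (i := i)
      (by rw [hg, show dd.A = 3 from rfl]; push_cast; rfl) (by rw [hk, show dd.B = 11 from rfl]; push_cast; rfl)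
      (by rw [hi, show dd.C = -1 from rfl]; push_cast; rfl) (D := (11 : WO p))
      (dal hv hg hk) (dbe hv hg hk) (dal' hv hg hk hi) (dbe' hv hg hk hi) (k2_of h3) ?_ ?_ ?_ ?_ ?_
    · have := red_int_ne (p := p) (n := 11) (by
    have e : (11 : ℤ) = (((11 : ℕ) : ℤ) ^ 1) := by norm_num
    rw [e]
    exact nd_pow (p := p) (q := 11) (by norm_num) (hne 11 (by simp)) 1)
      exact_mod_cast this
    · exact red_ne_mul (n := 14) (by push_cast; exact ne_m hv hg hk hi) (by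
    have e : (14 : ℤ) = (((2 : ℕ) : ℤ) ^ 1) * ((((7 : ℕ) : ℤ) ^ 1)) := by norm_num
    rw [e]
    exact nd_mul' (nd_pow (p := p) (q := 2) (by norm_num) (hne 2 (by simp)) 1) (nd_pow (p := p) (q := 7) (by norm_num) (hne 7 (by simp)) 1))
    · rw [show dd.c2 = 196 from rfl]
      exact red_int_ne (by
    have e : (196 : ℤ) = (((2 : ℕ) : ℤ) ^ 2) * ((((7 : ℕ) : ℤ) ^ 2)) := by norm_num
    rw [e]
    exact nd_mul' (nd_pow (p := p) (q := 2) (by norm_num) (hne 2 (by simp)) 2) (nd_pow (p := p) (q := 7) (by norm_num) (hne 7 (by simp)) 2))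
    · rw [show dd.r1 = 487018224 from rfl]
      exact red_int_ne (by
    have e : (487018224 : ℤ) = (((2 : ℕ) : ℤ) ^ 4) * ((((3 : ℕ) : ℤ) ^ 3) * ((((7 : ℕ) : ℤ) ^ 1) * ((((11 : ℕ) : ℤ) ^ 5)))) := by norm_num
    rw [e]
    exact nd_mul' (nd_pow (p := p) (q := 2) (by norm_num) (hne 2 (by simp)) 4) (nd_mul' (nd_pow (p := p) (q := 3) (by norm_num) (hne 3 (by simp)) 3) (nd_mul' (nd_pow (p := p) (q := 7) (by norm_num) (hne 7 (by simp)) 1) (nd_pow (p := p) (q := 11) (by norm_num) (hne 11 (by simp)) 5))))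
    · rw [show dd.r2 = 29516256 from rfl]
      exact red_int_ne (by
    have e : (29516256 : ℤ) = (((2 : ℕ) : ℤ) ^ 5) * ((((3 : ℕ) : ℤ) ^ 2) * ((((7 : ℕ) : ℤ) ^ 1) * ((((11 : ℕ) : ℤ) ^ 4)))) := by norm_num
    rw [e]
    exact nd_mul' (nd_pow (p := p) (q := 2) (by norm_num) (hne 2 (by simp)) 5) (nd_mul' (nd_pow (p := p) (q := 3) (by norm_num) (hne 3 (by simp)) 2) (nd_mul' (nd_pow (p := p) (q := 7) (by norm_num) (hne 7 (by simp)) 1) (nd_pow (p := p) (q := 11) (by norm_num) (hne 11 (by simp)) 4))))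

theorem bw (h3 : 3 < p) (hne : ∀ q ∈ ([2, 3, 5, 7, 11] : List ℕ), p ≠ q) (hno : ∀ q ∈ ([83, 107, 131] : List ℕ), p ≠ q) (hv : (11616 : WO p) * v = 1) (hg : g ^ 2 = 3) (hk : k ^ 2 = 11) (hi : i ^ 2 = -1) :
    BA 11 7 (g * i) (W v g k) (W v (-g) k) := by
  refine ⟨?_, ?_, iso h3 hne hv hg hk hi⟩
  · rw [Zeq hv hg hk]
    exact red_ne_mul (n := 415) (by push_cast; exact ne_a hv hg hk) (by
    have e : (415 : ℤ) = (((5 : ℕ) : ℤ) ^ 1) * ((((83 : ℕ) : ℤ) ^ 1)) := by norm_num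
    rw [e]
    exact nd_mul' (nd_pow (p := p) (q := 5) (by norm_num) (hne 5 (by simp)) 1) (nd_pow (p := p) (q := 83) (by norm_num) (hno 83 (by simp)) 1))
  · rw [Zeq hv hg hk]
    exact red_ne_mul (n := 1163411) (by push_cast; exact ne_b hv hg hk) (by
    have e : (1163411 : ℤ) = (((83 : ℕ) : ℤ) ^ 1) * ((((107 : ℕ) : ℤ) ^ 1) * ((((131 : ℕ) : ℤ) ^ 1))) := by norm_num
    rw [e]
    exact nd_mul' (nd_pow (p := p) (q := 83) (by norm_num) (hno 83 (by simp)) 1) (nd_mul' (nd_pow (p := p) (q := 107) (by norm_num) (hno 107 (by simp)) 1) (nd_pow (p := p) (q := 131) (by norm_num) (hno 131 (by simp)) 1)))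

theorem data (h3 : 3 < p) (hne : ∀ q ∈ ([2, 3, 5, 7, 11] : List ℕ), p ≠ q) : ∃ v g k i μ : WO p, (11616 : WO p) * v = 1 ∧ g ^ 2 = 3 ∧ k ^ 2 = 11 ∧
    i ^ 2 = -1 ∧ ((-400 : ℤ) : WO p) * μ = 1 := by
  obtain ⟨v, hv⟩ := (unit_int (p := p) (n := 11616) (by
    have e : (11616 : ℤ) = (((2 : ℕ) : ℤ) ^ 5) * ((((3 : ℕ) : ℤ) ^ 1) * ((((11 : ℕ) : ℤ) ^ 2))) := by norm_num
    rw [e]
    exact nd_mul' (nd_pow (p := p) (q := 2) (by norm_num) (hne 2 (by simp)) 5) (nd_mul' (nd_pow (p := p) (q := 3) (by norm_num) (hne 3 (by simp)) 1) (nd_pow (p := p) (q := 11) (by norm_num) (hne 11 (by simp)) 2)))).exists_right_inv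
  obtain ⟨μ, hμ⟩ := (unit_int (p := p) (n := -400) (by
    rw [dvd_neg]
    have e : (400 : ℤ) = (((2 : ℕ) : ℤ) ^ 4) * ((((5 : ℕ) : ℤ) ^ 2)) := by norm_num
    rw [e]
    exact nd_mul' (nd_pow (p := p) (q := 2) (by norm_num) (hne 2 (by simp)) 4) (nd_pow (p := p) (q := 5) (by norm_num) (hne 5 (by simp)) 2))).exists_right_inv
  obtain ⟨g, hg⟩ := wo_isqrt p (by omega) (d := 3) (by
    have e : (3 : ℤ) = (((3 : ℕ) : ℤ) ^ 1) := by norm_num
    rw [e]
    exact nd_pow (p := p) (q := 3) (by norm_num) (hne 3 (by simp)) 1)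
  obtain ⟨k, hk⟩ := wo_isqrt p (by omega) (d := 11) (by
    have e : (11 : ℤ) = (((11 : ℕ) : ℤ) ^ 1) := by norm_num
    rw [e]
    exact nd_pow (p := p) (q := 11) (by norm_num) (hne 11 (by simp)) 1)
  obtain ⟨i, hi⟩ := wo_isqrt p (by omega) (d := -1) (by rw [dvd_neg]; exact nd_one)
  refine ⟨v, g, k, i, μ, ?_, ?_, ?_, ?_, hμ⟩
  · exact_mod_cast hv
  · exact_mod_cast hg
  · exact_mod_cast hk
  · rw [hi]; push_cast; rfl

theorem u4 (h3 : 3 < p) (hne : ∀ q ∈ ([2, 3, 5, 7, 11] : List ℕ), p ≠ q) (hv : (11616 : WO p) * v = 1) (hg : g ^ 2 = 3) (hk : k ^ 2 = 11) :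
    U4 (W v g k) (W v (-g) (-k)) (W v g (-k)) (W v (-g) k) := by
  refine u_4 (q4 hv hg hk) (u3_of h3) ?_
  have := unit_int (p := p) (n := -396) (by
    rw [dvd_neg]
    have e : (396 : ℤ) = (((2 : ℕ) : ℤ) ^ 2) * ((((3 : ℕ) : ℤ) ^ 2) * ((((11 : ℕ) : ℤ) ^ 1))) := by norm_num
    rw [e]
    exact nd_mul' (nd_pow (p := p) (q := 2) (by norm_num) (hne 2 (by simp)) 2) (nd_mul' (nd_pow (p := p) (q := 3) (by norm_num) (hne 3 (by simp)) 2) (nd_pow (p := p) (q := 11) (by norm_num) (hne 11 (by simp)) 1)))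
  push_cast at this ⊢
  have e : (-400 : WO p) + 4 = -396 := by norm_num
  rw [e]; exact this

theorem ord (h : legendreSym p (-(3 * 11)) = 1) : ∀ q ∈ ([83, 107, 131] : List ℕ), p ≠ q := by
  intro q hq
  simp only [List.mem_cons, List.not_mem_nil, or_false] at hq
  rcases hq with rfl | rfl | rfl <;> (rintro rfl; revert h; norm_num)

end wo

end Pool.Agent.H578.CM.F11
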