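import Pool.Agent.H578.CM.D.F19m
import Pool.Agent.H578.CM.Dir

set_option autoImplicit false
set_option linter.unusedSectionVars false
set_option linter.unusedVariables false
set_option linter.unusedTactic false
set_option linter.unreachableTactic false
set_option maxHeartbeats 4000000
set_option maxRecDepth 100000

namespace Pool.Agent.H578.CM.F19

open Finset Pool.Agent.H546 Pool.Agent.H547 Pool.Agent.H578.CM
open Pool.Agent.Q267.CDE (R)

section fin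

variable {p : ℕ} [hp : Fact p.Prime]

theorem neb (hpb : p ≠ 19) : ¬ ((19 : ℕ) : ℤ) ∣ (p : ℤ) := by
  intro h
  exact hpb ((Nat.prime_dvd_prime_iff_eq (by norm_num) hp.out).mp (by exact_mod_cast h)).symm

theorem nep (n : ℕ) (hn : n.Prime) (h : p ≠ n) : ¬ (p : ℤ) ∣ (n : ℤ) := by
  intro h1
  exact h ((Nat.prime_dvd_prime_iff_eq hp.out hn).mp (by exact_mod_cast h1))

theorem n3b (h3 : 3 < p) (hpb : p ≠ 19) : ¬ (p : ℤ) ∣ (3 * 19) := by
  have e : (3 * 19 : ℤ) = ((3 : ℕ) : ℤ) * ((19 : ℕ) : ℤ) := by norm_num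
  rw [e]
  exact nd_mul' (nep 3 (by norm_num) (by omega)) (nep 19 (by norm_num) hpb)

theorem mods (h3 : 3 < p) : p % 2 = 1 ∧ p % 3 ≠ 0 := by
  constructor
  · rcases hp.out.eq_two_or_odd with h | h
    · omega
    · exact h
  · intro h0
    have := (Nat.prime_dvd_prime_iff_eq Nat.prime_three hp.out).mp (Nat.dvd_of_mod_eq_zero h0)
    omega

theorem lb [Fact (Nat.Prime 19)] (h3 : 3 < p) : legendreSym p ((19 : ℕ) : ℤ) =
    (if p % 4 = 1 then 1 else -1) * legendreSym 19 p :=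
  leg_b3 (by omega) 19 (by norm_num)

theorem c1_b (hpb : p ≠ 19) [Fact (Nat.Prime 19)] {x y : ℤ} (h : (p : ℤ) = x ^ 2 + 3 * 19 * y ^ 2) :
    legendreSym 19 p = 1 := by
  rw [leg_form 19 (n := (p : ℤ)) (a := 1) (x := x) (t := 3 * y ^ 2) (by rw [h]; push_cast; ring) (neb hpb)]
  norm_num

theorem c1_4 (h3 : 3 < p) {x y : ℤ} (h : (p : ℤ) = x ^ 2 + 3 * 19 * y ^ 2) : p % 4 = 1 := by
  have hx := sqm8 x
  have hy := sqm8 y
  have hm := (mods h3).1
  omega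

theorem c1_3 (h3 : 3 < p) {x y : ℤ} (h : (p : ℤ) = x ^ 2 + 3 * 19 * y ^ 2) : p % 3 = 1 := by
  have hx := sqm3 x
  have hy := sqm3 y
  have hm := (mods h3).2
  omega

theorem c1_A (h3 : 3 < p) (hpb : p ≠ 19) {x y : ℤ} (h : (p : ℤ) = x ^ 2 + 3 * 19 * y ^ 2) : legendreSym p 3 = 1 := by
  have h4 := c1_4 h3 h
  have h3' := c1_3 h3 h
  rw [leg3' (by omega) (by omega), if_pos (by omega), if_pos (by omega)]
  norm_num

theorem c1_B (h3 : 3 < p) (hpb : p ≠ 19) {x y : ℤ} (h : (p : ℤ) = x ^ 2 + 3 * 19 * y ^ 2) : legendreSym p 19 = 1 := by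
  have : Fact (Nat.Prime 19) := ⟨by norm_num⟩
  have h4 := c1_4 h3 h
  have h1 := lb (p := p) h3
  rw [c1_b hpb h, if_pos (by omega)] at h1
  have e : legendreSym p 19 = legendreSym p ((19 : ℕ) : ℤ) := by norm_num
  rw [e, h1]
  norm_num

theorem c3_b (hpb : p ≠ 19) [Fact (Nat.Prime 19)] {x y : ℤ} (h : (p : ℤ) = 3 * x ^ 2 + 19 * y ^ 2) :
    legendreSym 19 p = -1 := by
  rw [leg_form 19 (n := (p : ℤ)) (a := 3) (x := x) (t := 1 * y ^ 2) (by rw [h]; push_cast; ring) (neb hpb)]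
  norm_num

theorem c3_4 (h3 : 3 < p) {x y : ℤ} (h : (p : ℤ) = 3 * x ^ 2 + 19 * y ^ 2) : p % 4 = 3 := by
  have hx := sqm8 x
  have hy := sqm8 y
  have hm := (mods h3).1
  omega

theorem c3_3 (h3 : 3 < p) {x y : ℤ} (h : (p : ℤ) = 3 * x ^ 2 + 19 * y ^ 2) : p % 3 = 1 := by
  have hx := sqm3 x
  have hy := sqm3 y
  have hm := (mods h3).2
  omega

theorem c3_A (h3 : 3 < p) (hpb : p ≠ 19) {x y : ℤ} (h : (p : ℤ) = 3 * x ^ 2 + 19 * y ^ 2) : legendreSym p 3 = -1 := by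
  have h4 := c3_4 h3 h
  have h3' := c3_3 h3 h
  rw [leg3' (by omega) (by omega), if_neg (by omega), if_pos (by omega)]
  norm_num

theorem c3_B (h3 : 3 < p) (hpb : p ≠ 19) {x y : ℤ} (h : (p : ℤ) = 3 * x ^ 2 + 19 * y ^ 2) : legendreSym p 19 = 1 := by
  have : Fact (Nat.Prime 19) := ⟨by norm_num⟩
  have h4 := c3_4 h3 h
  have h1 := lb (p := p) h3
  rw [c3_b hpb h, if_neg (by omega)] at h1
  have e : legendreSym p 19 = legendreSym p ((19 : ℕ) : ℤ) := by norm_num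
  rw [e, h1]
  norm_num

theorem c2_b (hpb : p ≠ 19) [Fact (Nat.Prime 19)] {x y : ℤ} (h : 2 * (p : ℤ) = x ^ 2 + 3 * 19 * y ^ 2) :
    legendreSym 19 p = -1 := by
  have h1 := leg_form 19 (n := 2 * (p : ℤ)) (a := 1) (x := x) (t := 3 * y ^ 2) (by rw [h]; push_cast; ring)
    (by
      intro h2
      have hb := Nat.prime_iff_prime_int.mp (Fact.out : Nat.Prime 19)
      rcases hb.dvd_or_dvd h2 with h3 | h3
      · revert h3; norm_num
      · exact neb hpb h3)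
  rw [legendreSym.mul] at h1
  have e2 : legendreSym 19 2 = -1 := by norm_num
  have ea : legendreSym 19 1 = 1 := by norm_num
  rw [e2, ea] at h1
  linarith

theorem c2_4 (h3 : 3 < p) {x y : ℤ} (h : 2 * (p : ℤ) = x ^ 2 + 3 * 19 * y ^ 2) : p % 4 = 1 := by
  have hx := sqm8 x
  have hy := sqm8 y
  have hm := (mods h3).1
  omega

theorem c2_3 (h3 : 3 < p) {x y : ℤ} (h : 2 * (p : ℤ) = x ^ 2 + 3 * 19 * y ^ 2) : p % 3 = 2 := by
  have hx := sqm3 x
  have hy := sqm3 y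
  have hm := (mods h3).2
  omega

theorem c2_A (h3 : 3 < p) (hpb : p ≠ 19) {x y : ℤ} (h : 2 * (p : ℤ) = x ^ 2 + 3 * 19 * y ^ 2) : legendreSym p 3 = -1 := by
  have h4 := c2_4 h3 h
  have h3' := c2_3 h3 h
  rw [leg3' (by omega) (by omega), if_pos (by omega), if_neg (by omega)]
  norm_num

theorem c2_B (h3 : 3 < p) (hpb : p ≠ 19) {x y : ℤ} (h : 2 * (p : ℤ) = x ^ 2 + 3 * 19 * y ^ 2) : legendreSym p 19 = -1 := by
  have : Fact (Nat.Prime 19) := ⟨by norm_num⟩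
  have h4 := c2_4 h3 h
  have h1 := lb (p := p) h3
  rw [c2_b hpb h, if_pos (by omega)] at h1
  have e : legendreSym p 19 = legendreSym p ((19 : ℕ) : ℤ) := by norm_num
  rw [e, h1]
  norm_num

theorem c6_b (hpb : p ≠ 19) [Fact (Nat.Prime 19)] {x y : ℤ} (h : 2 * (p : ℤ) = 3 * x ^ 2 + 19 * y ^ 2) :
    legendreSym 19 p = 1 := by
  have h1 := leg_form 19 (n := 2 * (p : ℤ)) (a := 3) (x := x) (t := 1 * y ^ 2) (by rw [h]; push_cast; ring)
    (by
      intro h2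
      have hb := Nat.prime_iff_prime_int.mp (Fact.out : Nat.Prime 19)
      rcases hb.dvd_or_dvd h2 with h3 | h3
      · revert h3; norm_num
      · exact neb hpb h3)
  rw [legendreSym.mul] at h1
  have e2 : legendreSym 19 2 = -1 := by norm_num
  have ea : legendreSym 19 3 = -1 := by norm_num
  rw [e2, ea] at h1
  linarith

theorem c6_4 (h3 : 3 < p) {x y : ℤ} (h : 2 * (p : ℤ) = 3 * x ^ 2 + 19 * y ^ 2) : p % 4 = 3 := by
  have hx := sqm8 x
  have hy := sqm8 y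
  have hm := (mods h3).1
  omega

theorem c6_3 (h3 : 3 < p) {x y : ℤ} (h : 2 * (p : ℤ) = 3 * x ^ 2 + 19 * y ^ 2) : p % 3 = 2 := by
  have hx := sqm3 x
  have hy := sqm3 y
  have hm := (mods h3).2
  omega

theorem c6_A (h3 : 3 < p) (hpb : p ≠ 19) {x y : ℤ} (h : 2 * (p : ℤ) = 3 * x ^ 2 + 19 * y ^ 2) : legendreSym p 3 = 1 := by
  have h4 := c6_4 h3 h
  have h3' := c6_3 h3 h
  rw [leg3' (by omega) (by omega), if_neg (by omega), if_neg (by omega)]
  norm_num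

theorem c6_B (h3 : 3 < p) (hpb : p ≠ 19) {x y : ℤ} (h : 2 * (p : ℤ) = 3 * x ^ 2 + 19 * y ^ 2) : legendreSym p 19 = -1 := by
  have : Fact (Nat.Prime 19) := ⟨by norm_num⟩
  have h4 := c6_4 h3 h
  have h1 := lb (p := p) h3
  rw [c6_b hpb h, if_neg (by omega)] at h1
  have e : legendreSym p 19 = legendreSym p ((19 : ℕ) : ℤ) := by norm_num
  rw [e, h1]
  norm_num

theorem hneOf (h3 : 3 < p) (hpb : p ≠ 19) (hpm : ¬ (p : ℤ) ∣ -2704) (hs5 : p ≠ 5) (hs11 : p ≠ 11) :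
    ∀ q ∈ ([2, 3, 5, 11, 13, 19] : List ℕ), p ≠ q := by
  intro q hq
  simp only [List.mem_cons, List.not_mem_nil, or_false] at hq
  rcases hq with rfl | rfl | rfl | rfl | rfl | rfl
  · omega
  · omega
  · exact hs5
  · exact hs11
  · rintro rfl; exact hpm (by norm_num)
  · exact hpb

theorem small1 (h3 : 3 < p) (hpb : p ≠ 19) (hpm : ¬ (p : ℤ) ∣ -2704) (hP : p < 33) {wi : R p}
    (hwi : ((-2704 : ℤ) : R p) * wi = 1) {x y : ℤ} (h : (p : ℤ) = x ^ 2 + 3 * 19 * y ^ 2) :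
    AA p wi = ((4 * x ^ 2 - 2 * p : ℤ) : R p) := by
  obtain ⟨a, ha⟩ : ∃ a : ℕ, x ^ 2 = (a : ℤ) ^ 2 := ⟨x.natAbs, by simp⟩
  obtain ⟨c, hc⟩ : ∃ c : ℕ, y ^ 2 = (c : ℤ) ^ 2 := ⟨y.natAbs, by simp⟩
  rw [ha] at h ⊢
  rw [hc] at h
  clear ha hc x y
  replace h : p = a ^ 2 + 3 * 19 * c ^ 2 := by exact_mod_cast h
  have hx : a ≤ 5 := by
    by_contra h1
    have : 6 ≤ a := by omega
    nlinarith [Nat.zero_le (c ^ 2)]
  have hy : c ≤ 0 := by
    by_contra h1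
    have : 1 ≤ c := by omega
    nlinarith [Nat.zero_le (a ^ 2)]
  have h2 : p = (a ^ 2 + 3 * 19 * c ^ 2) / 1 := by omega
  interval_cases a <;> interval_cases c <;> norm_num at h2 <;> subst h2 <;> first
    | (exfalso; omega)
    | (have h0 := hp.out; norm_num at h0; done)
    | exact AA_direct hwi _ (by decide +kernel)

theorem small3 (h3 : 3 < p) (hpb : p ≠ 19) (hpm : ¬ (p : ℤ) ∣ -2704) (hP : p < 33) {wi : R p}
    (hwi : ((-2704 : ℤ) : R p) * wi = 1) {x y : ℤ} (h : (p : ℤ) = 3 * x ^ 2 + 19 * y ^ 2) :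
    AA p wi = ((2 * p - 12 * x ^ 2 : ℤ) : R p) := by
  obtain ⟨a, ha⟩ : ∃ a : ℕ, x ^ 2 = (a : ℤ) ^ 2 := ⟨x.natAbs, by simp⟩
  obtain ⟨c, hc⟩ : ∃ c : ℕ, y ^ 2 = (c : ℤ) ^ 2 := ⟨y.natAbs, by simp⟩
  rw [ha] at h ⊢
  rw [hc] at h
  clear ha hc x y
  replace h : p = 3 * a ^ 2 + 19 * c ^ 2 := by exact_mod_cast h
  have hx : a ≤ 3 := by
    by_contra h1
    have : 4 ≤ a := by omega
    nlinarith [Nat.zero_le (c ^ 2)]
  have hy : c ≤ 1 := by
    by_contra h1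
    have : 2 ≤ c := by omega
    nlinarith [Nat.zero_le (a ^ 2)]
  have h2 : p = (3 * a ^ 2 + 19 * c ^ 2) / 1 := by omega
  interval_cases a <;> interval_cases c <;> norm_num at h2 <;> subst h2 <;> first
    | (exfalso; omega)
    | (have h0 := hp.out; norm_num at h0; done)
    | exact AA_direct hwi _ (by decide +kernel)

theorem small2 (h3 : 3 < p) (hpb : p ≠ 19) (hpm : ¬ (p : ℤ) ∣ -2704) (hP : p < 33) {wi : R p}
    (hwi : ((-2704 : ℤ) : R p) * wi = 1) {x y : ℤ} (h : 2 * (p : ℤ) = x ^ 2 + 3 * 19 * y ^ 2) :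
    AA p wi = ((2 * x ^ 2 - 2 * p : ℤ) : R p) := by
  obtain ⟨a, ha⟩ : ∃ a : ℕ, x ^ 2 = (a : ℤ) ^ 2 := ⟨x.natAbs, by simp⟩
  obtain ⟨c, hc⟩ : ∃ c : ℕ, y ^ 2 = (c : ℤ) ^ 2 := ⟨y.natAbs, by simp⟩
  rw [ha] at h ⊢
  rw [hc] at h
  clear ha hc x y
  replace h : 2 * p = a ^ 2 + 3 * 19 * c ^ 2 := by exact_mod_cast h
  have hx : a ≤ 8 := by
    by_contra h1
    have : 9 ≤ a := by omega
    nlinarith [Nat.zero_le (c ^ 2)]
  have hy : c ≤ 1 := by
    by_contra h1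
    have : 2 ≤ c := by omega
    nlinarith [Nat.zero_le (a ^ 2)]
  have h2 : p = (a ^ 2 + 3 * 19 * c ^ 2) / 2 := by omega
  interval_cases a <;> interval_cases c <;> norm_num at h2 <;> subst h2 <;> first
    | (exfalso; omega)
    | (have h0 := hp.out; norm_num at h0; done)
    | exact AA_direct hwi _ (by decide +kernel)

theorem small6 (h3 : 3 < p) (hpb : p ≠ 19) (hpm : ¬ (p : ℤ) ∣ -2704) (hP : p < 33) {wi : R p}
    (hwi : ((-2704 : ℤ) : R p) * wi = 1) {x y : ℤ} (h : 2 * (p : ℤ) = 3 * x ^ 2 + 19 * y ^ 2) :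
    AA p wi = ((2 * p - 6 * x ^ 2 : ℤ) : R p) := by
  obtain ⟨a, ha⟩ : ∃ a : ℕ, x ^ 2 = (a : ℤ) ^ 2 := ⟨x.natAbs, by simp⟩
  obtain ⟨c, hc⟩ : ∃ c : ℕ, y ^ 2 = (c : ℤ) ^ 2 := ⟨y.natAbs, by simp⟩
  rw [ha] at h ⊢
  rw [hc] at h
  clear ha hc x y
  replace h : 2 * p = 3 * a ^ 2 + 19 * c ^ 2 := by exact_mod_cast h
  have hx : a ≤ 4 := by
    by_contra h1
    have : 5 ≤ a := by omega
    nlinarith [Nat.zero_le (c ^ 2)]
  have hy : c ≤ 1 := by
    by_contra h1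
    have : 2 ≤ c := by omega
    nlinarith [Nat.zero_le (a ^ 2)]
  have h2 : p = (3 * a ^ 2 + 19 * c ^ 2) / 2 := by omega
  interval_cases a <;> interval_cases c <;> norm_num at h2 <;> subst h2 <;> first
    | (exfalso; omega)
    | (have h0 := hp.out; norm_num at h0; done)
    | exact AA_direct hwi _ (by decide +kernel)

theorem zero5 [Fact (Nat.Prime 5)] {wi : R 5} (hwi : ((-2704 : ℤ) : R 5) * wi = 1) :
    AA 5 wi = ((0 : ℤ) : R 5) := AA_direct hwi 0 (by decide +kernel)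

section big

variable {v g k i : WO p}

theorem bw2 (h3 : 3 < p) (hne : ∀ q ∈ ([2, 3, 5, 11, 13, 19] : List ℕ), p ≠ q) (hno : ∀ q ∈ ([7, 59, 71, 107, 167, 179, 227] : List ℕ), p ≠ q)
    (hv : (36000 : WO p) * v = 1) (hg : g ^ 2 = 3) (hk : k ^ 2 = 19) (hi : i ^ 2 = -1) :
    BA 19 11 (g * i) (W v (-g) (-k)) (W v (-g) k) := by
  have := bw h3 hne hno hv (g := (-g)) (k := (-k)) (i := (-i)) (by rw [neg_sq]; exact hg) (by rw [neg_sq]; exact hk) (by rw [neg_sq]; exact hi)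
  simpa only [neg_neg, neg_mul_neg] using this

theorem iso2 (h3 : 3 < p) (hne : ∀ q ∈ ([2, 3, 5, 11, 13, 19] : List ℕ), p ≠ q)
    (hv : (36000 : WO p) * v = 1) (hg : g ^ 2 = 3) (hk : k ^ 2 = 19) (hi : i ^ 2 = -1) :
    ∃ β M : WO p, β ^ 2 = ((19 : ℕ) : WO p) ∧ 2 * M = (β - g * i) * MUw (W v (-g) (-k)) ∧
      DW (SW p) (W v (-g) (-k)) (W v (-g) k) M 11 := by
  have := iso h3 hne hv (g := (-g)) (k := (-k)) (i := (-i)) (by rw [neg_sq]; exact hg) (by rw [neg_sq]; exact hk) (by rw [neg_sq]; exact hi)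
  simpa only [neg_neg, neg_mul_neg] using this

end big

theorem n6q (h3 : 3 < p) (hq : p ≠ 11) : ¬ (p : ℤ) ∣ (6 * ((11 : ℕ) : ℤ)) := by
  have e : (6 * ((11 : ℕ) : ℤ)) = ((2 : ℕ) : ℤ) * (((3 : ℕ) : ℤ) * ((11 : ℕ) : ℤ)) := by norm_num
  rw [e]
  exact nd_mul' (nep 2 (by norm_num) (by omega)) (nd_mul' (nep 3 (by norm_num) (by omega))
    (nep 11 (by norm_num) hq))

theorem big1 (h3 : 3 < p) (hpb : p ≠ 19) (hpm : ¬ (p : ℤ) ∣ -2704) (hP : 33 ≤ p) {wi : R p}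
    (hwi : ((-2704 : ℤ) : R p) * wi = 1) {x y : ℤ} (h : (p : ℤ) = x ^ 2 + 3 * 19 * y ^ 2) :
    AA p wi = ((4 * x ^ 2 - 2 * p : ℤ) : R p) := by
  have hne := hneOf h3 hpb hpm (by omega) (by omega)
  have hl : legendreSym p (-(3 * 19)) = 1 := by
    have := leg_disc' (p := p) (n := 1) (l1 := 1) (l2 := 57) (x := x) (y := y) (by linarith)
      (fun hd => n3b h3 hpb (hd.trans (by norm_num))) (fun hd => n3b h3 hpb (hd.trans (by norm_num))) nd_one
    norm_num at this ⊢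
    exact this
  have hno := ord hl
  obtain ⟨v, g, k, i, μ, hv, hg, hk, hi, hμ⟩ := data h3 hne
  have F : (SW p).red (W v g k) ^ p = (SW p).red (W v g k) :=
    frob_Wq (n := 36000) (by push_cast; exact hv)
      (frob_p (p := p) (by omega) (g := g) (d := 3) (by push_cast; exact hg) (c1_A h3 hpb h))
      (frob_p (p := p) (by omega) (g := k) (d := 19) (by push_cast; exact hk) (c1_B h3 hpb h)) _ _ _ _
  exact a3b_1 h3 (q4 hv hg hk) (u4 h3 hne hv hg hk) (bw h3 hne hno hv hg hk hi) (bw2 h3 hne hno hv hg hk hi)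
    (by rw [mul_pow, hg, hi]; norm_num) hμ hwi
    F (by norm_num) (by norm_num) (n6q h3 (by omega)) (by nlinarith) (x := x) (y := y) (by push_cast; exact h)

theorem big3 (h3 : 3 < p) (hpb : p ≠ 19) (hpm : ¬ (p : ℤ) ∣ -2704) (hP : 33 ≤ p) {wi : R p}
    (hwi : ((-2704 : ℤ) : R p) * wi = 1) {x y : ℤ} (h : (p : ℤ) = 3 * x ^ 2 + 19 * y ^ 2) :
    AA p wi = ((2 * p - 12 * x ^ 2 : ℤ) : R p) := by
  have hne := hneOf h3 hpb hpm (by omega) (by omega)
  have hl : legendreSym p (-(3 * 19)) = 1 := by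
    have := leg_disc' (p := p) (n := 1) (l1 := 3) (l2 := 19) (x := x) (y := y) (by linarith)
      (fun hd => n3b h3 hpb (hd.trans (by norm_num))) (fun hd => n3b h3 hpb (hd.trans (by norm_num))) nd_one
    norm_num at this ⊢
    exact this
  have hno := ord hl
  obtain ⟨v, g, k, i, μ, hv, hg, hk, hi, hμ⟩ := data h3 hne
  have F : (SW p).red (W v g k) ^ p = (SW p).red (W v (-g) k) :=
    frob_Wq (n := 36000) (by push_cast; exact hv)
      (frob_m (p := p) (by omega) (g := g) (d := 3) (by push_cast; exact hg) (c3_A h3 hpb h))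
      (frob_p (p := p) (by omega) (g := k) (d := 19) (by push_cast; exact hk) (c3_B h3 hpb h)) _ _ _ _
  exact a3b_3 h3 (q4 hv hg hk) (u4 h3 hne hv hg hk) (bw h3 hne hno hv hg hk hi) (bw2 h3 hne hno hv hg hk hi)
    (by rw [mul_pow, hg, hi]; norm_num) hμ hwi
    F (by norm_num) (by norm_num) (n6q h3 (by omega)) (by nlinarith) (x := x) (y := y) (by push_cast; exact h)

theorem big2 (h3 : 3 < p) (hpb : p ≠ 19) (hpm : ¬ (p : ℤ) ∣ -2704) (hP : 33 ≤ p) {wi : R p}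
    (hwi : ((-2704 : ℤ) : R p) * wi = 1) {x y : ℤ} (h : 2 * (p : ℤ) = x ^ 2 + 3 * 19 * y ^ 2) :
    AA p wi = ((2 * x ^ 2 - 2 * p : ℤ) : R p) := by
  have hne := hneOf h3 hpb hpm (by omega) (by omega)
  have hl : legendreSym p (-(3 * 19)) = 1 := by
    have := leg_disc' (p := p) (n := 2) (l1 := 1) (l2 := 57) (x := x) (y := y) (by linarith)
      (fun hd => n3b h3 hpb (hd.trans (by norm_num))) (fun hd => n3b h3 hpb (hd.trans (by norm_num))) (nep 2 (by norm_num) (by omega))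
    norm_num at this ⊢
    exact this
  have hno := ord hl
  obtain ⟨v, g, k, i, μ, hv, hg, hk, hi, hμ⟩ := data h3 hne
  have F : (SW p).red (W v g k) ^ p = (SW p).red (W v (-g) (-k)) :=
    frob_Wq (n := 36000) (by push_cast; exact hv)
      (frob_m (p := p) (by omega) (g := g) (d := 3) (by push_cast; exact hg) (c2_A h3 hpb h))
      (frob_m (p := p) (by omega) (g := k) (d := 19) (by push_cast; exact hk) (c2_B h3 hpb h)) _ _ _ _
  exact a3b_2 h3 (q4 hv hg hk) (u4 h3 hne hv hg hk) (bw h3 hne hno hv hg hk hi) (bw2 h3 hne hno hv hg hk hi)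
    (by rw [mul_pow, hg, hi]; norm_num) hμ hwi
    F (by norm_num) (by norm_num) (n6q h3 (by omega)) (by nlinarith) (x := x) (y := y) (by push_cast; exact h)

theorem big6 (h3 : 3 < p) (hpb : p ≠ 19) (hpm : ¬ (p : ℤ) ∣ -2704) (hP : 33 ≤ p) {wi : R p}
    (hwi : ((-2704 : ℤ) : R p) * wi = 1) {x y : ℤ} (h : 2 * (p : ℤ) = 3 * x ^ 2 + 19 * y ^ 2) :
    AA p wi = ((2 * p - 6 * x ^ 2 : ℤ) : R p) := by
  have hne := hneOf h3 hpb hpm (by omega) (by omega)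
  have hl : legendreSym p (-(3 * 19)) = 1 := by
    have := leg_disc' (p := p) (n := 2) (l1 := 3) (l2 := 19) (x := x) (y := y) (by linarith)
      (fun hd => n3b h3 hpb (hd.trans (by norm_num))) (fun hd => n3b h3 hpb (hd.trans (by norm_num))) (nep 2 (by norm_num) (by omega))
    norm_num at this ⊢
    exact this
  have hno := ord hl
  obtain ⟨v, g, k, i, μ, hv, hg, hk, hi, hμ⟩ := data h3 hne
  have F : (SW p).red (W v g k) ^ p = (SW p).red (W v g (-k)) :=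
    frob_Wq (n := 36000) (by push_cast; exact hv)
      (frob_p (p := p) (by omega) (g := g) (d := 3) (by push_cast; exact hg) (c6_A h3 hpb h))
      (frob_m (p := p) (by omega) (g := k) (d := 19) (by push_cast; exact hk) (c6_B h3 hpb h)) _ _ _ _
  exact a3b_6 h3 (q4 hv hg hk) (u4 h3 hne hv hg hk) (bw h3 hne hno hv hg hk hi) (bw2 h3 hne hno hv hg hk hi)
    (by rw [mul_pow, hg, hi]; norm_num) hμ hwi
    F (by norm_num) (by norm_num) (n6q h3 (by omega)) (by nlinarith) (x := x) (y := y) (by push_cast; exact h)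

theorem bigz (h3 : 3 < p) (hpb : p ≠ 19) (hpm : ¬ (p : ℤ) ∣ -2704) (hs5 : p ≠ 5) (hs11 : p ≠ 11) {wi : R p}
    (hwi : ((-2704 : ℤ) : R p) * wi = 1) (hl : legendreSym p (-(3 * 19)) = -1) :
    AA p wi = ((0 : ℤ) : R p) := by
  have hne := hneOf h3 hpb hpm hs5 hs11
  obtain ⟨v, g, k, i, μ, hv, hg, hk, hi, hμ⟩ := data h3 hne
  exact a3b_0 (b := 19) (q := 11) h3 (q4 hv hg hk) (u4 h3 hne hv hg hk) (iso h3 hne hv hg hk hi)
    (iso2 h3 hne hv hg hk hi) (by rw [mul_pow, hg, hi]; norm_num) hμ hwi (by norm_num)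
    (n6q h3 (hne 11 (by simp))) (by push_cast; exact hl)

/-- **The Franel sum at `-2704`.** -/
theorem main (h3 : 3 < p) (hpb : p ≠ 19) (hpm : ¬ (p : ℤ) ∣ -2704) {wi : R p}
    (hwi : ((-2704 : ℤ) : R p) * wi = 1) :
    (∀ x y : ℤ, (p : ℤ) = x ^ 2 + 3 * 19 * y ^ 2 → AA p wi = ((4 * x ^ 2 - 2 * p : ℤ) : R p)) ∧
    (∀ x y : ℤ, (p : ℤ) = 3 * x ^ 2 + 19 * y ^ 2 → AA p wi = ((2 * p - 12 * x ^ 2 : ℤ) : R p)) ∧
    (∀ x y : ℤ, 2 * (p : ℤ) = x ^ 2 + 3 * 19 * y ^ 2 → AA p wi = ((2 * x ^ 2 - 2 * p : ℤ) : R p)) ∧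
    (∀ x y : ℤ, 2 * (p : ℤ) = 3 * x ^ 2 + 19 * y ^ 2 → AA p wi = ((2 * p - 6 * x ^ 2 : ℤ) : R p)) ∧
    (legendreSym p (-(3 * 19)) = -1 → AA p wi = ((0 : ℤ) : R p)) := by
  refine ⟨fun x y h => ?_, fun x y h => ?_, fun x y h => ?_, fun x y h => ?_, fun hl => ?_⟩
  · rcases Nat.lt_or_ge p 33 with hP | hP
    · exact small1 h3 hpb hpm hP hwi h
    · exact big1 h3 hpb hpm hP hwi h
  · rcases Nat.lt_or_ge p 33 with hP | hP
    · exact small3 h3 hpb hpm hP hwi h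
    · exact big3 h3 hpb hpm hP hwi h
  · rcases Nat.lt_or_ge p 33 with hP | hP
    · exact small2 h3 hpb hpm hP hwi h
    · exact big2 h3 hpb hpm hP hwi h
  · rcases Nat.lt_or_ge p 33 with hP | hP
    · exact small6 h3 hpb hpm hP hwi h
    · exact big6 h3 hpb hpm hP hwi h
  · have hs11 : p ≠ 11 := by
      rintro rfl
      revert hl
      norm_num
    by_cases hs5 : p = 5
    · subst hs5; exact zero5 hwi
    · exact bigz h3 hpb hpm hs5 hs11 hwi hl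

end fin

end Pool.Agent.H578.CM.F19
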