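import Pool.Agent.H578.CM.D.F19
import Pool.Agent.H578.CM.Q4a

set_option autoImplicit false
set_option linter.unusedSectionVars false
set_option linter.unusedVariables false
set_option maxHeartbeats 4000000
set_option maxRecDepth 100000

namespace Pool.Agent.H578.CM.F19

open Finset Pool.Agent.H546 Pool.Agent.H547 Pool.Agent.H578.CM
open Pool.Agent.Q267.CDE (R)

section ring

variable {B : Type*} [CommRing B] {v g k i : B}

def W (v g k : B) : B := Wq 3042000 (-1755000) (-702000) 405000 v g k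

theorem q4 (hv : (36000 : B) * v = 1) (hg : g ^ 2 = 3) (hk : k ^ 2 = 19) :
    Q4 (-2704) (W v g k) (W v (-g) (-k)) (W v (-g) k) (W v g (-k)) := by
  refine ⟨?_, ?_, ?_, ?_, ?_, ?_⟩ <;> simp only [W, Wq] <;> push_cast
  · linear_combination (1312200000000 * v ^ 2 * k ^ 2 - 24640200000000 * v ^ 2) * hg + (-5832000000 * v ^ 2) * hk + (-36000 * v - 1) * hv
  · linear_combination (1312200000000 * v ^ 2 * k ^ 2 - 24640200000000 * v ^ 2) * hg + (-5832000000 * v ^ 2) * hk + (-36000 * v - 1) * hv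
  · linear_combination (-1312200000000 * v ^ 2 * k ^ 2 + 11372400000000 * v ^ 2 * k - 24640200000000 * v ^ 2) * hg + (5832000000 * v ^ 2) * hk + (-1404000 * v * k + 6120000 * v + 1) * hv
  · linear_combination (-1312200000000 * v ^ 2 * k ^ 2 - 11372400000000 * v ^ 2 * k - 24640200000000 * v ^ 2) * hg + (5832000000 * v ^ 2) * hk + (1404000 * v * k + 6120000 * v + 1) * hv
  · linear_combination (1721868840000000000000000 * v ^ 4 * g ^ 2 * k ^ 4 - 29845726560000000000000000 * v ^ 4 * g ^ 2 * k ^ 3 + 193997222640000000000000000 * v ^ 4 * g ^ 2 * k ^ 2 - 560436420960000000000000000 * v ^ 4 * g ^ 2 * k + 607139456040000000000000000 * v ^ 4 * g ^ 2 - 5180912020800000000000000 * v ^ 4 * k ^ 4 + 89802475027200000000000000 * v ^ 4 * k ^ 3 - 583716087676800000000000000 * v ^ 4 * k ^ 2 + 1686290919955200000000000000 * v ^ 4 * k - 1826815163284800000000000000 * v ^ 4 + 446148000000000 * v ^ 2 * k ^ 2 - 3866616000000000 * v ^ 2 * k + 8377668000000000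 * v ^ 2) * hg + (34012224000000000000 * v ^ 4 * k ^ 2 - 589545216000000000000 * v ^ 4 * k + 4478276160000000000000 * v ^ 4 - 1982880000000 * v ^ 2) * hk + (-618658560000000000 * v ^ 3 * k + 2696670144000000000 * v ^ 3 - 17184960000000 * v ^ 2 * k + 74907504000000 * v ^ 2 - 36000 * v - 1) * hv
  · linear_combination (1721868840000000000000000 * v ^ 4 * g ^ 2 * k ^ 4 + 29845726560000000000000000 * v ^ 4 * g ^ 2 * k ^ 3 + 193997222640000000000000000 * v ^ 4 * g ^ 2 * k ^ 2 + 560436420960000000000000000 * v ^ 4 * g ^ 2 * k + 607139456040000000000000000 * v ^ 4 * g ^ 2 - 5180912020800000000000000 * v ^ 4 * k ^ 4 - 89802475027200000000000000 * v ^ 4 * k ^ 3 - 583716087676800000000000000 * v ^ 4 * k ^ 2 - 1686290919955200000000000000 * v ^ 4 * k - 1826815163284800000000000000 * v ^ 4 + 446148000000000 * v ^ 2 * k ^ 2 + 3866616000000000 * v ^ 2 * k + 8377668000000000 * v ^ 2) * hg + (34012224000000000000 * v ^ 4 * k ^ 2 + 589545216000000000000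 * v ^ 4 * k + 4478276160000000000000 * v ^ 4 - 1982880000000 * v ^ 2) * hk + (618658560000000000 * v ^ 3 * k + 2696670144000000000 * v ^ 3 + 17184960000000 * v ^ 2 * k + 74907504000000 * v ^ 2 - 36000 * v - 1) * hv

theorem jj (hv : (36000 : B) * v = 1) (hg : g ^ 2 = 3) (hk : k ^ 2 = 19) : (1 - 2 * W v g k) * (Wq 24000 10400 0 (-800) v g k) = 1 := by
  simp only [W, Wq]
  push_cast
  linear_combination (648000000 * v ^ 2 * k ^ 2 - 11232000000 * v ^ 2 * k + 36504000000 * v ^ 2) * hg + (-1123200000 * v ^ 2 * g + 1944000000 * v ^ 2) * hk + (800 * v * g * k - 10400 * v * g + 12000 * v + 1) * hv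

theorem a4 (hv : (36000 : B) * v = 1) (hg : g ^ 2 = 3) (hk : k ^ 2 = 19) : 4 * (27 * W v g k ^ 2 * (Wq 24000 10400 0 (-800) v g k) ^ 3) = Wq 72000 416 0 (-9632) v g k := by
  simp only [W, Wq]
  push_cast
  linear_combination (-9069926400000000000000 * v ^ 5 * g ^ 3 * k ^ 5 + 432333158400000000000000 * v ^ 5 * g ^ 3 * k ^ 4 - 7834400870400000000000000 * v ^ 5 * g ^ 3 * k ^ 3 + 66422094336000000000000000 * v ^ 5 * g ^ 3 * k ^ 2 - 259046167910400000000000000 * v ^ 5 * g ^ 3 * k + 374177798092800000000000000 * v ^ 5 * g ^ 3 + 31442411520000000000000 * v ^ 5 * g ^ 2 * k ^ 5 - 682461573120000000000000 * v ^ 5 * g ^ 2 * k ^ 4 - 1138914017280000000000000 * v ^ 5 * g ^ 2 * k ^ 3 + 106956603187200000000000000 * v ^ 5 * g ^ 2 * k ^ 2 - 696103548641280000000000000 * v ^ 5 * g ^ 2 * k + 1293311979048960000000000000 * v ^ 5 * g ^ 2 - 54459869184000000000000 * v ^ 5 * g * k ^ 5 - 233896605696000000000000 * v ^ 5 * g * k ^ 4 + 26570297880576000000000000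 * v ^ 5 * g * k ^ 3 - 239610390589440000000000000 * v ^ 5 * g * k ^ 2 + 751973045630976000000000000 * v ^ 5 * g * k - 755548862994432000000000000 * v ^ 5 * g + 94327234560000000000000 * v ^ 5 * k ^ 5 + 405123379200000000000000 * v ^ 5 * k ^ 4 - 3542511697920000000000000 * v ^ 5 * k ^ 3 - 260464905953280000000000000 * v ^ 5 * k ^ 2 + 2158762609336320000000000000 * v ^ 5 * k - 4462406610554880000000000000 * v ^ 5) * hg + (-163379607552000000000000 * v ^ 5 * g * k ^ 3 - 701689817088000000000000 * v ^ 5 * g * k ^ 2 + 3031438141440000000000000 * v ^ 5 * g * k + 13021874731008000000000000 * v ^ 5 * g + 282981703680000000000000 * v ^ 5 * k ^ 3 + 1215370137600000000000000 * v ^ 5 * k ^ 2 - 5250882723840000000000000 * v ^ 5 * k - 22550255677440000000000000 * v ^ 5) * hk + (-449390592000000000 * v ^ 4 * g * k + 19408896000000000 * v ^ 4 * g + 3359232000000000000 * v ^ 4 - 12483072000000 * v ^ 3 * g * k + 539136000000 * v ^ 3 * g + 93312000000000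 * v ^ 3 - 346752000 * v ^ 2 * g * k + 14976000 * v ^ 2 * g + 2592000000 * v ^ 2 - 9632 * v * g * k + 416 * v * g + 72000 * v) * hv

theorem mu (hv : (36000 : B) * v = 1) (hg : g ^ 2 = 3) (hk : k ^ 2 = 19) : (1 + 4 * W v g k) * (Wq 24000 10400 0 (-800) v g k) = 2 * (Wq 0 15600 0 (-1200) v g k) := by
  simp only [W, Wq]
  push_cast
  linear_combination (-1296000000 * v ^ 2 * k ^ 2 + 22464000000 * v ^ 2 * k - 73008000000 * v ^ 2) * hg + (2246400000 * v ^ 2 * g - 3888000000 * v ^ 2) * hk + (-1600 * v * g * k + 20800 * v * g - 24000 * v) * hv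

theorem ne_a (hv : (36000 : B) * v = 1) (hg : g ^ 2 = 3) (hk : k ^ 2 = 19) : ca (Wq 72000 416 0 (-9632) v g k) * (Wq (-8785255200) (-193377600) 75129600 940564800 v g k) = 1268699 := by
  simp only [Wq, ca]
  push_cast
  linear_combination (-54357120921600 * v ^ 2 * k ^ 2 + 13523328000000 * v ^ 2 * k - 482670489600 * v ^ 2) * hg + (-4341889843200 * v ^ 2 * g - 163071362764800 * v ^ 2) * hk + (25395249600 * v * g * k - 5221195200 * v * g + 2028499200 * v * k - 191528726400 * v + 1268699) * hv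

theorem ne_b (hv : (36000 : B) * v = 1) (hg : g ^ 2 = 3) (hk : k ^ 2 = 19) : cb (Wq 72000 416 0 (-9632) v g k) * (Wq (-14223882871125) 777792526875 (-307251345375) 2041510381875 v g k) = 1795612903 := by
  simp only [Wq, cb]
  push_cast
  linear_combination (189401991278855040000 * v ^ 3 * g * k ^ 3 + 55799726570340480000 * v ^ 3 * g * k ^ 2 - 5879796798245760000 * v ^ 3 * g * k + 134601663530880000 * v ^ 3 * g - 28505373841736064000 * v ^ 3 * k ^ 3 - 4148755737833040768000 * v ^ 3 * k ^ 2 - 842575296963014784000 * v ^ 3 * k + 44131355255774592000 * v ^ 3 + 353948903967960000 * v ^ 2 * k ^ 2 + 119563727400000000 * v ^ 2 * k - 5824110441240000 * v ^ 2) * hg + (568205973836565120000 * v ^ 3 * g * k + 593559253756909440000 * v ^ 3 * g - 85516121525208192000 * v ^ 3 * k - 12446267213499122304000 * v ^ 3 - 53270009255736000 * v ^ 2 * g + 1061846711903880000 * v ^ 2) * hk + (1140880491135000000 * v ^ 2 * g * k + 401612183505000000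 * v ^ 2 * g - 159592310397000000 * v ^ 2 * k - 8613424772073000000 * v ^ 2 - 110241560621250 * v * g * k - 42000796451250 * v * g + 16591572650250 * v * k + 832731739548750 * v + 1795612903) * hv

theorem ne_m (hv : (36000 : B) * v = 1) (hg : g ^ 2 = 3) (hk : k ^ 2 = 19) (hi : i ^ 2 = -1) : (k - g * i) * (Wq 0 15600 0 (-1200) v g k) * ((k + g * i) * (Wq 0 31200 0 2400 v g k)) = 22 := by
  simp only [Wq]
  push_cast
  linear_combination (2880000 * v ^ 2 * g ^ 4 * k ^ 2 - 486720000 * v ^ 2 * g ^ 4) * hi + (-2880000 * v ^ 2 * g ^ 2 * k ^ 2 + 486720000 * v ^ 2 * g ^ 2 - 2880000 * v ^ 2 * k ^ 4 + 478080000 * v ^ 2 * k ^ 2 + 1460160000 * v ^ 2) * hg + (-8640000 * v ^ 2 * k ^ 2 + 1270080000 * v ^ 2) * hk + (792000 * v + 22) * hv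

theorem dal (hv : (36000 : B) * v = 1) (hg : g ^ 2 = 3) (hk : k ^ 2 = 19) : T8.ev g k i dd.al = 75 ^ 2 * ca (Wq 72000 416 0 (-9632) v g k) := by
  rw [show dd.al = ⟨-84375, 390, 0, -9030, 0, 0, 0, 0⟩ from rfl]
  simp only [T8.ev, Wq, ca]
  push_cast
  linear_combination (9030 * g * k - 390 * g - 67500) * hv

theorem dbe (hv : (36000 : B) * v = 1) (hg : g ^ 2 = 3) (hk : k ^ 2 = 19) : T8.ev g k i dd.be = 75 ^ 3 * cb (Wq 72000 416 0 (-9632) v g k) := by
  rw [show dd.be = ⟨11002838, -68250, -7826, 1580250, 0, 0, 0, 0⟩ from rfl]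
  simp only [T8.ev, Wq, cb]
  push_cast
  linear_combination (-39139632000000 * v ^ 2 * k ^ 2 + 3380832000000 * v ^ 2 * k - 73008000000 * v ^ 2) * hg + (-117418896000000 * v ^ 2) * hk + (16254000000 * v * g * k - 702000000 * v * g + 281736000 * v * k - 122727168000 * v - 1580250 * g * k + 68250 * g + 7826 * k + 11778412) * hv

theorem h2 (hv : (36000 : B) * v = 1) (hg : g ^ 2 = 3) (hk : k ^ 2 = 19) : (Wq 0 15600 0 (-1200) v g k) ^ 2 = ((22560) * 1 + (0) * g + (-3120) * k + (0) * (g * k)) * v ^ 1 := by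
  simp only [Wq]
  push_cast
  linear_combination (1440000 * v ^ 2 * k ^ 2 - 37440000 * v ^ 2 * k + 243360000 * v ^ 2) * hg + (4320000 * v ^ 2) * hk + (-3120 * v * k + 22560 * v) * hv

theorem h4 (hv : (36000 : B) * v = 1) (hg : g ^ 2 = 3) (hk : k ^ 2 = 19) : (Wq 0 15600 0 (-1200) v g k) ^ 4 = ((693907200) * 1 + (0) * g + (-140774400) * k + (0) * (g * k)) * v ^ 2 := by
  have e : (Wq 0 15600 0 (-1200) v g k) ^ 4 = ((Wq 0 15600 0 (-1200) v g k) ^ 2) ^ 2 := by ring
  rw [e, h2 hv hg hk]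
  linear_combination (9734400 * v ^ 2) * hk

theorem h6 (hv : (36000 : B) * v = 1) (hg : g ^ 2 = 3) (hk : k ^ 2 = 19) : (Wq 0 15600 0 (-1200) v g k) ^ 6 = ((666657024) * 1 + (0) * g + (-148357248) * k + (0) * (g * k)) * v ^ 2 := by
  have e : (Wq 0 15600 0 (-1200) v g k) ^ 6 = ((Wq 0 15600 0 (-1200) v g k) ^ 2) * ((Wq 0 15600 0 (-1200) v g k) ^ 4) := by ring
  rw [e, h2 hv hg hk, h4 hv hg hk]
  linear_combination (439216128000 * v ^ 3) * hk + (-148357248 * v ^ 2 * k + 666657024 * v ^ 2) * hv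

theorem t4 (hg : g ^ 2 = 3) (hk : k ^ 2 = 19) (hi : i ^ 2 = -1) : (k - g * i) ^ 4 = 28 * 1 + (-64) * (g * k * i) := by
  linear_combination (g ^ 4 * i ^ 2 - g ^ 4 - 4 * g ^ 3 * k * i + 6 * g ^ 2 * k ^ 2) * hi + (g ^ 2 + 4 * g * k * i - 6 * k ^ 2 + 3) * hg + (-4 * g * k * i + k ^ 2 + 1) * hk

theorem t6 (hg : g ^ 2 = 3) (hk : k ^ 2 = 19) (hi : i ^ 2 = -1) : (k - g * i) ^ 6 = (-6848) * 1 + (-1080) * (g * k * i) := by
  linear_combination (g ^ 6 * i ^ 4 - g ^ 6 * i ^ 2 + g ^ 6 - 6 * g ^ 5 * k * i ^ 3 + 6 * g ^ 5 * k * i + 15 * g ^ 4 * k ^ 2 * i ^ 2 - 15 * g ^ 4 * k ^ 2 - 20 * g ^ 3 * k ^ 3 * i + 15 * g ^ 2 * k ^ 4) * hi + (-g ^ 4 - 6 * g ^ 3 * k * i + 15 * g ^ 2 * k ^ 2 - 3 * g ^ 2 + 20 * g * k ^ 3 * i - 18 * g * k * i - 15 * k ^ 4 + 45 * k ^ 2 - 9) * hg + (-6 * g * k ^ 3 * i - 54 * g * k * i + k ^ 4 - 26 * k ^ 2 - 359) * hk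

theorem dal' (hv : (36000 : B) * v = 1) (hg : g ^ 2 = 3) (hk : k ^ 2 = 19) (hi : i ^ 2 = -1) : T8.ev g k i dd.al' = 75 ^ 2 * (ca (Wq 72000 416 0 (-9632) v g (-k)) * ((k - g * i) * (Wq 0 15600 0 (-1200) v g k)) ^ 4) := by
  rw [show dd.al' = ⟨-1264935, -515970, 256620, 134190, -17483040, -11144640, 3538080, 2891280⟩ from rfl, mul_pow, t4 hg hk hi, h4 hv hg hk]
  simp only [T8.ev, Wq, ca]
  push_cast
  linear_combination (-2928828284928000000 * v ^ 3 * k ^ 3 * i + 14310328320000000000 * v ^ 3 * k ^ 2 * i + 623517253632000000 * v ^ 3 * k * i) * hg + (-21893234688000000000 * v ^ 3 * g * i + 1281362374656000000 * v ^ 3 * g - 8786484854784000000 * v ^ 3 * k * i + 42930984960000000000 * v ^ 3 * i + 1368327168000000 * v ^ 2 * g * i) * hk + (2997679104000000 * v ^ 2 * g * k * i - 173910240000000 * v ^ 2 * g * k - 11554762752000000 * v ^ 2 * g * i + 668697120000000 * v ^ 2 * g - 4585351680000000 * v ^ 2 * k * i + 266063616000000 * v ^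 2 * k + 22658019840000000 * v ^ 2 * i - 1311484608000000 * v ^ 2 - 104086080000 * v * g * k * i - 4830840000 * v * g * k + 401207040000 * v * g * i + 18574920000 * v * g - 127370880000 * v * k * i - 9238320000 * v * k + 629389440000 * v * i + 45537660000 * v - 2891280 * g * k * i - 134190 * g * k + 11144640 * g * i + 515970 * g - 3538080 * k * i - 256620 * k + 17483040 * i + 1264935) * hv

theorem dbe' (hv : (36000 : B) * v = 1) (hg : g ^ 2 = 3) (hk : k ^ 2 = 19) (hi : i ^ 2 = -1) : T8.ev g k i dd.be' = 75 ^ 3 * (cb (Wq 72000 416 0 (-9632) v g (-k)) * ((k - g * i) * (Wq 0 15600 0 (-1200) v g k)) ^ 6) := by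
  rw [show dd.be' = ⟨-38641844752, -23296356720, 8597693104, 5513059440, 49559570550, 25762947210, -11022224850, -6094216170⟩ from rfl, mul_pow, t6 hg hk hi, h6 hv hg hk]
  simp only [T8.ev, Wq, cb]
  push_cast
  linear_combination (-6271179938552954880000000 * v ^ 4 * g * k ^ 4 * i + 27638430830753218560000000 * v ^ 4 * g * k ^ 3 * i + 2422466064506142720000000 * v ^ 4 * g * k ^ 2 * i + 52564999688847360000000 * v ^ 4 * g * k * i - 93755181805608960000000000 * v ^ 4 * k ^ 3 * i - 39763926128898736128000000 * v ^ 4 * k ^ 3 + 417248359142400000000000000 * v ^ 4 * k ^ 2 * i + 175248124378701889536000000 * v ^ 4 * k ^ 2 + 18195576815370240000000000 * v ^ 4 * k * i + 15360229268275986432000000 * v ^ 4 * k + 333301035064098816000000 * v ^ 4 + 11719397725701120000000 * v ^ 3 * k ^ 3 * i - 52156044892800000000000 * v ^ 3 * k ^ 2 * i - 2274447101921280000000 * v ^ 3 * k * i) * hg + (-18813539815658864640000000 * v ^ 4 * g * k ^ 2 * i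 + 82915292492259655680000000 * v ^ 4 * g * k * i - 700603743790080000000000000 * v ^ 4 * g * i - 594477300930379776000000000 * v ^ 4 * g - 281265545416826880000000000 * v ^ 4 * k * i - 119291778386696208384000000 * v ^ 4 * k + 1251745077427200000000000000 * v ^ 4 * i + 525744373136105668608000000 * v ^ 4 + 87603471371520000000000 * v ^ 3 * g * i + 74309662616297472000000 * v ^ 3 * g + 35158193177103360000000 * v ^ 3 * k * i - 156468134678400000000000 * v ^ 3 * i - 3650144640480000000 * v ^ 2 * g * i) * hk + (87504596576640000000000 * v ^ 3 * g * k * i + 73490657495040000000000 * v ^ 3 * g * k - 369763087000320000000000 * v ^ 3 * g * i - 310547091179520000000000 * v ^ 3 * g - 146929406457600000000000 * v ^ 3 * k * i - 123398519482368000000000 * v ^ 3 * k + 660643235308800000000000 * v ^ 3 * i + 554843960515584000000000 * v ^ 3 - 8504158597920000000 * v ^ 2 * g * k * i - 7144925034240000000 * v ^ 2 * g * k + 35963968584960000000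 * v ^ 2 * g * i + 30192078309120000000 * v ^ 2 * g + 14284803405600000000 * v ^ 2 * k * i + 12002010568704000000 * v ^ 2 * k - 64229203432800000000 * v ^ 2 * i - 53922664887552000000 * v ^ 2 + 219391782120000 * v * g * k * i - 198470139840000 * v * g * k - 927466099560000 * v * g * i + 838668841920000 * v * g + 396800094600000 * v * k * i - 309516951744000 * v * k - 1784144539800000 * v * i + 1391106411072000 * v + 6094216170 * g * k * i - 5513059440 * g * k - 25762947210 * g * i + 23296356720 * g + 11022224850 * k * i - 8597693104 * k - 49559570550 * i + 38641844752) * hv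

end ring

section wo

variable {p : ℕ} [hp : Fact p.Prime] {v g k i : WO p}

theorem Zeq (hv : (36000 : WO p) * v = 1) (hg : g ^ 2 = 3) (hk : k ^ 2 = 19) : 4 * Zw (W v g k) = Wq 72000 416 0 (-9632) v g k := by
  rw [Zw, Jw_eq (jj hv hg hk)]; exact a4 hv hg hk

theorem Meq (hv : (36000 : WO p) * v = 1) (hg : g ^ 2 = 3) (hk : k ^ 2 = 19) : MUw (W v g k) = 2 * (Wq 0 15600 0 (-1200) v g k) := by
  rw [MUw, Jw_eq (jj hv hg hk)]; exact mu hv hg hk

theorem iso (h3 : 3 < p) (hne : ∀ q ∈ ([2, 3, 5, 11, 13, 19] : List ℕ), p ≠ q) (hv : (36000 : WO p) * v = 1) (hg : g ^ 2 = 3) (hk : k ^ 2 = 19) (hi : i ^ 2 = -1) :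
    ∃ β M : WO p, β ^ 2 = ((19 : ℕ) : WO p) ∧ 2 * M = (β - g * i) * MUw (W v g k) ∧
      DW (SW p) (W v g k) (W v g (-k)) M 11 := by
  refine ⟨k, (k - g * i) * (Wq 0 15600 0 (-1200) v g k), ?_, ?_, ?_⟩
  · rw [hk]; push_cast; rfl
  · rw [Meq hv hg hk]; ring
  · unfold DW
    rw [Zeq hv hg hk, Zeq hv hg (by rw [neg_sq]; exact hk)]
    have := charZ (p := p)
    refine LD.dat (SW p) dd dd_O dd_N dd_F dd_D dd_L (g := g) (q := k) (i := i)
      (by rw [hg, show dd.A = 3 from rfl]; push_cast; rfl) (by rw [hk, show dd.B = 19 from rfl]; push_cast; rfl)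
      (by rw [hi, show dd.C = -1 from rfl]; push_cast; rfl) (D := (75 : WO p))
      (dal hv hg hk) (dbe hv hg hk) (dal' hv hg hk hi) (dbe' hv hg hk hi) (k2_of h3) ?_ ?_ ?_ ?_ ?_
    · have := red_int_ne (p := p) (n := 75) (by
    have e : (75 : ℤ) = (((3 : ℕ) : ℤ) ^ 1) * ((((5 : ℕ) : ℤ) ^ 2)) := by norm_num
    rw [e]
    exact nd_mul' (nd_pow (p := p) (q := 3) (by norm_num) (hne 3 (by simp)) 1) (nd_pow (p := p) (q := 5) (by norm_num) (hne 5 (by simp)) 2))
      exact_mod_cast this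
    · exact red_ne_mul (n := 22) (by push_cast; exact ne_m hv hg hk hi) (by
    have e : (22 : ℤ) = (((2 : ℕ) : ℤ) ^ 1) * ((((11 : ℕ) : ℤ) ^ 1)) := by norm_num
    rw [e]
    exact nd_mul' (nd_pow (p := p) (q := 2) (by norm_num) (hne 2 (by simp)) 1) (nd_pow (p := p) (q := 11) (by norm_num) (hne 11 (by simp)) 1))
    · rw [show dd.c2 = 484 from rfl]
      exact red_int_ne (by
    have e : (484 : ℤ) = (((2 : ℕ) : ℤ) ^ 2) * ((((11 : ℕ) : ℤ) ^ 2)) := by norm_num
    rw [e]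
    exact nd_mul' (nd_pow (p := p) (q := 2) (by norm_num) (hne 2 (by simp)) 2) (nd_pow (p := p) (q := 11) (by norm_num) (hne 11 (by simp)) 2))
    · rw [show dd.r1 = 380589257812500000 from rfl]
      exact red_int_ne (by
    have e : (380589257812500000 : ℤ) = (((2 : ℕ) : ℤ) ^ 5) * ((((3 : ℕ) : ℤ) ^ 11) * ((((5 : ℕ) : ℤ) ^ 14) * ((((11 : ℕ) : ℤ) ^ 1)))) := by norm_num
    rw [e]
    exact nd_mul' (nd_pow (p := p) (q := 2) (by norm_num) (hne 2 (by simp)) 5) (nd_mul' (nd_pow (p := p) (q := 3) (by norm_num) (hne 3 (by simp)) 11) (nd_mul' (nd_pow (p := p) (q := 5) (by norm_num) (hne 5 (by simp)) 14) (nd_pow (p := p) (q := 11) (by norm_num) (hne 11 (by simp)) 1))))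
    · rw [show dd.r2 = 456707109375000000000 from rfl]
      exact red_int_ne (by
    have e : (456707109375000000000 : ℤ) = (((2 : ℕ) : ℤ) ^ 9) * ((((3 : ℕ) : ℤ) ^ 12) * ((((5 : ℕ) : ℤ) ^ 16) * ((((11 : ℕ) : ℤ) ^ 1)))) := by norm_num
    rw [e]
    exact nd_mul' (nd_pow (p := p) (q := 2) (by norm_num) (hne 2 (by simp)) 9) (nd_mul' (nd_pow (p := p) (q := 3) (by norm_num) (hne 3 (by simp)) 12) (nd_mul' (nd_pow (p := p) (q := 5) (by norm_num) (hne 5 (by simp)) 16) (nd_pow (p := p) (q := 11) (by norm_num) (hne 11 (by simp)) 1))))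

theorem bw (h3 : 3 < p) (hne : ∀ q ∈ ([2, 3, 5, 11, 13, 19] : List ℕ), p ≠ q) (hno : ∀ q ∈ ([7, 59, 71, 107, 167, 179, 227] : List ℕ), p ≠ q) (hv : (36000 : WO p) * v = 1) (hg : g ^ 2 = 3) (hk : k ^ 2 = 19) (hi : i ^ 2 = -1) :
    BA 19 11 (g * i) (W v g k) (W v g (-k)) := by
  refine ⟨?_, ?_, iso h3 hne hv hg hk hi⟩
  · rw [Zeq hv hg hk]
    exact red_ne_mul (n := 1268699) (by push_cast; exact ne_a hv hg hk) (by
    have e : (1268699 : ℤ) = (((71 : ℕ) : ℤ) ^ 1) * ((((107 : ℕ) : ℤ) ^ 1) * ((((167 : ℕ) : ℤ) ^ 1))) := by norm_num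
    rw [e]
    exact nd_mul' (nd_pow (p := p) (q := 71) (by norm_num) (hno 71 (by simp)) 1) (nd_mul' (nd_pow (p := p) (q := 107) (by norm_num) (hno 107 (by simp)) 1) (nd_pow (p := p) (q := 167) (by norm_num) (hno 167 (by simp)) 1)))
  · rw [Zeq hv hg hk]
    exact red_ne_mul (n := 1795612903) (by push_cast; exact ne_b hv hg hk) (by
    have e : (1795612903 : ℤ) = (((7 : ℕ) : ℤ) ^ 1) * ((((59 : ℕ) : ℤ) ^ 1) * ((((107 : ℕ) : ℤ) ^ 1) * ((((179 : ℕ) : ℤ) ^ 1) * ((((227 : ℕ) : ℤ) ^ 1))))) := by norm_num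
    rw [e]
    exact nd_mul' (nd_pow (p := p) (q := 7) (by norm_num) (hno 7 (by simp)) 1) (nd_mul' (nd_pow (p := p) (q := 59) (by norm_num) (hno 59 (by simp)) 1) (nd_mul' (nd_pow (p := p) (q := 107) (by norm_num) (hno 107 (by simp)) 1) (nd_mul' (nd_pow (p := p) (q := 179) (by norm_num) (hno 179 (by simp)) 1) (nd_pow (p := p) (q := 227) (by norm_num) (hno 227 (by simp)) 1)))))

theorem data (h3 : 3 < p) (hne : ∀ q ∈ ([2, 3, 5, 11, 13, 19] : List ℕ), p ≠ q) : ∃ v g k i μ : WO p, (36000 : WO p) * v = 1 ∧ g ^ 2 = 3 ∧ k ^ 2 = 19 ∧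
    i ^ 2 = -1 ∧ ((-2704 : ℤ) : WO p) * μ = 1 := by
  obtain ⟨v, hv⟩ := (unit_int (p := p) (n := 36000) (by
    have e : (36000 : ℤ) = (((2 : ℕ) : ℤ) ^ 5) * ((((3 : ℕ) : ℤ) ^ 2) * ((((5 : ℕ) : ℤ) ^ 3))) := by norm_num
    rw [e]
    exact nd_mul' (nd_pow (p := p) (q := 2) (by norm_num) (hne 2 (by simp)) 5) (nd_mul' (nd_pow (p := p) (q := 3) (by norm_num) (hne 3 (by simp)) 2) (nd_pow (p := p) (q := 5) (by norm_num) (hne 5 (by simp)) 3)))).exists_right_inv
  obtain ⟨μ, hμ⟩ := (unit_int (p := p) (n := -2704) (by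
    rw [dvd_neg]
    have e : (2704 : ℤ) = (((2 : ℕ) : ℤ) ^ 4) * ((((13 : ℕ) : ℤ) ^ 2)) := by norm_num
    rw [e]
    exact nd_mul' (nd_pow (p := p) (q := 2) (by norm_num) (hne 2 (by simp)) 4) (nd_pow (p := p) (q := 13) (by norm_num) (hne 13 (by simp)) 2))).exists_right_inv
  obtain ⟨g, hg⟩ := wo_isqrt p (by omega) (d := 3) (by
    have e : (3 : ℤ) = (((3 : ℕ) : ℤ) ^ 1) := by norm_num
    rw [e]
    exact nd_pow (p := p) (q := 3) (by norm_num) (hne 3 (by simp)) 1)
  obtain ⟨k, hk⟩ := wo_isqrt p (by omega) (d := 19) (by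
    have e : (19 : ℤ) = (((19 : ℕ) : ℤ) ^ 1) := by norm_num
    rw [e]
    exact nd_pow (p := p) (q := 19) (by norm_num) (hne 19 (by simp)) 1)
  obtain ⟨i, hi⟩ := wo_isqrt p (by omega) (d := -1) (by rw [dvd_neg]; exact nd_one)
  refine ⟨v, g, k, i, μ, ?_, ?_, ?_, ?_, hμ⟩
  · exact_mod_cast hv
  · exact_mod_cast hg
  · exact_mod_cast hk
  · rw [hi]; push_cast; rfl

theorem u4 (h3 : 3 < p) (hne : ∀ q ∈ ([2, 3, 5, 11, 13, 19] : List ℕ), p ≠ q) (hv : (36000 : WO p) * v = 1) (hg : g ^ 2 = 3) (hk : k ^ 2 = 19) :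
    U4 (W v g k) (W v (-g) (-k)) (W v (-g) k) (W v g (-k)) := by
  refine u_4 (q4 hv hg hk) (u3_of h3) ?_
  have := unit_int (p := p) (n := -2700) (by
    rw [dvd_neg]
    have e : (2700 : ℤ) = (((2 : ℕ) : ℤ) ^ 2) * ((((3 : ℕ) : ℤ) ^ 3) * ((((5 : ℕ) : ℤ) ^ 2))) := by norm_num
    rw [e]
    exact nd_mul' (nd_pow (p := p) (q := 2) (by norm_num) (hne 2 (by simp)) 2) (nd_mul' (nd_pow (p := p) (q := 3) (by norm_num) (hne 3 (by simp)) 3) (nd_pow (p := p) (q := 5) (by norm_num) (hne 5 (by simp)) 2)))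
  push_cast at this ⊢
  have e : (-2704 : WO p) + 4 = -2700 := by norm_num
  rw [e]; exact this

theorem ord (h : legendreSym p (-(3 * 19)) = 1) : ∀ q ∈ ([7, 59, 71, 107, 167, 179, 227] : List ℕ), p ≠ q := by
  intro q hq
  simp only [List.mem_cons, List.not_mem_nil, or_false] at hq
  rcases hq with rfl | rfl | rfl | rfl | rfl | rfl | rfl <;> (rintro rfl; revert h; norm_num)

end wo

end Pool.Agent.H578.CM.F19
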