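import Pool.Agent.H578.CM.D.F31
import Pool.Agent.H578.CM.Q4a

set_option autoImplicit false
set_option linter.unusedSectionVars false
set_option linter.unusedVariables false
set_option maxHeartbeats 4000000
set_option maxRecDepth 100000

namespace Pool.Agent.H578.CM.F31

open Finset Pool.Agent.H546 Pool.Agent.H547 Pool.Agent.H578.CM
open Pool.Agent.Q267.CDE (R)

section ring

variable {B : Type*} [CommRing B] {v g k i : B}

def W (v g k : B) : B := Wq 184558500 106616250 (-33169500) (-19136250) v g k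

theorem q4 (hv : (243000 : B) * v = 1) (hg : g ^ 2 = 3) (hk : k ^ 2 = 31) :
    Q4 (-24304) (W v g k) (W v g (-k)) (W v (-g) k) (W v (-g) (-k)) := by
  refine ⟨?_, ?_, ?_, ?_, ?_, ?_⟩ <;> simp only [W, Wq] <;> push_cast
  · linear_combination (-2929568512500000 * v ^ 2 * k ^ 2 + 90936198112500000 * v ^ 2) * hg + (-10155837510000000 * v ^ 2 * g - 17590431379500000 * v ^ 2) * hk + (-243000 * v - 1) * hv
  · linear_combination (-2929568512500000 * v ^ 2 * k ^ 2 + 90936198112500000 * v ^ 2) * hg + (10155837510000000 * v ^ 2 * g - 17590431379500000 * v ^ 2) * hk + (-243000 * v - 1) * hv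
  · linear_combination (-2929568512500000 * v ^ 2 * k ^ 2 + 32643763425000000 * v ^ 2 * k - 90936198112500000 * v ^ 2) * hg + (13020304500000 * v ^ 2) * hk + (-66339000 * v * k + 369360000 * v + 1) * hv
  · linear_combination (-2929568512500000 * v ^ 2 * k ^ 2 - 32643763425000000 * v ^ 2 * k - 90936198112500000 * v ^ 2) * hg + (13020304500000 * v ^ 2) * hk + (66339000 * v * k + 369360000 * v + 1) * hv
  · linear_combination (8582371669431462656250000000000 * v ^ 4 * g ^ 2 * k ^ 4 - 191264282918758310625000000000000 * v ^ 4 * g ^ 2 * k ^ 3 + 1598422935821051595937500000000000 * v ^ 4 * g ^ 2 * k ^ 2 - 5936999475906763070625000000000000 * v ^ 4 * g ^ 2 * k + 8269392127155848562656250000000000 * v ^ 4 * g ^ 2 - 25823402756467112081250000000000 * v ^ 4 * k ^ 4 + 574737363733651516125000000000000 * v ^ 4 * k ^ 3 - 4796850264591941735287500000000000 * v ^ 4 * k ^ 2 + 17793438159467430676125000000000000 * v ^ 4 * k - 24751091190468255860081250000000000 *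 v ^ 4 + 8905888278000000000 * v ^ 2 * k ^ 2 - 99237040812000000000 * v ^ 2 * k + 276446042262000000000 * v ^ 2) * hg + (169528329272720250000000000 * v ^ 4 * k ^ 2 - 419784434389593000000000000 * v ^ 4 * k - 2658250333153878750000000000 * v ^ 4 - 39581725680000000 * v ^ 2) * hk + (-11908444897440000000000 * v ^ 3 * k + 66303415116693000000000 * v ^ 3 - 49005946080000000 * v ^ 2 * k + 272853560151000000 * v ^ 2 - 243000 * v - 1) * hv
  · linear_combination (8582371669431462656250000000000 * v ^ 4 * g ^ 2 * k ^ 4 + 191264282918758310625000000000000 * v ^ 4 * g ^ 2 * k ^ 3 + 1598422935821051595937500000000000 * v ^ 4 * g ^ 2 * k ^ 2 + 5936999475906763070625000000000000 * v ^ 4 * g ^ 2 * k + 8269392127155848562656250000000000 * v ^ 4 * g ^ 2 - 25823402756467112081250000000000 * v ^ 4 * k ^ 4 - 574737363733651516125000000000000 * v ^ 4 * k ^ 3 - 4796850264591941735287500000000000 * v ^ 4 * k ^ 2 - 17793438159467430676125000000000000 * v ^ 4 * k - 24751091190468255860081250000000000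 * v ^ 4 + 8905888278000000000 * v ^ 2 * k ^ 2 + 99237040812000000000 * v ^ 2 * k + 276446042262000000000 * v ^ 2) * hg + (169528329272720250000000000 * v ^ 4 * k ^ 2 + 419784434389593000000000000 * v ^ 4 * k - 2658250333153878750000000000 * v ^ 4 - 39581725680000000 * v ^ 2) * hk + (11908444897440000000000 * v ^ 3 * k + 66303415116693000000000 * v ^ 3 + 49005946080000000 * v ^ 2 * k + 272853560151000000 * v ^ 2 - 243000 * v - 1) * hv

theorem jj (hv : (243000 : B) * v = 1) (hg : g ^ 2 = 3) (hk : k ^ 2 = 31) : (1 - 2 * W v g k) * (Wq 162000 (-23400) 0 12600 v g k) = 1 := by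
  simp only [W, Wq]
  push_cast
  linear_combination (482233500000 * v ^ 2 * k ^ 2 - 3582306000000 * v ^ 2 * k + 4989640500000 * v ^ 2) * hg + (835871400000 * v ^ 2 * g + 1446700500000 * v ^ 2) * hk + (-12600 * v * g * k + 23400 * v * g + 81000 * v + 1) * hv

theorem a4 (hv : (243000 : B) * v = 1) (hg : g ^ 2 = 3) (hk : k ^ 2 = 31) : 4 * (27 * W v g k ^ 2 * (Wq 162000 (-23400) 0 12600 v g k) ^ 3) = Wq 486000 (-280904) 0 56 v g k := by
  simp only [W, Wq]
  push_cast
  linear_combination (79113220327269450000000000000 * v ^ 5 * g ^ 3 * k ^ 5 - 1322320968327217950000000000000 * v ^ 5 * g ^ 3 * k ^ 4 + 8185796470597063500000000000000 * v ^ 5 * g ^ 3 * k ^ 3 - 23310029949604971300000000000000 * v ^ 5 * g ^ 3 * k ^ 2 + 31055909467020287850000000000000 * v ^ 5 * g ^ 3 * k - 15729616483295989950000000000000 * v ^ 5 * g ^ 3 + 274259163801200760000000000000 * v ^ 5 * g ^ 2 * k ^ 5 - 1530526871982158820000000000000 * v ^ 5 * g ^ 2 * k ^ 4 - 16981679652507002160000000000000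 * v ^ 5 * g ^ 2 * k ^ 3 + 150816153640498786440000000000000 * v ^ 5 * g ^ 2 * k ^ 2 - 361564464551650443720000000000000 * v ^ 5 * g ^ 2 * k + 272234399466457207260000000000000 * v ^ 5 * g ^ 2 + 475030936276182342000000000000 * v ^ 5 * g * k ^ 5 + 2642247610621250814000000000000 * v ^ 5 * g * k ^ 4 - 68743728351007348212000000000000 * v ^ 5 * g * k ^ 3 + 152098384084800966540000000000000 * v ^ 5 * g * k ^ 2 + 591664641798381194862000000000000 * v ^ 5 * g * k - 1224994300350865900362000000000000 * v ^ 5 * g + 822777491403602280000000000000 * v ^ 5 * k ^ 5 + 4576511431122234660000000000000 * v ^ 5 * k ^ 4 - 51012204467023341360000000000000 * v ^ 5 * k ^ 3 - 452137236124718140920000000000000 * v ^ 5 * k ^ 2 + 2664606884354004943080000000000000 * v ^ 5 * k - 815307131627152657740000000000000 * v ^ 5) * hg + (1425092808828547026000000000000 * v ^ 5 * g * k ^ 3 + 7926742831863752442000000000000 * v ^ 5 * g * k ^ 2 - 44177838802739372430000000000000 * v ^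 5 * g * k - 245729134399696170678000000000000 * v ^ 5 * g + 2468332474210806840000000000000 * v ^ 5 * k ^ 3 + 13729534293366703980000000000000 * v ^ 5 * k ^ 2 - 76518306700535012040000000000000 * v ^ 5 * k - 425615563094367823380000000000000 * v ^ 5) * hk + (803538792000000000 * v ^ 4 * g * k - 4030665371928000000000 * v ^ 4 * g + 6973568802000000000000 * v ^ 4 + 3306744000000 * v ^ 3 * g * k - 16587100296000000 * v ^ 3 * g + 28697814000000000 * v ^ 3 + 13608000 * v ^ 2 * g * k - 68259672000 * v ^ 2 * g + 118098000000 * v ^ 2 + 56 * v * g * k - 280904 * v * g + 486000 * v) * hv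

theorem mu (hv : (243000 : B) * v = 1) (hg : g ^ 2 = 3) (hk : k ^ 2 = 31) : (1 + 4 * W v g k) * (Wq 162000 (-23400) 0 12600 v g k) = 2 * (Wq 0 (-35100) 0 18900 v g k) := by
  simp only [W, Wq]
  push_cast
  linear_combination (-964467000000 * v ^ 2 * k ^ 2 + 7164612000000 * v ^ 2 * k - 9979281000000 * v ^ 2) * hg + (-1671742800000 * v ^ 2 * g - 2893401000000 * v ^ 2) * hk + (25200 * v * g * k - 46800 * v * g - 162000 * v) * hv

theorem ne_a (hv : (243000 : B) * v = 1) (hg : g ^ 2 = 3) (hk : k ^ 2 = 31) : ca (Wq 486000 (-280904) 0 56 v g k) * (Wq (-44662990512600) 20651963763600 31854513600 (-18846399600) v g k) = 988569923 := by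
  simp only [Wq, ca]
  push_cast
  linear_combination (-6332390265600 * v ^ 2 * k ^ 2 + 38703234024000000 * v ^ 2 * k - 34807315374301766400 * v ^ 2) * hg + (10703116569600 * v ^ 2 * g - 18997170796800 * v ^ 2) * hk + (-508852789200 * v * g * k + 557603021617200 * v * g + 860071867200 * v * k - 965678252551200 * v + 988569923) * hv

theorem ne_b (hv : (243000 : B) * v = 1) (hg : g ^ 2 = 3) (hk : k ^ 2 = 31) : cb (Wq 486000 (-280904) 0 56 v g k) * (Wq (-14069995213318875) 8754830879900625 (-28766118961125) 16692109374375 v g k) = 243250337099 := by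
  simp only [Wq, cb]
  push_cast
  linear_combination (52346454998040000 * v ^ 3 * g * k ^ 3 - 497699443030968360000 * v ^ 3 * g * k ^ 2 + 1041687323948926310760000 * v ^ 3 * g * k + 690817941156722241269160000 * v ^ 3 * g - 90210549062088000 * v ^ 3 * k ^ 3 + 1769479395110467992000 * v ^ 3 * k ^ 2 - 5908238875059814825272000 * v ^ 3 * k - 3500629454436150815257752000 * v ^ 3 - 16825646249370000 * v ^ 2 * k ^ 2 + 75574975723650000000 * v ^ 2 * k + 44266806242776892970000 * v ^ 2) * hg + (157039364994120000 * v ^ 3 * g * k - 3058895716384861080000 * v ^ 3 * g - 270631647186264000 * v ^ 3 * k + 5308438185331403976000 * v ^ 3 + 28996247912814000 * v ^ 2 * g - 50476938748110000 * v ^ 2) * hk + (58255480273263750000 * v ^ 2 * g * k + 32847193684867623750000 * v ^ 2 * g - 100901922834989250000 * v ^ 2 * k - 56893005724813877250000 * v ^ 2 - 901373906216250 * v * g * k - 472760867514633750 * v * g + 1553370423900750 * v * k + 818889573434276250 * v + 243250337099)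 * hv

theorem ne_m (hv : (243000 : B) * v = 1) (hg : g ^ 2 = 3) (hk : k ^ 2 = 31) (hi : i ^ 2 = -1) : (k - g * i) * (Wq 0 (-35100) 0 18900 v g k) * ((k + g * i) * (Wq 0 70200 0 37800 v g k)) = 34 := by
  simp only [Wq]
  push_cast
  linear_combination (-714420000 * v ^ 2 * g ^ 4 * k ^ 2 + 2464020000 * v ^ 2 * g ^ 4) * hi + (714420000 * v ^ 2 * g ^ 2 * k ^ 2 - 2464020000 * v ^ 2 * g ^ 2 + 714420000 * v ^ 2 * k ^ 4 - 320760000 * v ^ 2 * k ^ 2 - 7392060000 * v ^ 2) * hg + (2143260000 * v ^ 2 * k ^ 2 + 65478780000 * v ^ 2) * hk + (8262000 * v + 34) * hv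

theorem dal (hv : (243000 : B) * v = 1) (hg : g ^ 2 = 3) (hk : k ^ 2 = 31) : T8.ev g k i dd.al = 675 ^ 2 * ca (Wq 486000 (-280904) 0 56 v g k) := by
  rw [show dd.al = ⟨-6834375, -3160170, 0, 630, 0, 0, 0, 0⟩ from rfl]
  simp only [T8.ev, Wq, ca]
  push_cast
  linear_combination (-630 * g * k + 3160170 * g - 5467500) * hv

theorem dbe (hv : (243000 : B) * v = 1) (hg : g ^ 2 = 3) (hk : k ^ 2 = 31) : T8.ev g k i dd.be = 675 ^ 3 * cb (Wq 486000 (-280904) 0 56 v g k) := by
  rw [show dd.be = ⟨7998955538, 4977267750, -491582, -992250, 0, 0, 0, 0⟩ from rfl]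
  simp only [T8.ev, Wq, cb]
  push_cast
  linear_combination (-964467000000 * v ^ 2 * k ^ 2 + 9675808506000000 * v ^ 2 * k - 24267618862227000000 * v ^ 2) * hg + (-2893401000000 * v ^ 2) * hk + (-68890500000 * v * g * k + 345564589500000 * v * g + 119454426000 * v * k - 598536164484000 * v + 992250 * g * k - 4977267750 * g + 491582 * k + 8608575712) * hv

theorem h2 (hv : (243000 : B) * v = 1) (hg : g ^ 2 = 3) (hk : k ^ 2 = 31) : (Wq 0 (-35100) 0 18900 v g k) ^ 2 = ((151920) * 1 + (0) * g + (-16380) * k + (0) * (g * k)) * v ^ 1 := by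
  simp only [Wq]
  push_cast
  linear_combination (357210000 * v ^ 2 * k ^ 2 - 1326780000 * v ^ 2 * k + 1232010000 * v ^ 2) * hg + (1071630000 * v ^ 2) * hk + (-16380 * v * k + 151920 * v) * hv

theorem h4 (hv : (243000 : B) * v = 1) (hg : g ^ 2 = 3) (hk : k ^ 2 = 31) : (Wq 0 (-35100) 0 18900 v g k) ^ 4 = ((31397122800) * 1 + (0) * g + (-4976899200) * k + (0) * (g * k)) * v ^ 2 := by
  have e : (Wq 0 (-35100) 0 18900 v g k) ^ 4 = ((Wq 0 (-35100) 0 18900 v g k) ^ 2) ^ 2 := by ring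
  rw [e, h2 hv hg hk]
  linear_combination (268304400 * v ^ 2) * hk

theorem h6 (hv : (243000 : B) * v = 1) (hg : g ^ 2 = 3) (hk : k ^ 2 = 31) : (Wq 0 (-35100) 0 18900 v g k) ^ 6 = ((30028892064) * 1 + (0) * g + (-5227882296) * k + (0) * (g * k)) * v ^ 2 := by
  have e : (Wq 0 (-35100) 0 18900 v g k) ^ 6 = ((Wq 0 (-35100) 0 18900 v g k) ^ 2) * ((Wq 0 (-35100) 0 18900 v g k) ^ 4) := by ring
  rw [e, h2 hv hg hk, h4 hv hg hk]
  linear_combination (81521608896000 * v ^ 3) * hk + (-5227882296 * v ^ 2 * k + 30028892064 * v ^ 2) * hv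

theorem t4 (hg : g ^ 2 = 3) (hk : k ^ 2 = 31) (hi : i ^ 2 = -1) : (k - g * i) ^ 4 = 412 * 1 + (-112) * (g * k * i) := by
  linear_combination (g ^ 4 * i ^ 2 - g ^ 4 - 4 * g ^ 3 * k * i + 6 * g ^ 2 * k ^ 2) * hi + (g ^ 2 + 4 * g * k * i - 6 * k ^ 2 + 3) * hg + (-4 * g * k * i + k ^ 2 + 13) * hk

theorem t6 (hg : g ^ 2 = 3) (hk : k ^ 2 = 31) (hi : i ^ 2 = -1) : (k - g * i) ^ 6 = (-9296) * 1 + (-3960) * (g * k * i) := by
  linear_combination (g ^ 6 * i ^ 4 - g ^ 6 * i ^ 2 + g ^ 6 - 6 * g ^ 5 * k * i ^ 3 + 6 * g ^ 5 * k * i + 15 * g ^ 4 * k ^ 2 * i ^ 2 - 15 * g ^ 4 * k ^ 2 - 20 * g ^ 3 * k ^ 3 * i + 15 * g ^ 2 * k ^ 4) * hi + (-g ^ 4 - 6 * g ^ 3 * k * i + 15 * g ^ 2 * k ^ 2 - 3 * g ^ 2 + 20 * g * k ^ 3 * i - 18 * g * k * i - 15 * k ^ 4 + 45 * k ^ 2 - 9) * hg + (-6 * g * k ^ 3 * i - 126 * g * k * i + k ^ 4 - 14 * k ^ 2 - 299) * hk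

theorem dal' (hv : (243000 : B) * v = 1) (hg : g ^ 2 = 3) (hk : k ^ 2 = 31) (hi : i ^ 2 = -1) : T8.ev g k i dd.al' = 675 ^ 2 * (ca (Wq 486000 (-280904) 0 56 v (-g) (-k)) * ((k - g * i) * (Wq 0 (-35100) 0 18900 v g k)) ^ 4) := by
  rw [show dd.al' = ⟨-1497177615, 691606890, 237324360, -109599210, 2770838280, -1999976160, -564028920, 406999740⟩ from rfl, mul_pow, t4 hg hk hi, h4 hv hg hk]
  simp only [T8.ev, Wq, ca]
  push_cast
  linear_combination (-85334311835136000000 * v ^ 3 * k ^ 3 * i - 427510761201720000000000 * v ^ 3 * k ^ 2 * i + 2700378203130369216000000 * v ^ 3 * k * i) * hg + (-740579920569216000000000 * v ^ 3 * g * i + 313908361393536000000 * v ^ 3 * g - 256002935505408000000 * v ^ 3 * k * i - 1282532283605160000000000 * v ^ 3 * i + 6857221486752000000 * v ^ 2 * g * i) * hk + (19226342117808000000 * v ^ 2 * g * k * i + 6471723751290000000 * v ^ 2 * g * k - 94477273817472000000 * v ^ 2 * g * i - 40838695247610000000 * v ^ 2 * g + 33305343697080000000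 * v ^ 2 * k * i + 11211012906912000000 * v ^ 2 * k - 163615229595720000000 * v ^ 2 * i - 70725472790508000000 * v ^ 2 - 98900936820000 * v * g * k * i + 26632608030000 * v * g * k + 485994206880000 * v * g * i - 168060474270000 * v * g + 137059027560000 * v * k * i - 57669819480000 * v * k - 673313702040000 * v * i + 363814160445000 * v - 406999740 * g * k * i + 109599210 * g * k + 1999976160 * g * i - 691606890 * g + 564028920 * k * i - 237324360 * k - 2770838280 * i + 1497177615) * hv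

theorem dbe' (hv : (243000 : B) * v = 1) (hg : g ^ 2 = 3) (hk : k ^ 2 = 31) (hi : i ^ 2 = -1) : T8.ev g k i dd.be' = 675 ^ 3 * (cb (Wq 486000 (-280904) 0 56 v (-g) (-k)) * ((k - g * i) * (Wq 0 (-35100) 0 18900 v g k)) ^ 6) := by
  rw [show dd.be' = ⟨-37801766193604, 23504248223820, 6580961015356, -4091690512980, -162100665030150, 86906064355110, 30037701043350, -16103162018790⟩ from rfl, mul_pow, t6 hg hk hi, h6 hv hg hk]
  simp only [T8.ev, Wq, cb]
  push_cast
  linear_combination (-19966795019329878720000000 * v ^ 4 * g * k ^ 4 * i - 200197903405742826756480000000 * v ^ 4 * g * k ^ 3 * i - 501247696778348213773759680000000 * v ^ 4 * g * k ^ 2 * i + 2885769641557856075879450880000000 * v ^ 4 * g * k * i - 346566513549797180640000000000 * v ^ 4 * k ^ 3 * i - 46871547095881452672000000 * v ^ 4 * k ^ 3 - 1736436467646246435300000000000000 * v ^ 4 * k ^ 2 * i - 469959522742370029678848000000 * v ^ 4 * k ^ 2 + 9985504270477587025299840000000000 * v ^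 4 * k * i - 1176666310417051766474967168000000 * v ^ 4 * k + 6774271360586320727620044288000000 * v ^ 4 + 6417898399070318160000000 * v ^ 3 * k ^ 3 * i + 32156230882337896950000000000 * v ^ 3 * k ^ 2 * i - 184916745749584944912960000000 * v ^ 3 * k * i) * hg + (-59900385057989636160000000 * v ^ 4 * g * k ^ 2 * i - 600593710217228480269440000000 * v ^ 4 * g * k * i - 3007596068543422776420000000000000 * v ^ 4 * g * i - 813556138878513785664000000000 * v ^ 4 * g - 1039699540649391541920000000000 * v ^ 4 * k * i - 140614641287644358016000000 * v ^ 4 * k - 5209309402938739305900000000000000 * v ^ 4 * i - 1409878568227110089036544000000 * v ^ 4 + 55698189677645975460000000000 * v ^ 3 * g * i + 15065854423676181216000000 * v ^ 3 * g + 19253695197210954480000000 * v ^ 3 * k * i + 96468692647013690850000000000 * v ^ 3 * i - 343815985664481330000000 * v ^ 2 * g * i) * hk + (71097913559557347210000000000 * v ^ 3 * g * k * i - 16774653326723517960000000000 *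 v ^ 3 * g * k - 383685095163975745140000000000 * v ^ 3 * g * i + 96360077676716675640000000000 * v ^ 3 * g + 123145193932809176700000000000 * v ^ 3 * k * i - 29054550705802529544000000000 * v ^ 3 * k - 664562104901649870300000000000 * v ^ 3 * i + 166900556679203307996000000000 * v ^ 3 - 1023999208841267010000000 * v ^ 2 * g * k * i + 241610233100956020000000 * v ^ 2 * g * k + 5526579361494030840000000 * v ^ 2 * g * i - 1387902353368347180000000 * v ^ 2 * g - 1773696208908774150000000 * v ^ 2 * k * i + 418500177129753264000000 * v ^ 2 * k + 9571882169365327350000000 * v ^ 2 * i - 2403812284188994476000000 * v ^ 2 + 3913068370565970000 * v * g * k * i + 994280794654140000 * v * g * k - 21118173638291730000 * v * g * i - 5711532318388260000 * v * g - 7299161353534050000 * v * k * i - 1599173526731508000 * v * k + 39390461602326450000 * v * i + 9185829185045772000 * v + 16103162018790 * g * k * i + 4091690512980 * g * k - 86906064355110 * g * i - 23504248223820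 * g - 30037701043350 * k * i - 6580961015356 * k + 162100665030150 * i + 37801766193604) * hv

end ring

section wo

variable {p : ℕ} [hp : Fact p.Prime] {v g k i : WO p}

theorem Zeq (hv : (243000 : WO p) * v = 1) (hg : g ^ 2 = 3) (hk : k ^ 2 = 31) : 4 * Zw (W v g k) = Wq 486000 (-280904) 0 56 v g k := by
  rw [Zw, Jw_eq (jj hv hg hk)]; exact a4 hv hg hk

theorem Meq (hv : (243000 : WO p) * v = 1) (hg : g ^ 2 = 3) (hk : k ^ 2 = 31) : MUw (W v g k) = 2 * (Wq 0 (-35100) 0 18900 v g k) := by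
  rw [MUw, Jw_eq (jj hv hg hk)]; exact mu hv hg hk

theorem iso (h3 : 3 < p) (hne : ∀ q ∈ ([2, 3, 5, 7, 17, 31] : List ℕ), p ≠ q) (hv : (243000 : WO p) * v = 1) (hg : g ^ 2 = 3) (hk : k ^ 2 = 31) (hi : i ^ 2 = -1) :
    ∃ β M : WO p, β ^ 2 = ((31 : ℕ) : WO p) ∧ 2 * M = (β - g * i) * MUw (W v g k) ∧
      DW (SW p) (W v g k) (W v (-g) (-k)) M 17 := by
  refine ⟨k, (k - g * i) * (Wq 0 (-35100) 0 18900 v g k), ?_, ?_, ?_⟩
  · rw [hk]; push_cast; rfl
  · rw [Meq hv hg hk]; ring
  · unfold DW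
    rw [Zeq hv hg hk, Zeq hv (by rw [neg_sq]; exact hg) (by rw [neg_sq]; exact hk)]
    have := charZ (p := p)
    refine LD.dat (SW p) dd dd_O dd_N dd_F dd_D dd_L (g := g) (q := k) (i := i)
      (by rw [hg, show dd.A = 3 from rfl]; push_cast; rfl) (by rw [hk, show dd.B = 31 from rfl]; push_cast; rfl)
      (by rw [hi, show dd.C = -1 from rfl]; push_cast; rfl) (D := (675 : WO p))
      (dal hv hg hk) (dbe hv hg hk) (dal' hv hg hk hi) (dbe' hv hg hk hi) (k2_of h3) ?_ ?_ ?_ ?_ ?_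
    · have := red_int_ne (p := p) (n := 675) (by
    have e : (675 : ℤ) = (((3 : ℕ) : ℤ) ^ 3) * ((((5 : ℕ) : ℤ) ^ 2)) := by norm_num
    rw [e]
    exact nd_mul' (nd_pow (p := p) (q := 3) (by norm_num) (hne 3 (by simp)) 3) (nd_pow (p := p) (q := 5) (by norm_num) (hne 5 (by simp)) 2))
      exact_mod_cast this
    · exact red_ne_mul (n := 34) (by push_cast; exact ne_m hv hg hk hi) (by
    have e : (34 : ℤ) = (((2 : ℕ) : ℤ) ^ 1) * ((((17 : ℕ) : ℤ) ^ 1)) := by norm_num
    rw [e]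
    exact nd_mul' (nd_pow (p := p) (q := 2) (by norm_num) (hne 2 (by simp)) 1) (nd_pow (p := p) (q := 17) (by norm_num) (hne 17 (by simp)) 1))
    · rw [show dd.c2 = 1156 from rfl]
      exact red_int_ne (by
    have e : (1156 : ℤ) = (((2 : ℕ) : ℤ) ^ 2) * ((((17 : ℕ) : ℤ) ^ 2)) := by norm_num
    rw [e]
    exact nd_mul' (nd_pow (p := p) (q := 2) (by norm_num) (hne 2 (by simp)) 2) (nd_pow (p := p) (q := 17) (by norm_num) (hne 17 (by simp)) 2))
    · rw [show dd.r1 = 10382522786657654040527343750000000 from rfl]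
      exact red_int_ne (by
    have e : (10382522786657654040527343750000000 : ℤ) = (((2 : ℕ) : ℤ) ^ 7) * ((((3 : ℕ) : ℤ) ^ 35) * ((((5 : ℕ) : ℤ) ^ 20) * ((((17 : ℕ) : ℤ) ^ 1)))) := by norm_num
    rw [e]
    exact nd_mul' (nd_pow (p := p) (q := 2) (by norm_num) (hne 2 (by simp)) 7) (nd_mul' (nd_pow (p := p) (q := 3) (by norm_num) (hne 3 (by simp)) 35) (nd_mul' (nd_pow (p := p) (q := 5) (by norm_num) (hne 5 (by simp)) 20) (nd_pow (p := p) (q := 17) (by norm_num) (hne 17 (by simp)) 1))))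
    · rw [show dd.r2 = 9931856926075434577713405761718750000000000000000 from rfl]
      exact red_int_ne (by
    have e : (9931856926075434577713405761718750000000000000000 : ℤ) = (((2 : ℕ) : ℤ) ^ 16) * ((((3 : ℕ) : ℤ) ^ 49) * ((((5 : ℕ) : ℤ) ^ 28) * ((((17 : ℕ) : ℤ) ^ 1)))) := by norm_num
    rw [e]
    exact nd_mul' (nd_pow (p := p) (q := 2) (by norm_num) (hne 2 (by simp)) 16) (nd_mul' (nd_pow (p := p) (q := 3) (by norm_num) (hne 3 (by simp)) 49) (nd_mul' (nd_pow (p := p) (q := 5) (by norm_num) (hne 5 (by simp)) 28) (nd_pow (p := p) (q := 17) (by norm_num) (hne 17 (by simp)) 1))))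

theorem bw (h3 : 3 < p) (hne : ∀ q ∈ ([2, 3, 5, 7, 17, 31] : List ℕ), p ≠ q) (hno : ∀ q ∈ ([11, 19, 23, 83, 179, 251, 263, 347] : List ℕ), p ≠ q) (hv : (243000 : WO p) * v = 1) (hg : g ^ 2 = 3) (hk : k ^ 2 = 31) (hi : i ^ 2 = -1) :
    BA 31 17 (g * i) (W v g k) (W v (-g) (-k)) := by
  refine ⟨?_, ?_, iso h3 hne hv hg hk hi⟩
  · rw [Zeq hv hg hk]
    exact red_ne_mul (n := 988569923) (by push_cast; exact ne_a hv hg hk) (by
    have e : (988569923 : ℤ) = (((11 : ℕ) : ℤ) ^ 1) * ((((23 : ℕ) : ℤ) ^ 1) * ((((83 : ℕ) : ℤ) ^ 1) * ((((179 : ℕ) : ℤ) ^ 1) * ((((263 : ℕ) : ℤ) ^ 1))))) := by norm_num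
    rw [e]
    exact nd_mul' (nd_pow (p := p) (q := 11) (by norm_num) (hno 11 (by simp)) 1) (nd_mul' (nd_pow (p := p) (q := 23) (by norm_num) (hno 23 (by simp)) 1) (nd_mul' (nd_pow (p := p) (q := 83) (by norm_num) (hno 83 (by simp)) 1) (nd_mul' (nd_pow (p := p) (q := 179) (by norm_num) (hno 179 (by simp)) 1) (nd_pow (p := p) (q := 263) (by norm_num) (hno 263 (by simp)) 1)))))
  · rw [Zeq hv hg hk]
    exact red_ne_mul (n := 243250337099) (by push_cast; exact ne_b hv hg hk) (by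
    have e : (243250337099 : ℤ) = (((7 : ℕ) : ℤ) ^ 1) * ((((11 : ℕ) : ℤ) ^ 1) * ((((19 : ℕ) : ℤ) ^ 1) * ((((23 : ℕ) : ℤ) ^ 1) * ((((83 : ℕ) : ℤ) ^ 1) * ((((251 : ℕ) : ℤ) ^ 1) * ((((347 : ℕ) : ℤ) ^ 1))))))) := by norm_num
    rw [e]
    exact nd_mul' (nd_pow (p := p) (q := 7) (by norm_num) (hne 7 (by simp)) 1) (nd_mul' (nd_pow (p := p) (q := 11) (by norm_num) (hno 11 (by simp)) 1) (nd_mul' (nd_pow (p := p) (q := 19) (by norm_num) (hno 19 (by simp)) 1) (nd_mul' (nd_pow (p := p) (q := 23) (by norm_num) (hno 23 (by simp)) 1) (nd_mul' (nd_pow (p := p) (q := 83) (by norm_num) (hno 83 (by simp)) 1) (nd_mul' (nd_pow (p := p) (q := 251) (by norm_num) (hno 251 (by simp)) 1) (nd_pow (p := p) (q := 347) (by norm_num) (hno 347 (by simp)) 1)))))))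

theorem data (h3 : 3 < p) (hne : ∀ q ∈ ([2, 3, 5, 7, 17, 31] : List ℕ), p ≠ q) : ∃ v g k i μ : WO p, (243000 : WO p) * v = 1 ∧ g ^ 2 = 3 ∧ k ^ 2 = 31 ∧
    i ^ 2 = -1 ∧ ((-24304 : ℤ) : WO p) * μ = 1 := by
  obtain ⟨v, hv⟩ := (unit_int (p := p) (n := 243000) (by
    have e : (243000 : ℤ) = (((2 : ℕ) : ℤ) ^ 3) * ((((3 : ℕ) : ℤ) ^ 5) * ((((5 : ℕ) : ℤ) ^ 3))) := by norm_num
    rw [e]
    exact nd_mul' (nd_pow (p := p) (q := 2) (by norm_num) (hne 2 (by simp)) 3) (nd_mul' (nd_pow (p := p) (q := 3) (by norm_num) (hne 3 (by simp)) 5) (nd_pow (p := p) (q := 5) (by norm_num) (hne 5 (by simp)) 3)))).exists_right_inv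
  obtain ⟨μ, hμ⟩ := (unit_int (p := p) (n := -24304) (by
    rw [dvd_neg]
    have e : (24304 : ℤ) = (((2 : ℕ) : ℤ) ^ 4) * ((((7 : ℕ) : ℤ) ^ 2) * ((((31 : ℕ) : ℤ) ^ 1))) := by norm_num
    rw [e]
    exact nd_mul' (nd_pow (p := p) (q := 2) (by norm_num) (hne 2 (by simp)) 4) (nd_mul' (nd_pow (p := p) (q := 7) (by norm_num) (hne 7 (by simp)) 2) (nd_pow (p := p) (q := 31) (by norm_num) (hne 31 (by simp)) 1)))).exists_right_inv
  obtain ⟨g, hg⟩ := wo_isqrt p (by omega) (d := 3) (by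
    have e : (3 : ℤ) = (((3 : ℕ) : ℤ) ^ 1) := by norm_num
    rw [e]
    exact nd_pow (p := p) (q := 3) (by norm_num) (hne 3 (by simp)) 1)
  obtain ⟨k, hk⟩ := wo_isqrt p (by omega) (d := 31) (by
    have e : (31 : ℤ) = (((31 : ℕ) : ℤ) ^ 1) := by norm_num
    rw [e]
    exact nd_pow (p := p) (q := 31) (by norm_num) (hne 31 (by simp)) 1)
  obtain ⟨i, hi⟩ := wo_isqrt p (by omega) (d := -1) (by rw [dvd_neg]; exact nd_one)
  refine ⟨v, g, k, i, μ, ?_, ?_, ?_, ?_, hμ⟩
  · exact_mod_cast hv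
  · exact_mod_cast hg
  · exact_mod_cast hk
  · rw [hi]; push_cast; rfl

theorem u4 (h3 : 3 < p) (hne : ∀ q ∈ ([2, 3, 5, 7, 17, 31] : List ℕ), p ≠ q) (hv : (243000 : WO p) * v = 1) (hg : g ^ 2 = 3) (hk : k ^ 2 = 31) :
    U4 (W v g k) (W v g (-k)) (W v (-g) k) (W v (-g) (-k)) := by
  refine u_4 (q4 hv hg hk) (u3_of h3) ?_
  have := unit_int (p := p) (n := -24300) (by
    rw [dvd_neg]
    have e : (24300 : ℤ) = (((2 : ℕ) : ℤ) ^ 2) * ((((3 : ℕ) : ℤ) ^ 5) * ((((5 : ℕ) : ℤ) ^ 2))) := by norm_num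
    rw [e]
    exact nd_mul' (nd_pow (p := p) (q := 2) (by norm_num) (hne 2 (by simp)) 2) (nd_mul' (nd_pow (p := p) (q := 3) (by norm_num) (hne 3 (by simp)) 5) (nd_pow (p := p) (q := 5) (by norm_num) (hne 5 (by simp)) 2)))
  push_cast at this ⊢
  have e : (-24304 : WO p) + 4 = -24300 := by norm_num
  rw [e]; exact this

theorem ord (h : legendreSym p (-(3 * 31)) = 1) : ∀ q ∈ ([11, 19, 23, 83, 179, 251, 263, 347] : List ℕ), p ≠ q := by
  intro q hq
  simp only [List.mem_cons, List.not_mem_nil, or_false] at hq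
  rcases hq with rfl | rfl | rfl | rfl | rfl | rfl | rfl | rfl <;> (rintro rfl; revert h; norm_num)

end wo

end Pool.Agent.H578.CM.F31
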