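import Pool.Agent.H578.CM.Lp3

set_option autoImplicit false
set_option maxHeartbeats 4000000
set_option maxRecDepth 100000

namespace Pool.Agent.H578.CM.F7

open Pool.Agent.H578.CM

def dd : LD where
  A := 3
  B := 7
  C := -1
  al := ⟨-135, -78, 0, 6, 0, 0, 0, 0⟩
  be := ⟨770, 546, -26, -42, 0, 0, 0, 0⟩
  al' := ⟨5865, -2754, -2040, 918, 4536, -3360, -1944, 1380⟩
  be' := ⟨-454300, 282492, 168268, -104076, 166698, -89838, -64638, 34650⟩
  N := [
    ⟨173463000, -89070600, -65218200, 33933000, 58743000, -47425800, -22530600, 17787000⟩,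
    ⟨-4499500, -940600, 1590400, 397600, 56179200, -28060400, -21129600, 10661000⟩,
    ⟨-4598500, 2946600, 1662400, -1113300, 1424400, -1329900, -528900, 483000⟩,
    ⟨-134400, 87000, 55200, -25800, -117600, 91800, 51000, -37800⟩,
    ⟨-700, -1600, -200, 100, -1800, 700, 900, -400⟩,
    ⟨100, 0, 0, 0, 0, 0, 0, 0⟩]
  H := [
    ⟨-85, 484, 190, -103, -294, 335, 141, -140⟩,
    ⟨-35, -80, -10, 5, -90, 35, 45, -20⟩,
    ⟨10, 0, 0, 0, 0, 0, 0, 0⟩]
  Q := [
    ⟨-170180, -48300, 21980, -7500, 10500, -24180, -3300, 8340⟩,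
    ⟨13235, 16540, 3070, -2335, -5670, 5255, 2565, -2180⟩,
    ⟨-35, -80, -10, 5, -90, 35, 45, -20⟩,
    ⟨-150, 0, 0, 0, 0, 0, 0, 0⟩]
  U1 := [
    ⟨11954233110, 6901781700, 4518278040, 2608629870, 294915240, 170273610, 111469950, 64358820⟩,
    ⟨-1371295370, -791717020, -518301320, -299241130, -2666760, -1539630, -1007970, -581940⟩]
  V1 := [
    ⟨-22177994760, -12804469632, -8382502008, -4839639192, -45649224, -26355672, -17254512, -9961920⟩,
    ⟨1233206139, 711992064, 466108482, 269107923, 2258046, 1303713, 853479, 492768⟩,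
    ⟨137129537, 79171702, 51830132, 29924113, 266676, 153963, 100797, 58194⟩]
  U2 := [
    ⟨-574, -340, -220, -130, -1780, -1030, -670, -388⟩]
  V2 := [
    ⟨-2487, -1431, -957, -549, -7923, -4563, -2991, -1719⟩,
    ⟨287, 170, 110, 65, 890, 515, 335, 194⟩]
  r1 := 58320
  r2 := 2160
  c2 := 100
  l := 5

theorem dd_O : dd.okO = true := by decide +kernel

theorem dd_N : dd.okN = true := by decide +kernel

theorem dd_F : dd.okF = true := by decide +kernel

theorem dd_D : dd.okD = true := by decide +kernel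

theorem dd_L : dd.okL = true := by decide +kernel

end Pool.Agent.H578.CM.F7
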