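import Pool.Agent.H578.CM.D.F7
import Pool.Agent.H578.CM.Q4a

set_option autoImplicit false
set_option linter.unusedSectionVars false
set_option linter.unusedVariables false
set_option maxHeartbeats 4000000
set_option maxRecDepth 100000

namespace Pool.Agent.H578.CM.F7

open Finset Pool.Agent.H546 Pool.Agent.H547 Pool.Agent.H578.CM
open Pool.Agent.Q267.CDE (R)

section ring

variable {B : Type*} [CommRing B] {v g k i : B}

def W (v g k : B) : B := Wq 252 162 (-108) (-54) v g k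

theorem q4 (hv : (72 : B) * v = 1) (hg : g ^ 2 = 3) (hk : k ^ 2 = 7) :
    Q4 (-112) (W v g k) (W v g (-k)) (W v (-g) k) (W v (-g) (-k)) := by
  refine ⟨?_, ?_, ?_, ?_, ?_, ?_⟩ <;> simp only [W, Wq] <;> push_cast
  · linear_combination (-23328 * v ^ 2 * k ^ 2 + 209952 * v ^ 2) * hg + (-93312 * v ^ 2 * g - 163296 * v ^ 2) * hk + (-72 * v - 1) * hv
  · linear_combination (-23328 * v ^ 2 * k ^ 2 + 209952 * v ^ 2) * hg + (93312 * v ^ 2 * g - 163296 * v ^ 2) * hk + (-72 * v - 1) * hv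
  · linear_combination (-23328 * v ^ 2 * k ^ 2 + 139968 * v ^ 2 * k - 209952 * v ^ 2) * hg + (23328 * v ^ 2) * hk + (-216 * v * k + 576 * v + 1) * hv
  · linear_combination (-23328 * v ^ 2 * k ^ 2 - 139968 * v ^ 2 * k - 209952 * v ^ 2) * hg + (23328 * v ^ 2) * hk + (216 * v * k + 576 * v + 1) * hv
  · linear_combination (544195584 * v ^ 4 * g ^ 2 * k ^ 4 - 6530347008 * v ^ 4 * g ^ 2 * k ^ 3 + 29386561536 * v ^ 4 * g ^ 2 * k ^ 2 - 58773123072 * v ^ 4 * g ^ 2 * k + 44079842304 * v ^ 4 * g ^ 2 - 2720977920 * v ^ 4 * k ^ 4 + 26846982144 * v ^ 4 * k ^ 3 - 96624949248 * v ^ 4 * k ^ 2 + 148746792960 * v ^ 4 * k - 81085142016 * v ^ 4 + 373248 * v ^ 2 * k ^ 2 - 2239488 * v ^ 2 * k + 3359232 * v ^ 2) * hg + (544195584 * v ^ 4 * k ^ 2 - 725594112 * v ^ 4 * k - 1632586752 * v ^ 4 - 373248 * v ^ 2) * hk + (-17915904 * v ^ 3 * k + 47402496 * v ^ 3 - 248832 * v ^ 2 * k +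 658368 * v ^ 2 - 72 * v - 1) * hv
  · linear_combination (544195584 * v ^ 4 * g ^ 2 * k ^ 4 + 6530347008 * v ^ 4 * g ^ 2 * k ^ 3 + 29386561536 * v ^ 4 * g ^ 2 * k ^ 2 + 58773123072 * v ^ 4 * g ^ 2 * k + 44079842304 * v ^ 4 * g ^ 2 - 2720977920 * v ^ 4 * k ^ 4 - 26846982144 * v ^ 4 * k ^ 3 - 96624949248 * v ^ 4 * k ^ 2 - 148746792960 * v ^ 4 * k - 81085142016 * v ^ 4 + 373248 * v ^ 2 * k ^ 2 + 2239488 * v ^ 2 * k + 3359232 * v ^ 2) * hg + (544195584 * v ^ 4 * k ^ 2 + 725594112 * v ^ 4 * k - 1632586752 * v ^ 4 - 373248 * v ^ 2) * hk + (17915904 * v ^ 3 * k + 47402496 * v ^ 3 + 248832 * v ^ 2 * k + 658368 * v ^ 2 - 72 * v - 1) * hv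

theorem jj (hv : (72 : B) * v = 1) (hg : g ^ 2 = 3) (hk : k ^ 2 = 7) : (1 - 2 * W v g k) * (Wq 48 (-8) 0 8 v g k) = 1 := by
  simp only [W, Wq]
  push_cast
  linear_combination (864 * v ^ 2 * k ^ 2 - 3456 * v ^ 2 * k + 2592 * v ^ 2) * hg + (1728 * v ^ 2 * g + 2592 * v ^ 2) * hk + (-8 * v * g * k + 8 * v * g + 24 * v + 1) * hv

theorem a4 (hv : (72 : B) * v = 1) (hg : g ^ 2 = 3) (hk : k ^ 2 = 7) : 4 * (27 * W v g k ^ 2 * (Wq 48 (-8) 0 8 v g k) ^ 3) = Wq 144 (-104) 0 8 v g k := by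
  simp only [W, Wq]
  push_cast
  linear_combination (161243136 * v ^ 5 * g ^ 3 * k ^ 5 - 1451188224 * v ^ 5 * g ^ 3 * k ^ 4 + 4837294080 * v ^ 5 * g ^ 3 * k ^ 3 - 7417184256 * v ^ 5 * g ^ 3 * k ^ 2 + 5321023488 * v ^ 5 * g ^ 3 * k - 1451188224 * v ^ 5 * g ^ 3 + 644972544 * v ^ 5 * g ^ 2 * k ^ 5 - 2472394752 * v ^ 5 * g ^ 2 * k ^ 4 - 6449725440 * v ^ 5 * g ^ 2 * k ^ 3 + 39343325184 * v ^ 5 * g ^ 2 * k ^ 2 - 52672757760 * v ^ 5 * g ^ 2 * k + 21606580224 * v ^ 5 * g ^ 2 + 1128701952 * v ^ 5 * g * k ^ 5 + 2311151616 * v ^ 5 * g * k ^ 4 - 38734184448 * v ^ 5 * g * k ^ 3 + 52350271488 * v ^ 5 * g * k ^ 2 + 66270928896 * v ^ 5 * g * k - 83326869504 * v ^ 5 * g + 1934917632 * v ^ 5 * k ^ 5 + 4192321536 * v ^ 5 * k ^ 4 - 27088846848 * v ^ 5 * k ^ 3 - 105130524672 * v ^ 5 * k ^ 2 + 311521738752 * v ^ 5 * k - 46115536896 * v ^ 5) * hg + (3386105856 * v ^ 5 * g * k ^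 3 + 6933454848 * v ^ 5 * g * k ^ 2 - 22842777600 * v ^ 5 * g * k - 49824129024 * v ^ 5 * g + 5804752896 * v ^ 5 * k ^ 3 + 12576964608 * v ^ 5 * k ^ 2 - 40633270272 * v ^ 5 * k - 88038752256 * v ^ 5) * hk + (2985984 * v ^ 4 * g * k - 38817792 * v ^ 4 * g + 53747712 * v ^ 4 + 41472 * v ^ 3 * g * k - 539136 * v ^ 3 * g + 746496 * v ^ 3 + 576 * v ^ 2 * g * k - 7488 * v ^ 2 * g + 10368 * v ^ 2 + 8 * v * g * k - 104 * v * g + 144 * v) * hv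

theorem mu (hv : (72 : B) * v = 1) (hg : g ^ 2 = 3) (hk : k ^ 2 = 7) : (1 + 4 * W v g k) * (Wq 48 (-8) 0 8 v g k) = 2 * (Wq 0 (-12) 0 12 v g k) := by
  simp only [W, Wq]
  push_cast
  linear_combination (-1728 * v ^ 2 * k ^ 2 + 6912 * v ^ 2 * k - 5184 * v ^ 2) * hg + (-3456 * v ^ 2 * g - 5184 * v ^ 2) * hk + (16 * v * g * k - 16 * v * g - 48 * v) * hv

theorem ne_a (hv : (72 : B) * v = 1) (hg : g ^ 2 = 3) (hk : k ^ 2 = 7) : ca (Wq 144 (-104) 0 8 v g k) * (Wq (-3480) (-1872) (-12480) 7056 v g k) = 2773 := by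
  simp only [Wq, ca]
  push_cast
  linear_combination (338688 * v ^ 2 * k ^ 2 - 4492800 * v ^ 2 * k + 1168128 * v ^ 2) * hg + (-599040 * v ^ 2 * g + 1016064 * v ^ 2) * hk + (190512 * v * g * k - 50544 * v * g - 336960 * v * k + 105696 * v + 2773) * hv

theorem ne_b (hv : (72 : B) * v = 1) (hg : g ^ 2 = 3) (hk : k ^ 2 = 7) : cb (Wq 144 (-104) 0 8 v g k) * (Wq (-356013) 228501 (-98865) 58401 v g k) = 34279 := by
  simp only [Wq, cb]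
  push_cast
  linear_combination (3737664 * v ^ 3 * g * k ^ 3 - 82555200 * v ^ 3 * g * k ^ 2 + 251439552 * v ^ 3 * g * k + 2471466816 * v ^ 3 * g - 6327360 * v ^ 3 * k ^ 3 + 276282432 * v ^ 3 * k ^ 2 - 1699678656 * v ^ 3 * k - 10694698560 * v ^ 3 - 8409744 * v ^ 2 * k ^ 2 + 76422528 * v ^ 2 * k + 427753872 * v ^ 2) * hg + (11212992 * v ^ 3 * g * k - 475450560 * v ^ 3 * g - 18982080 * v ^ 3 * k + 828847296 * v ^ 3 + 14236560 * v ^ 2 * g - 25229232 * v ^ 2) * hk + (58121712 * v ^ 2 * g * k + 270663120 * v ^ 2 * g - 101138544 * v ^ 2 * k - 467561808 * v ^ 2 - 3153654 * v * g * k - 12339054 * v * g + 5338710 * v * k + 21692790 * v + 34279) * hv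

theorem ne_m (hv : (72 : B) * v = 1) (hg : g ^ 2 = 3) (hk : k ^ 2 = 7) (hi : i ^ 2 = -1) : (k - g * i) * (Wq 0 (-12) 0 12 v g k) * ((k + g * i) * (Wq 0 24 0 24 v g k)) = 10 := by
  simp only [Wq]
  push_cast
  linear_combination (-288 * v ^ 2 * g ^ 4 * k ^ 2 + 288 * v ^ 2 * g ^ 4) * hi + (288 * v ^ 2 * g ^ 2 * k ^ 2 - 288 * v ^ 2 * g ^ 2 + 288 * v ^ 2 * k ^ 4 + 576 * v ^ 2 * k ^ 2 - 864 * v ^ 2) * hg + (864 * v ^ 2 * k ^ 2 + 7776 * v ^ 2) * hk + (720 * v + 10) * hv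

theorem dal (hv : (72 : B) * v = 1) (hg : g ^ 2 = 3) (hk : k ^ 2 = 7) : T8.ev g k i dd.al = 3 ^ 2 * ca (Wq 144 (-104) 0 8 v g k) := by
  rw [show dd.al = ⟨-135, -78, 0, 6, 0, 0, 0, 0⟩ from rfl]
  simp only [T8.ev, Wq, ca]
  push_cast
  linear_combination (-6 * g * k + 78 * g - 108) * hv

theorem dbe (hv : (72 : B) * v = 1) (hg : g ^ 2 = 3) (hk : k ^ 2 = 7) : T8.ev g k i dd.be = 3 ^ 3 * cb (Wq 144 (-104) 0 8 v g k) := by
  rw [show dd.be = ⟨770, 546, -26, -42, 0, 0, 0, 0⟩ from rfl]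
  simp only [T8.ev, Wq, cb]
  push_cast
  linear_combination (-1728 * v ^ 2 * k ^ 2 + 44928 * v ^ 2 * k - 292032 * v ^ 2) * hg + (-5184 * v ^ 2) * hk + (-864 * v * g * k + 11232 * v * g + 1872 * v * k - 20448 * v + 42 * g * k - 546 * g + 26 * k + 688) * hv

theorem h2 (hv : (72 : B) * v = 1) (hg : g ^ 2 = 3) (hk : k ^ 2 = 7) : (Wq 0 (-12) 0 12 v g k) ^ 2 = ((48) * 1 + (0) * g + (-12) * k + (0) * (g * k)) * v ^ 1 := by
  simp only [Wq]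
  push_cast
  linear_combination (144 * v ^ 2 * k ^ 2 - 288 * v ^ 2 * k + 144 * v ^ 2) * hg + (432 * v ^ 2) * hk + (-12 * v * k + 48 * v) * hv

theorem h4 (hv : (72 : B) * v = 1) (hg : g ^ 2 = 3) (hk : k ^ 2 = 7) : (Wq 0 (-12) 0 12 v g k) ^ 4 = ((46) * 1 + (0) * g + (-16) * k + (0) * (g * k)) * v ^ 1 := by
  have e : (Wq 0 (-12) 0 12 v g k) ^ 4 = ((Wq 0 (-12) 0 12 v g k) ^ 2) ^ 2 := by ring
  rw [e, h2 hv hg hk]
  linear_combination (144 * v ^ 2) * hk + (-16 * v * k + 46 * v) * hv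

theorem h6 (hv : (72 : B) * v = 1) (hg : g ^ 2 = 3) (hk : k ^ 2 = 7) : (Wq 0 (-12) 0 12 v g k) ^ 6 = ((3552) * 1 + (0) * g + (-1320) * k + (0) * (g * k)) * v ^ 2 := by
  have e : (Wq 0 (-12) 0 12 v g k) ^ 6 = ((Wq 0 (-12) 0 12 v g k) ^ 2) * ((Wq 0 (-12) 0 12 v g k) ^ 4) := by ring
  rw [e, h2 hv hg hk, h4 hv hg hk]
  linear_combination (192 * v ^ 2) * hk

theorem t4 (hg : g ^ 2 = 3) (hk : k ^ 2 = 7) (hi : i ^ 2 = -1) : (k - g * i) ^ 4 = (-68) * 1 + (-16) * (g * k * i) := by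
  linear_combination (g ^ 4 * i ^ 2 - g ^ 4 - 4 * g ^ 3 * k * i + 6 * g ^ 2 * k ^ 2) * hi + (g ^ 2 + 4 * g * k * i - 6 * k ^ 2 + 3) * hg + (-4 * g * k * i + k ^ 2 - 11) * hk

theorem t6 (hg : g ^ 2 = 3) (hk : k ^ 2 = 7) (hi : i ^ 2 = -1) : (k - g * i) ^ 6 = (-944) * 1 + 72 * (g * k * i) := by
  linear_combination (g ^ 6 * i ^ 4 - g ^ 6 * i ^ 2 + g ^ 6 - 6 * g ^ 5 * k * i ^ 3 + 6 * g ^ 5 * k * i + 15 * g ^ 4 * k ^ 2 * i ^ 2 - 15 * g ^ 4 * k ^ 2 - 20 * g ^ 3 * k ^ 3 * i + 15 * g ^ 2 * k ^ 4) * hi + (-g ^ 4 - 6 * g ^ 3 * k * i + 15 * g ^ 2 * k ^ 2 - 3 * g ^ 2 + 20 * g * k ^ 3 * i - 18 * g * k * i - 15 * k ^ 4 + 45 * k ^ 2 - 9) * hg + (-6 * g * k ^ 3 * i + 18 * g * k * i + k ^ 4 - 38 * k ^ 2 - 131) * hk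

theorem dal' (hv : (72 : B) * v = 1) (hg : g ^ 2 = 3) (hk : k ^ 2 = 7) (hi : i ^ 2 = -1) : T8.ev g k i dd.al' = 3 ^ 2 * (ca (Wq 144 (-104) 0 8 v (-g) (-k)) * ((k - g * i) * (Wq 0 (-12) 0 12 v g k)) ^ 4) := by
  rw [show dd.al' = ⟨5865, -2754, -2040, 918, 4536, -3360, -1944, 1380⟩ from rfl, mul_pow, t4 hg hk hi, h4 hv hg hk]
  simp only [T8.ev, Wq, ca]
  push_cast
  linear_combination (-110592 * v ^ 2 * k ^ 3 * i - 1119744 * v ^ 2 * k ^ 2 * i + 4133376 * v ^ 2 * k * i) * hg + (-1990656 * v ^ 2 * g * i - 470016 * v ^ 2 * g - 331776 * v ^ 2 * k * i - 3359232 * v ^ 2 * i + 62208 * v * g * i) * hk + (79488 * v * g * k * i - 66096 * v * g * k - 193536 * v * g * i + 198288 * v * g + 139968 * v * k * i - 117504 * v * k - 326592 * v * i + 337824 * v - 1380 * g * k * i - 918 * g * k + 3360 * g * i + 2754 * g + 1944 * k * i + 2040 * k - 4536 * i - 5865) * hv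

theorem dbe' (hv : (72 : B) * v = 1) (hg : g ^ 2 = 3) (hk : k ^ 2 = 7) (hi : i ^ 2 = -1) : T8.ev g k i dd.be' = 3 ^ 3 * (cb (Wq 144 (-104) 0 8 v (-g) (-k)) * ((k - g * i) * (Wq 0 (-12) 0 12 v g k)) ^ 6) := by
  rw [show dd.be' = ⟨-454300, 282492, 168268, -104076, 166698, -89838, -64638, 34650⟩ from rfl, mul_pow, t6 hg hk hi, h6 hv hg hk]
  simp only [T8.ev, Wq, cb]
  push_cast
  linear_combination (164229120 * v ^ 4 * g * k ^ 4 * i + 3828031488 * v ^ 4 * g * k ^ 3 * i + 16264654848 * v ^ 4 * g * k ^ 2 * i - 74685431808 * v ^ 4 * g * k * i + 5912248320 * v ^ 4 * k ^ 3 * i - 2153226240 * v ^ 4 * k ^ 3 + 60949905408 * v ^ 4 * k ^ 2 * i - 50189746176 * v ^ 4 * k ^ 2 - 206821195776 * v ^ 4 * k * i - 213247696896 * v ^ 4 * k + 979208994816 * v ^ 4 - 369515520 * v ^ 3 * k ^ 3 * i - 3809369088 * v ^ 3 * k ^ 2 * i + 12926324736 * v ^ 3 * k * i) * hg + (492687360 *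 v ^ 4 * g * k ^ 2 * i + 11484094464 * v ^ 4 * g * k * i + 105453010944 * v ^ 4 * g * i - 77516144640 * v ^ 4 * g + 17736744960 * v ^ 4 * k * i - 6459678720 * v ^ 4 * k + 182849716224 * v ^ 4 * i - 150569238528 * v ^ 4 - 6651279360 * v ^ 3 * g * i + 4844759040 * v ^ 3 * g - 1108546560 * v ^ 3 * k * i - 11428107264 * v ^ 3 * i + 138568320 * v ^ 2 * g * i) * hk + (-3984049152 * v ^ 3 * g * k * i - 11098902528 * v ^ 3 * g * k + 10252376064 * v ^ 3 * g * i + 30125592576 * v ^ 3 * g - 6893144064 * v ^ 3 * k * i - 19202863104 * v ^ 3 * k + 17777055744 * v ^ 3 * i + 52235311104 * v ^ 3 + 193249152 * v ^ 2 * g * k * i + 539529984 * v ^ 2 * g * k - 504258048 * v ^ 2 * g * i - 1464438528 * v ^ 2 * g + 335083392 * v ^ 2 * k * i + 944483328 * v ^ 2 * k - 864162432 * v ^ 2 * i - 2533711104 * v ^ 2 - 2494800 * v * g * k * i + 7493472 * v * g * k + 6468336 * v * g * i - 20339424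 * v * g + 4653936 * v * k * i - 12115296 * v * k - 12002256 * v * i + 32709600 * v - 34650 * g * k * i + 104076 * g * k + 89838 * g * i - 282492 * g + 64638 * k * i - 168268 * k - 166698 * i + 454300) * hv

end ring

section wo

variable {p : ℕ} [hp : Fact p.Prime] {v g k i : WO p}

theorem Zeq (hv : (72 : WO p) * v = 1) (hg : g ^ 2 = 3) (hk : k ^ 2 = 7) : 4 * Zw (W v g k) = Wq 144 (-104) 0 8 v g k := by
  rw [Zw, Jw_eq (jj hv hg hk)]; exact a4 hv hg hk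

theorem Meq (hv : (72 : WO p) * v = 1) (hg : g ^ 2 = 3) (hk : k ^ 2 = 7) : MUw (W v g k) = 2 * (Wq 0 (-12) 0 12 v g k) := by
  rw [MUw, Jw_eq (jj hv hg hk)]; exact mu hv hg hk

theorem iso (h3 : 3 < p) (hne : ∀ q ∈ ([2, 3, 5, 7] : List ℕ), p ≠ q) (hv : (72 : WO p) * v = 1) (hg : g ^ 2 = 3) (hk : k ^ 2 = 7) (hi : i ^ 2 = -1) :
    ∃ β M : WO p, β ^ 2 = ((7 : ℕ) : WO p) ∧ 2 * M = (β - g * i) * MUw (W v g k) ∧
      DW (SW p) (W v g k) (W v (-g) (-k)) M 5 := by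
  refine ⟨k, (k - g * i) * (Wq 0 (-12) 0 12 v g k), ?_, ?_, ?_⟩
  · rw [hk]; push_cast; rfl
  · rw [Meq hv hg hk]; ring
  · unfold DW
    rw [Zeq hv hg hk, Zeq hv (by rw [neg_sq]; exact hg) (by rw [neg_sq]; exact hk)]
    have := charZ (p := p)
    refine LD.dat (SW p) dd dd_O dd_N dd_F dd_D dd_L (g := g) (q := k) (i := i)
      (by rw [hg, show dd.A = 3 from rfl]; push_cast; rfl) (by rw [hk, show dd.B = 7 from rfl]; push_cast; rfl)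
      (by rw [hi, show dd.C = -1 from rfl]; push_cast; rfl) (D := (3 : WO p))
      (dal hv hg hk) (dbe hv hg hk) (dal' hv hg hk hi) (dbe' hv hg hk hi) (k2_of h3) ?_ ?_ ?_ ?_ ?_
    · have := red_int_ne (p := p) (n := 3) (by
    have e : (3 : ℤ) = (((3 : ℕ) : ℤ) ^ 1) := by norm_num
    rw [e]
    exact nd_pow (p := p) (q := 3) (by norm_num) (hne 3 (by simp)) 1)
      exact_mod_cast this
    · exact red_ne_mul (n := 10) (by push_cast; exact ne_m hv hg hk hi) (by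
    have e : (10 : ℤ) = (((2 : ℕ) : ℤ) ^ 1) * ((((5 : ℕ) : ℤ) ^ 1)) := by norm_num
    rw [e]
    exact nd_mul' (nd_pow (p := p) (q := 2) (by norm_num) (hne 2 (by simp)) 1) (nd_pow (p := p) (q := 5) (by norm_num) (hne 5 (by simp)) 1))
    · rw [show dd.c2 = 100 from rfl]
      exact red_int_ne (by
    have e : (100 : ℤ) = (((2 : ℕ) : ℤ) ^ 2) * ((((5 : ℕ) : ℤ) ^ 2)) := by norm_num
    rw [e]
    exact nd_mul' (nd_pow (p := p) (q := 2) (by norm_num) (hne 2 (by simp)) 2) (nd_pow (p := p) (q := 5) (by norm_num) (hne 5 (by simp)) 2))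
    · rw [show dd.r1 = 58320 from rfl]
      exact red_int_ne (by
    have e : (58320 : ℤ) = (((2 : ℕ) : ℤ) ^ 4) * ((((3 : ℕ) : ℤ) ^ 6) * ((((5 : ℕ) : ℤ) ^ 1))) := by norm_num
    rw [e]
    exact nd_mul' (nd_pow (p := p) (q := 2) (by norm_num) (hne 2 (by simp)) 4) (nd_mul' (nd_pow (p := p) (q := 3) (by norm_num) (hne 3 (by simp)) 6) (nd_pow (p := p) (q := 5) (by norm_num) (hne 5 (by simp)) 1)))
    · rw [show dd.r2 = 2160 from rfl]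
      exact red_int_ne (by
    have e : (2160 : ℤ) = (((2 : ℕ) : ℤ) ^ 4) * ((((3 : ℕ) : ℤ) ^ 3) * ((((5 : ℕ) : ℤ) ^ 1))) := by norm_num
    rw [e]
    exact nd_mul' (nd_pow (p := p) (q := 2) (by norm_num) (hne 2 (by simp)) 4) (nd_mul' (nd_pow (p := p) (q := 3) (by norm_num) (hne 3 (by simp)) 3) (nd_pow (p := p) (q := 5) (by norm_num) (hne 5 (by simp)) 1)))

theorem bw (h3 : 3 < p) (hne : ∀ q ∈ ([2, 3, 5, 7] : List ℕ), p ≠ q) (hno : ∀ q ∈ ([47, 59, 83] : List ℕ), p ≠ q) (hv : (72 : WO p) * v = 1) (hg : g ^ 2 = 3) (hk : k ^ 2 = 7) (hi : i ^ 2 = -1) :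
    BA 7 5 (g * i) (W v g k) (W v (-g) (-k)) := by
  refine ⟨?_, ?_, iso h3 hne hv hg hk hi⟩
  · rw [Zeq hv hg hk]
    exact red_ne_mul (n := 2773) (by push_cast; exact ne_a hv hg hk) (by
    have e : (2773 : ℤ) = (((47 : ℕ) : ℤ) ^ 1) * ((((59 : ℕ) : ℤ) ^ 1)) := by norm_num
    rw [e]
    exact nd_mul' (nd_pow (p := p) (q := 47) (by norm_num) (hno 47 (by simp)) 1) (nd_pow (p := p) (q := 59) (by norm_num) (hno 59 (by simp)) 1))
  · rw [Zeq hv hg hk]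
    exact red_ne_mul (n := 34279) (by push_cast; exact ne_b hv hg hk) (by
    have e : (34279 : ℤ) = (((7 : ℕ) : ℤ) ^ 1) * ((((59 : ℕ) : ℤ) ^ 1) * ((((83 : ℕ) : ℤ) ^ 1))) := by norm_num
    rw [e]
    exact nd_mul' (nd_pow (p := p) (q := 7) (by norm_num) (hne 7 (by simp)) 1) (nd_mul' (nd_pow (p := p) (q := 59) (by norm_num) (hno 59 (by simp)) 1) (nd_pow (p := p) (q := 83) (by norm_num) (hno 83 (by simp)) 1)))

theorem data (h3 : 3 < p) (hne : ∀ q ∈ ([2, 3, 5, 7] : List ℕ), p ≠ q) : ∃ v g k i μ : WO p, (72 : WO p) * v = 1 ∧ g ^ 2 = 3 ∧ k ^ 2 = 7 ∧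
    i ^ 2 = -1 ∧ ((-112 : ℤ) : WO p) * μ = 1 := by
  obtain ⟨v, hv⟩ := (unit_int (p := p) (n := 72) (by
    have e : (72 : ℤ) = (((2 : ℕ) : ℤ) ^ 3) * ((((3 : ℕ) : ℤ) ^ 2)) := by norm_num
    rw [e]
    exact nd_mul' (nd_pow (p := p) (q := 2) (by norm_num) (hne 2 (by simp)) 3) (nd_pow (p := p) (q := 3) (by norm_num) (hne 3 (by simp)) 2))).exists_right_inv
  obtain ⟨μ, hμ⟩ := (unit_int (p := p) (n := -112) (by
    rw [dvd_neg]
    have e : (112 : ℤ) = (((2 : ℕ) : ℤ) ^ 4) * ((((7 : ℕ) : ℤ) ^ 1)) := by norm_num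
    rw [e]
    exact nd_mul' (nd_pow (p := p) (q := 2) (by norm_num) (hne 2 (by simp)) 4) (nd_pow (p := p) (q := 7) (by norm_num) (hne 7 (by simp)) 1))).exists_right_inv
  obtain ⟨g, hg⟩ := wo_isqrt p (by omega) (d := 3) (by
    have e : (3 : ℤ) = (((3 : ℕ) : ℤ) ^ 1) := by norm_num
    rw [e]
    exact nd_pow (p := p) (q := 3) (by norm_num) (hne 3 (by simp)) 1)
  obtain ⟨k, hk⟩ := wo_isqrt p (by omega) (d := 7) (by
    have e : (7 : ℤ) = (((7 : ℕ) : ℤ) ^ 1) := by norm_num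
    rw [e]
    exact nd_pow (p := p) (q := 7) (by norm_num) (hne 7 (by simp)) 1)
  obtain ⟨i, hi⟩ := wo_isqrt p (by omega) (d := -1) (by rw [dvd_neg]; exact nd_one)
  refine ⟨v, g, k, i, μ, ?_, ?_, ?_, ?_, hμ⟩
  · exact_mod_cast hv
  · exact_mod_cast hg
  · exact_mod_cast hk
  · rw [hi]; push_cast; rfl

theorem u4 (h3 : 3 < p) (hne : ∀ q ∈ ([2, 3, 5, 7] : List ℕ), p ≠ q) (hv : (72 : WO p) * v = 1) (hg : g ^ 2 = 3) (hk : k ^ 2 = 7) :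
    U4 (W v g k) (W v g (-k)) (W v (-g) k) (W v (-g) (-k)) := by
  refine u_4 (q4 hv hg hk) (u3_of h3) ?_
  have := unit_int (p := p) (n := -108) (by
    rw [dvd_neg]
    have e : (108 : ℤ) = (((2 : ℕ) : ℤ) ^ 2) * ((((3 : ℕ) : ℤ) ^ 3)) := by norm_num
    rw [e]
    exact nd_mul' (nd_pow (p := p) (q := 2) (by norm_num) (hne 2 (by simp)) 2) (nd_pow (p := p) (q := 3) (by norm_num) (hne 3 (by simp)) 3))
  push_cast at this ⊢
  have e : (-112 : WO p) + 4 = -108 := by norm_num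
  rw [e]; exact this

theorem ord (h : legendreSym p (-(3 * 7)) = 1) : ∀ q ∈ ([47, 59, 83] : List ℕ), p ≠ q := by
  intro q hq
  simp only [List.mem_cons, List.not_mem_nil, or_false] at hq
  rcases hq with rfl | rfl | rfl <;> (rintro rfl; revert h; norm_num)

end wo

end Pool.Agent.H578.CM.F7
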